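import Pool.Agent.R872.QR.Stm

open MeasureTheory Filter Topology
open scoped ComplexConjugate

namespace Pool.R872.QR

theorem ucm_mul_conj {f : ℕ → ℂ} (hf : UCM f) {n : ℕ} (hn : n ≠ 0) : f n * conj (f n) = 1 := by
  rw [Complex.mul_conj, Complex.normSq_eq_norm_sq, hf.norm n hn]
  simp

theorem ucm_sq {f : ℕ → ℂ} (hf : UCM f) : UCM (fun n => f n ^ 2) where
  zero := by simp [hf.zero]
  one := by simp [hf.one]
  mul m n := by simp only [hf.mul]; ring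
  norm n hn := by rw [norm_pow, hf.norm n hn, one_pow]

theorem ucm_le {f : ℕ → ℂ} (hf : UCM f) (n : ℕ) : ‖f n‖ ≤ 1 := by
  rcases eq_or_ne n 0 with h | h
  · rw [h, hf.zero]; simp
  · exact (hf.norm n h).le

theorem alg {f : ℕ → ℂ} (hf : UCM f) {D n u v e ρ m r : ℕ} (hD : D ≠ 0) (hn : n ≠ 0) (he : e ≠ 0)
    (hρ : ρ ≠ 0) (hr : r ≠ 0) (h1 : D * n = u) (h2 : D * (n + 1) = v) (h3 : n + 1 = e * ρ)
    (h4 : m = e * r) :
    f (n ^ 2 + n) * conj (f (m ^ 2)) = f u * conj (f v) * (f ρ ^ 2 * conj (f r ^ 2)) := by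
  have e1 : n ^ 2 + n = n * (n + 1) := by ring
  have e2 : m ^ 2 = m * m := by ring
  rw [e1, e2, ← h1, ← h2, h3, h4]
  simp only [hf.mul, map_mul, map_pow]
  have k1 := ucm_mul_conj hf hD
  have k2 := ucm_mul_conj hf he
  have k3 := ucm_mul_conj hf hρ
  linear_combination (f n * f e * f ρ * (conj (f e)) ^ 2 * (conj (f r)) ^ 2) * 0 +
    (f n * f ρ * conj (f e) * (conj (f r)) ^ 2) * k2 -
    (f n * conj (f e) * conj (f ρ) * f ρ ^ 2 * (conj (f r)) ^ 2) * k1 -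
    (f n * conj (f e) * f ρ * (conj (f r)) ^ 2) * k3

theorem pairs (z : ℕ → ℂ) (hz : ∀ i, ‖z i‖ = 1) (k : ℕ) :
    2 * ∑ j ∈ Finset.range k, ∑ i ∈ Finset.range j, (z i * conj (z j)).re =
      ‖∑ i ∈ Finset.range k, z i‖ ^ 2 - k := by
  induction k with
  | zero => simp
  | succ k ih =>
    rw [Finset.sum_range_succ, Finset.sum_range_succ, mul_add, ih]
    have h1 : ∑ i ∈ Finset.range k, (z i * conj (z k)).re =
        ((∑ i ∈ Finset.range k, z i) * conj (z k)).re := by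
      rw [Finset.sum_mul, Complex.re_sum]
    rw [h1]
    set w := ∑ i ∈ Finset.range k, z i
    have h2 : ‖w + z k‖ ^ 2 = ‖w‖ ^ 2 + ‖z k‖ ^ 2 + 2 * (w * conj (z k)).re := by
      rw [← Complex.normSq_eq_norm_sq, ← Complex.normSq_eq_norm_sq, ← Complex.normSq_eq_norm_sq]
      exact Complex.normSq_add w (z k)
    rw [h2, hz k]
    push_cast
    ring

theorem emb (h : ℕ → ℕ → ℝ) (h0 : ∀ n m, 0 ≤ h n m) (N : ℕ) (S T : Finset ℕ) (u v : ℕ → ℕ)
    (hu : Set.InjOn u S) (hv : Set.InjOn v T) (hu1 : ∀ t ∈ S, u t ∈ Finset.Icc 1 N)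
    (hv1 : ∀ t ∈ T, v t ∈ Finset.Icc 1 N) :
    ∑ t ∈ S, ∑ r ∈ T, h (u t) (v r) ≤ ∑ n ∈ Finset.Icc 1 N, ∑ m ∈ Finset.Icc 1 N, h n m := by
  calc ∑ t ∈ S, ∑ r ∈ T, h (u t) (v r) = ∑ t ∈ S, ∑ m ∈ T.image v, h (u t) m := by
        refine Finset.sum_congr rfl fun t _ => ?_
        rw [Finset.sum_image hv]
    _ ≤ ∑ t ∈ S, ∑ m ∈ Finset.Icc 1 N, h (u t) m := by
        refine Finset.sum_le_sum fun t _ => ?_
        refine Finset.sum_le_sum_of_subset_of_nonneg ?_ fun m _ _ => h0 _ _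
        intro m hm
        obtain ⟨r, hr, rfl⟩ := Finset.mem_image.1 hm
        exact hv1 r hr
    _ = ∑ n ∈ S.image u, ∑ m ∈ Finset.Icc 1 N, h n m := by
        rw [Finset.sum_image hu]
    _ ≤ _ := by
        refine Finset.sum_le_sum_of_subset_of_nonneg ?_ fun n _ _ =>
          Finset.sum_nonneg fun m _ => h0 _ _
        intro n hn
        obtain ⟨t, ht, rfl⟩ := Finset.mem_image.1 hn
        exact hu1 t ht

end Pool.R872.QR
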