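import Pool.Agent.R872.QR.Stm

open MeasureTheory Filter Topology
open scoped ComplexConjugate

namespace Pool.R872.QR

namespace BoxAux

lemma step {p N a : ℕ} (hp : p.Prime) (hN : N ≠ 0) (ha : p ^ a ∣ N) :
    (a + 1) * ((N.divisors).filter (fun d => ¬ p ∣ d)).card ≤ (N.divisors).card := by
  rw [mul_comm, ← Finset.card_range (a + 1), ← Finset.card_product]
  refine Finset.card_le_card_of_injOn (fun x => x.1 * p ^ x.2) ?_ ?_
  · intro x hx
    simp only [Finset.coe_product, Set.mem_prod, Finset.mem_coe, Finset.mem_filter,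
      Nat.mem_divisors, Finset.mem_range] at hx
    obtain ⟨⟨⟨h1, _⟩, h2⟩, h3⟩ := hx
    simp only [Finset.mem_coe, Nat.mem_divisors]
    refine ⟨?_, hN⟩
    refine Nat.Coprime.mul_dvd_of_dvd_of_dvd ?_ h1 ((pow_dvd_pow p (by omega)).trans ha)
    exact Nat.Coprime.pow_right _ ((Nat.Prime.coprime_iff_not_dvd hp).2 h2).symm
  · have key : ∀ d d' i j : ℕ, ¬ p ∣ d → i < j → d * p ^ i = d' * p ^ j → False := by
      intro d d' i j h1 h2 h3
      obtain ⟨k, rfl⟩ := Nat.exists_eq_add_of_lt h2
      have h4 : d * p ^ i = (d' * p ^ (k + 1)) * p ^ i := by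
        rw [h3]; ring
      have h5 := Nat.eq_of_mul_eq_mul_right (pow_pos hp.pos i) h4
      exact h1 (h5 ▸ (Dvd.dvd.mul_left (dvd_pow_self p (by omega)) d'))
    rintro ⟨d, i⟩ h1 ⟨d', j⟩ h2 h3
    simp only [Finset.coe_product, Set.mem_prod, Finset.mem_coe, Finset.mem_filter,
      Nat.mem_divisors, Finset.mem_range] at h1 h2 h3
    rcases lt_trichotomy i j with h | h | h
    · exact (key d d' i j h1.1.2 h h3).elim
    · subst h
      have := Nat.eq_of_mul_eq_mul_right (pow_pos hp.pos i) h3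
      rw [this]
    · exact (key d' d j i h2.1.2 h h3.symm).elim

/-- the boxes -/
def J (K : ℕ) : Finset ℕ := (K.factorial ^ K).divisors

lemma N0 (K : ℕ) : K.factorial ^ K ≠ 0 := pow_ne_zero _ (Nat.factorial_ne_zero K)

lemma J_ne (K : ℕ) : (J K).Nonempty := ⟨1, Nat.one_mem_divisors.2 (N0 K)⟩

lemma J_card_pos (K : ℕ) : (0 : ℝ) < (J K).card := by exact_mod_cast (J_ne K).card_pos

lemma J_pos {K n : ℕ} (h : n ∈ J K) : 0 < n := Nat.pos_of_mem_divisors h

lemma J_dvd {K m n : ℕ} (h : n ∈ J K) (hm : m ∣ n) : m ∈ J K := by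
  unfold J at *
  rw [Nat.mem_divisors] at *
  exact ⟨hm.trans h.1, h.2⟩

/-- the relative number of elements of the box which `u` does not divide -/
noncomputable def bad (u K : ℕ) : ℝ := (((J K).filter (fun d => ¬ u ∣ d)).card : ℝ) / (J K).card

lemma div_inj {K u : ℕ} (P : ℕ → Prop) [DecidablePred P] :
    (((J K).filter (fun m => u ∣ m ∧ P (m / u))).card) ≤ ((J K).filter P).card := by
  refine Finset.card_le_card_of_injOn (fun m => m / u) ?_ ?_
  · intro m hm
    simp only [Finset.mem_coe, Finset.mem_filter] at hm ⊢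
    exact ⟨J_dvd hm.1 (Nat.div_dvd_of_dvd hm.2.1), hm.2.2⟩
  · intro m hm n hn h
    simp only [Finset.mem_coe, Finset.mem_filter] at hm hn h
    have h1 := Nat.div_mul_cancel hm.2.1
    have h2 := Nat.div_mul_cancel hn.2.1
    rw [← h1, ← h2, h]

lemma bad_nonneg (u K : ℕ) : 0 ≤ bad u K := by unfold bad; positivity

lemma bad_prime {p : ℕ} (hp : p.Prime) : Tendsto (bad p) atTop (𝓝 0) := by
  refine squeeze_zero' (Eventually.of_forall (bad_nonneg p)) ?_
    (tendsto_one_div_add_atTop_nhds_zero_nat (𝕜 := ℝ))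
  filter_upwards [eventually_ge_atTop p] with K hK
  have h1 := step hp (N0 K) (pow_dvd_pow_of_dvd ((Nat.Prime.dvd_factorial hp).2 hK) K)
  unfold bad
  rw [div_le_div_iff₀ (J_card_pos K) (by positivity), one_mul, mul_comm]
  exact_mod_cast h1

lemma bad_mul (p a K : ℕ) : bad (p * a) K ≤ bad a K + bad p K := by
  unfold bad
  rw [← add_div]
  refine div_le_div_of_nonneg_right ?_ (J_card_pos K).le
  have h1 : (J K).filter (fun d => ¬ p * a ∣ d) ⊆ (J K).filter (fun d => ¬ a ∣ d) ∪
      (J K).filter (fun m => a ∣ m ∧ ¬ p ∣ m / a) := by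
    intro m hm
    simp only [Finset.mem_union, Finset.mem_filter] at hm ⊢
    by_cases h : a ∣ m
    · right
      refine ⟨hm.1, h, fun h2 => hm.2 ?_⟩
      rw [← Nat.div_mul_cancel h]
      exact Nat.mul_dvd_mul_right h2 a
    · exact Or.inl ⟨hm.1, h⟩
  have h2 := (Finset.card_le_card h1).trans (Finset.card_union_le _ _)
  have h3 := div_inj (K := K) (u := a) (fun m => ¬ p ∣ m)
  exact_mod_cast h2.trans (Nat.add_le_add_left h3 _)

lemma bad_tendsto : ∀ u : ℕ, 0 < u → Tendsto (bad u) atTop (𝓝 0) := by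
  intro u
  induction u using induction_on_primes with
  | zero => intro h; exact absurd h (lt_irrefl 0)
  | one =>
    intro _
    have : bad 1 = fun _ => 0 := by
      funext K
      simp [bad]
    rw [this]
    exact tendsto_const_nhds
  | prime_mul p a hp ih =>
    intro h
    have ha : 0 < a := Nat.pos_of_mul_pos_left h
    refine squeeze_zero (bad_nonneg _) (bad_mul p a) ?_
    simpa using (ih ha).add (bad_prime hp)

lemma upper (u v K : ℕ) (hu : 0 < u) :
    (((J K) ×ˢ (J K)).filter (fun p => u * p.2 = v * p.1)).card ≤ (J K).card := by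
  refine Finset.card_le_card_of_injOn (fun p => p.1) ?_ ?_
  · intro p hp
    simp only [Finset.mem_coe, Finset.mem_filter, Finset.mem_product] at hp ⊢
    exact hp.1.1
  · rintro ⟨m, n⟩ h1 ⟨m', n'⟩ h2 h3
    simp only [Finset.mem_coe, Finset.mem_filter, Finset.mem_product] at h1 h2 h3
    subst h3
    have : u * n = u * n' := by rw [h1.2, h2.2]
    rw [Nat.eq_of_mul_eq_mul_left hu this]

lemma lower (u v K : ℕ) (_hv : 0 < v) :
    (J K).card ≤ (((J K) ×ˢ (J K)).filter (fun p => u * p.2 = v * p.1)).card +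
      ((J K).filter (fun d => ¬ u ∣ d)).card + ((J K).filter (fun d => ¬ v ∣ d)).card := by
  have h1 : J K ⊆ ((J K).filter (fun m => u ∣ m ∧ v * (m / u) ∈ J K)) ∪
      ((J K).filter (fun d => ¬ u ∣ d)) ∪
      ((J K).filter (fun m => u ∣ m ∧ ¬ v * (m / u) ∈ J K)) := by
    intro m hm
    simp only [Finset.mem_union, Finset.mem_filter]
    by_cases h : u ∣ m
    · by_cases h' : v * (m / u) ∈ J K
      · exact Or.inl (Or.inl ⟨hm, h, h'⟩)
      · exact Or.inr ⟨hm, h, h'⟩
    · exact Or.inl (Or.inr ⟨hm, h⟩)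
  have h2 : ((J K).filter (fun m => u ∣ m ∧ v * (m / u) ∈ J K)).card ≤
      (((J K) ×ˢ (J K)).filter (fun p => u * p.2 = v * p.1)).card := by
    refine Finset.card_le_card_of_injOn (fun m => (m, v * (m / u))) ?_ ?_
    · intro m hm
      simp only [Finset.mem_coe, Finset.mem_filter, Finset.mem_product] at hm ⊢
      refine ⟨⟨hm.1, hm.2.2⟩, ?_⟩
      have := Nat.div_mul_cancel hm.2.1
      calc u * (v * (m / u)) = v * (m / u * u) := by ring
        _ = v * m := by rw [this]
    · intro m _ n _ h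
      exact (Prod.mk.inj h).1
  have h3 : ((J K).filter (fun m => u ∣ m ∧ ¬ v * (m / u) ∈ J K)).card ≤
      ((J K).filter (fun d => ¬ v ∣ d)).card := by
    refine (div_inj (K := K) (u := u) (fun m => ¬ v * m ∈ J K)).trans ?_
    have h4 := Finset.card_filter_add_card_filter_not (s := J K) (fun m => v * m ∈ J K)
    have h5 := Finset.card_filter_add_card_filter_not (s := J K) (fun m => v ∣ m)
    have h6 : ((J K).filter (fun m => v ∣ m)).card ≤ ((J K).filter (fun m => v * m ∈ J K)).card := by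
      refine Finset.card_le_card_of_injOn (fun m => m / v) ?_ ?_
      · intro m hm
        simp only [Finset.mem_coe, Finset.mem_filter] at hm ⊢
        refine ⟨J_dvd hm.1 (Nat.div_dvd_of_dvd hm.2), ?_⟩
        rw [Nat.mul_div_cancel' hm.2]
        exact hm.1
      · intro m hm n hn h
        simp only [Finset.mem_coe, Finset.mem_filter] at hm hn h
        rw [← Nat.div_mul_cancel hm.2, ← Nat.div_mul_cancel hn.2, h]
    omega
  have h7 := (Finset.card_le_card h1).trans (Finset.card_union_le _ _)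
  have h8 := Finset.card_union_le ((J K).filter (fun m => u ∣ m ∧ v * (m / u) ∈ J K))
    ((J K).filter (fun d => ¬ u ∣ d))
  omega

end BoxAux

open BoxAux in
theorem BOX : ∃ J : ℕ → Finset ℕ, (∀ K, (J K).Nonempty) ∧ (∀ K, ∀ n ∈ J K, 0 < n) ∧
    ∀ u v : ℕ, 0 < u → 0 < v → Tendsto (fun K =>
      ((((J K) ×ˢ (J K)).filter (fun p => u * p.2 = v * p.1)).card : ℝ) / (J K).card)
      atTop (𝓝 1) := by
  refine ⟨BoxAux.J, J_ne, fun K n h => J_pos h, fun u v hu hv => ?_⟩
  have h1 : Tendsto (fun K => 1 - (bad u K + bad v K)) atTop (𝓝 1) := by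
    simpa using ((bad_tendsto u hu).add (bad_tendsto v hv)).const_sub 1
  refine tendsto_of_tendsto_of_tendsto_of_le_of_le h1 tendsto_const_nhds ?_ ?_
  · intro K
    have h2 := lower u v K hv
    have h3 := J_card_pos K
    have h4 : ((BoxAux.J K).card : ℝ) ≤
        ((((BoxAux.J K) ×ˢ (BoxAux.J K)).filter (fun p => u * p.2 = v * p.1)).card : ℝ) +
        (((BoxAux.J K).filter (fun d => ¬ u ∣ d)).card : ℝ) +
        (((BoxAux.J K).filter (fun d => ¬ v ∣ d)).card : ℝ) := by exact_mod_cast h2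
    simp only [bad]
    rw [← add_div, sub_le_iff_le_add, ← add_div, le_div_iff₀ h3]
    linarith
  · intro K
    rw [div_le_one (J_card_pos K)]
    exact_mod_cast upper u v K hu

end Pool.R872.QR
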