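import Pool.Agent.R872.QR.Stm

open MeasureTheory Filter Topology
open scoped ComplexConjugate

namespace Pool.R872.QR

namespace CNT1aux

theorem exists_inv (Q d : ℕ) (hd : 1 < d) (hco : Nat.Coprime Q d) : ∃ v, d ∣ Q * v + 1 := by
  obtain ⟨m, hm⟩ := Nat.exists_mul_mod_eq_one_of_coprime hco hd
  have hm' := hm
  obtain ⟨w, hw⟩ : ∃ w, Q * w ≡ 1 [MOD d] := by
    refine ⟨m, ?_⟩
    unfold Nat.ModEq
    rw [Nat.mod_eq_of_lt hd]
    first
      | exact hm
      | exact hm.2
  refine ⟨(d - 1) * w, ?_⟩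
  have h1 : Q * ((d - 1) * w) + 1 ≡ 0 [MOD d] := by
    have h2 : Q * ((d - 1) * w) ≡ (d - 1) * 1 [MOD d] := by
      have := hw.mul_left (d - 1)
      rw [show Q * ((d - 1) * w) = (d - 1) * (Q * w) by ring]
      exact this
    have h3 := h2.add_right 1
    have h4 : (d - 1) * 1 + 1 = d := by omega
    rw [h4] at h3
    exact h3.trans (by simp [Nat.ModEq])
  exact (Nat.modEq_zero_iff_dvd).1 h1

theorem cnt (Q d A q : ℕ) (hd : 1 < d) (hco : Nat.Coprime Q d) :
    |(((Finset.Ioc A (A + q)).filter (fun t => d ∣ Q * t + 1)).card : ℝ) - q / d| ≤ 1 := by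
  obtain ⟨v, hv⟩ := exists_inv Q d hd hco
  have hf : (Finset.Ioc A (A + q)).filter (fun t => d ∣ Q * t + 1) =
      (Finset.Ioc A (A + q)).filter (fun t => t ≡ v [MOD d]) := by
    apply Finset.filter_congr
    intro t _
    constructor
    · intro h
      have h1 : Q * t + 1 ≡ Q * v + 1 [MOD d] :=
        ((Nat.modEq_zero_iff_dvd).2 h).trans ((Nat.modEq_zero_iff_dvd).2 hv).symm
      have h2 : Q * t ≡ Q * v [MOD d] := Nat.ModEq.add_right_cancel' 1 h1
      exact Nat.ModEq.cancel_left_of_coprime (by rw [Nat.gcd_comm]; exact hco) h2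
    · intro h
      have h1 : Q * t + 1 ≡ Q * v + 1 [MOD d] := (h.mul_left Q).add_right 1
      exact (Nat.modEq_zero_iff_dvd).1 (h1.trans ((Nat.modEq_zero_iff_dvd).2 hv))
  rw [hf]
  have hd0 : 0 < d := by omega
  have key := Nat.Ioc_filter_modEq_card A (A + q) hd0 v
  have hdq : (0 : ℚ) < d := by exact_mod_cast hd0
  set N : ℕ := ((Finset.Ioc A (A + q)).filter (fun t => t ≡ v [MOD d])).card with hN
  set a : ℚ := ((A : ℚ) - v) / d with ha
  have hb : (((A + q : ℕ) : ℚ) - v) / d = a + q / d := by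
    rw [ha]; push_cast; ring
  rw [hb] at key
  have hq0 : (0 : ℚ) ≤ (q : ℚ) / d := by positivity
  have hmono : ⌊a⌋ ≤ ⌊a + (q : ℚ) / d⌋ := Int.floor_le_floor (by linarith)
  rw [max_eq_left (by linarith)] at key
  have k1 : ((N : ℤ) : ℚ) = (⌊a + (q : ℚ) / d⌋ : ℚ) - (⌊a⌋ : ℚ) := by
    rw [key]; push_cast; ring
  have f1 := Int.floor_le a
  have f2 := Int.lt_floor_add_one a
  have f3 := Int.floor_le (a + (q : ℚ) / d)
  have f4 := Int.lt_floor_add_one (a + (q : ℚ) / d)
  have res : |(N : ℚ) - q / d| ≤ 1 := by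
    have k2 : (N : ℚ) = (⌊a + (q : ℚ) / d⌋ : ℚ) - (⌊a⌋ : ℚ) := by
      rw [← k1]; norm_cast
    rw [k2, abs_le]
    constructor <;> linarith
  have hcast : ((((N : ℚ) - q / d : ℚ)) : ℝ) = (N : ℝ) - q / d := by push_cast; ring
  rw [← hcast]
  exact_mod_cast res

end CNT1aux

open CNT1aux in
theorem CNT1 : S_CNT1 := by
  intro y Q l hF hl q hq
  obtain ⟨hQ, hFull⟩ := hF
  obtain ⟨m, rfl⟩ : ∃ m, l = m + 1 := ⟨l - 1, by omega⟩
  have hm : m + 1 - 1 = m := by omega
  rw [hm]
  have hI : (m + 1) * q = m * q + q := by ring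
  have hinj : Function.Injective (fun t : ℕ => Q * t + 1) := by
    intro a b h
    have : Q * a + 1 = Q * b + 1 := h
    exact Nat.eq_of_mul_eq_mul_left hQ (by omega)
  have hcof : ∀ p, p.Prime → y < p → Nat.Coprime Q p := by
    intro p hp hy
    rw [Nat.coprime_comm, hp.coprime_iff_not_dvd]
    intro h
    have := (hFull p hp).1 h
    omega
  have hcard : ∀ d, 1 < d → Nat.Coprime Q d →
      |((((Finset.Ioc (m * q) ((m + 1) * q)).image (fun t => Q * t + 1)).filter
        (fun u => d ∣ u)).card : ℝ) - q / d| ≤ 2 := by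
    intro d hd hco
    rw [Finset.filter_image, Finset.card_image_of_injective _ hinj, hI]
    exact (cnt Q d (m * q) q hd hco).trans (by norm_num)
  refine ⟨?_, ?_, ?_, ?_, ?_⟩
  · intro u hu
    rw [Finset.mem_image] at hu
    obtain ⟨t, ht, rfl⟩ := hu
    rw [Finset.mem_Ioc] at ht
    refine ⟨by omega, ?_, ?_⟩
    · have : Q * t ≤ Q * ((m + 1) * q) := Nat.mul_le_mul_left Q ht.2
      calc Q * t + 1 ≤ Q * ((m + 1) * q) + 1 := by omega
        _ = (m + 1) * Q * q + 1 := by ring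
    · intro p hp hpd
      by_contra hh
      have h1 : p ∣ Q := (hFull p hp).2 (by omega)
      have h2 : p ∣ 1 := (Nat.dvd_add_right (dvd_mul_of_dvd_left h1 t)).1 hpd
      exact hp.one_lt.ne' (Nat.dvd_one.1 h2)
  · rw [Finset.card_image_of_injective _ hinj, Nat.card_Ioc, hI]
    have : m * q + q - m * q = q := by omega
    rw [this]
    simp
  · intro p hp hy
    exact hcard p hp.one_lt (hcof p hp hy)
  · intro p hp hy
    have := hcard (p ^ 2) (Nat.one_lt_pow (by norm_num) hp.one_lt)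
      (Nat.Coprime.pow_right 2 (hcof p hp hy))
    push_cast at this
    exact this
  · intro p p' hp hp' hy hy' _
    have := hcard (p * p') (by
      calc 1 < p := hp.one_lt
        _ ≤ p * p' := Nat.le_mul_of_pos_right p hp'.pos)
      (Nat.Coprime.mul_right (hcof p hp hy) (hcof p' hp' hy'))
    push_cast at this
    exact this

end Pool.R872.QR
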