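import Pool.Agent.R872.QR.Stm

set_option autoImplicit false

namespace Pool.R872.QR

namespace CNT2aux

theorem blocks (Q k m : ℕ) :
    ((Finset.Ico k (k + Q * m)).filter (fun x => Nat.Coprime Q x)).card = Nat.totient Q * m := by
  induction m with
  | zero => simp
  | succ m ih =>
    have h1 : Finset.Ico k (k + Q * (m + 1)) =
        Finset.Ico k (k + Q * m) ∪ Finset.Ico (k + Q * m) (k + Q * m + Q) := by
      rw [Finset.Ico_union_Ico_eq_Ico (by omega) (by omega)]
      congr 1
      ring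
    have h2 : Disjoint ((Finset.Ico k (k + Q * m)).filter (fun x => Nat.Coprime Q x))
        ((Finset.Ico (k + Q * m) (k + Q * m + Q)).filter (fun x => Nat.Coprime Q x)) := by
      apply Finset.disjoint_filter_filter
      exact Finset.Ico_disjoint_Ico_consecutive _ _ _
    rw [h1, Finset.filter_union, Finset.card_union_of_disjoint h2, ih,
      Nat.filter_coprime_Ico_eq_totient]
    ring

theorem interval (Q k L : ℕ) (hQ : 0 < Q) :
    |((((Finset.Ico k (k + L)).filter (fun x => Nat.Coprime Q x)).card : ℕ) : ℝ) -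
      (L : ℝ) * Nat.totient Q / Q| ≤ Nat.totient Q := by
  have hQ' : (0 : ℝ) < Q := by exact_mod_cast hQ
  have hdiv := Nat.div_add_mod L Q
  have hmod := Nat.mod_lt L hQ
  set m := L / Q with hm
  have h1 : Nat.totient Q * m ≤
      ((Finset.Ico k (k + L)).filter (fun x => Nat.Coprime Q x)).card := by
    rw [← blocks Q k m]
    apply Finset.card_le_card
    apply Finset.filter_subset_filter
    apply Finset.Ico_subset_Ico_right
    omega
  have h2 : ((Finset.Ico k (k + L)).filter (fun x => Nat.Coprime Q x)).card ≤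
      Nat.totient Q * (m + 1) := by
    rw [← blocks Q k (m + 1)]
    apply Finset.card_le_card
    apply Finset.filter_subset_filter
    apply Finset.Ico_subset_Ico_right
    have : Q * (m + 1) = Q * m + Q := by ring
    omega
  have h1' : (Nat.totient Q : ℝ) * m ≤
      ((((Finset.Ico k (k + L)).filter (fun x => Nat.Coprime Q x)).card : ℕ) : ℝ) := by
    exact_mod_cast h1
  have h2' : ((((Finset.Ico k (k + L)).filter (fun x => Nat.Coprime Q x)).card : ℕ) : ℝ) ≤
      (Nat.totient Q : ℝ) * (m + 1) := by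
    exact_mod_cast h2
  have h3 : (Q : ℝ) * m ≤ L := by
    have : Q * m ≤ L := by omega
    exact_mod_cast this
  have h4 : (L : ℝ) ≤ Q * (m + 1) := by
    have : L ≤ Q * (m + 1) := by
      have : Q * (m + 1) = Q * m + Q := by ring
      omega
    exact_mod_cast this
  have hφ : (0 : ℝ) ≤ Nat.totient Q := Nat.cast_nonneg _
  have h5 : (Nat.totient Q : ℝ) * m ≤ (L : ℝ) * Nat.totient Q / Q := by
    rw [le_div_iff₀ hQ']
    have := mul_le_mul_of_nonneg_right h3 hφ
    linarith
  have h6 : (L : ℝ) * Nat.totient Q / Q ≤ (Nat.totient Q : ℝ) * (m + 1) := by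
    rw [div_le_iff₀ hQ']
    have := mul_le_mul_of_nonneg_right h4 hφ
    linarith
  rw [abs_le]
  constructor <;> linarith

theorem S2_card (Q l q : ℕ) (hl : 2 ≤ l) : (S2 Q l q).card = q * Nat.totient Q := by
  have e : S2 Q l q = (Finset.Ico ((l - 1) * Q * q + 1) ((l - 1) * Q * q + 1 + Q * q)).filter
      (fun x => Nat.Coprime Q x) := by
    unfold S2
    obtain ⟨k, rfl⟩ : ∃ k, l = k + 1 := ⟨l - 1, by omega⟩
    have h1 : (k + 1) * Q * q = k * Q * q + Q * q := by ring
    ext x
    rw [Finset.mem_filter, Finset.mem_filter, Finset.mem_Ioc, Finset.mem_Ico, Nat.coprime_comm,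
      h1, Nat.add_sub_cancel]
    constructor
    · rintro ⟨⟨h2, h3⟩, h4⟩
      exact ⟨⟨by omega, by omega⟩, h4⟩
    · rintro ⟨⟨h2, h3⟩, h4⟩
      exact ⟨⟨by omega, by omega⟩, h4⟩
  rw [e, blocks, mul_comm]

theorem mult (Q l q d : ℕ) (hQ : 0 < Q) (hl : 2 ≤ l) (hd : 0 < d) (hdQ : Nat.Coprime d Q) :
    |((((S2 Q l q).filter (fun u => d ∣ u)).card : ℕ) : ℝ) -
      (q : ℝ) * Nat.totient Q / d| ≤ 2 * Q := by
  obtain ⟨k, rfl⟩ : ∃ k, l = k + 1 := ⟨l - 1, by omega⟩
  have h1 : (k + 1) * Q * q = k * Q * q + Q * q := by ring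
  set U := k * Q * q with hU
  set V := U + Q * q with hV
  set a := U / d with ha
  set b := V / d with hb
  have hab : a ≤ b := Nat.div_le_div_right (by omega)
  have hcard : ((S2 Q (k + 1) q).filter (fun u => d ∣ u)).card =
      ((Finset.Ico (a + 1) (a + 1 + (b - a))).filter (fun x => Nat.Coprime Q x)).card := by
    have e : (S2 Q (k + 1) q).filter (fun u => d ∣ u) =
        ((Finset.Ico (a + 1) (a + 1 + (b - a))).filter (fun x => Nat.Coprime Q x)).image
          (fun r => d * r) := by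
      ext u
      unfold S2
      rw [h1, Nat.add_sub_cancel]
      simp only [Finset.mem_filter, Finset.mem_Ioc, Finset.mem_image, Finset.mem_Ico]
      constructor
      · rintro ⟨⟨⟨h2, h3⟩, h4⟩, r, rfl⟩
        refine ⟨r, ⟨⟨?_, ?_⟩, ?_⟩, rfl⟩
        · have : a < r := by
            rw [ha, Nat.div_lt_iff_lt_mul hd]
            rw [mul_comm]
            exact h2
          omega
        · have : r ≤ b := by
            rw [hb, Nat.le_div_iff_mul_le hd, mul_comm]
            exact h3
          omega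
        · exact (Nat.Coprime.coprime_dvd_left (Dvd.intro_left d rfl) h4).symm
      · rintro ⟨r, ⟨⟨h2, h3⟩, h4⟩, rfl⟩
        refine ⟨⟨⟨?_, ?_⟩, ?_⟩, Dvd.intro r rfl⟩
        · have h5 : a < r := by omega
          rw [ha, Nat.div_lt_iff_lt_mul hd, mul_comm] at h5
          exact h5
        · have h5 : r ≤ b := by omega
          rw [hb, Nat.le_div_iff_mul_le hd, mul_comm] at h5
          exact h5
        · exact Nat.Coprime.mul_left hdQ h4.symm
    rw [e]
    exact Finset.card_image_of_injective _ fun r s hrs => Nat.eq_of_mul_eq_mul_left hd hrs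
  have hint := interval Q (a + 1) (b - a) hQ
  rw [hcard]
  have hQ' : (0 : ℝ) < Q := by exact_mod_cast hQ
  have hd' : (0 : ℝ) < d := by exact_mod_cast hd
  have hQ1 : (1 : ℝ) ≤ Q := by exact_mod_cast hQ
  have hφ : (0 : ℝ) ≤ Nat.totient Q := Nat.cast_nonneg _
  have hφQ : (Nat.totient Q : ℝ) ≤ Q := by exact_mod_cast Nat.totient_le Q
  have ha1 : (a : ℝ) * d ≤ U := by
    have := Nat.div_mul_le_self U d
    exact_mod_cast this
  have ha2 : (U : ℝ) < (a + 1) * d := by
    have := Nat.lt_mul_of_div_lt (Nat.lt_succ_self (U / d)) hd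
    have h7 : U < (a + 1) * d := this
    exact_mod_cast h7
  have hb1 : (b : ℝ) * d ≤ V := by
    have := Nat.div_mul_le_self V d
    exact_mod_cast this
  have hb2 : (V : ℝ) < (b + 1) * d := by
    have := Nat.lt_mul_of_div_lt (Nat.lt_succ_self (V / d)) hd
    have h7 : V < (b + 1) * d := this
    exact_mod_cast h7
  have hVU : (V : ℝ) = U + Q * q := by rw [hV]; push_cast; ring
  have hL : (((b - a : ℕ) : ℕ) : ℝ) = (b : ℝ) - a := by
    rw [Nat.cast_sub hab]
  rw [hL] at hint
  have hlen : |((b : ℝ) - a) - Q * q / d| ≤ 1 := by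
    rw [abs_le]
    constructor
    · rw [neg_le_sub_iff_le_add, div_le_iff₀ hd']
      nlinarith
    · rw [sub_le_iff_le_add, ← sub_le_iff_le_add', le_div_iff₀ hd']
      nlinarith
  have h8 : |((b : ℝ) - a) * Nat.totient Q / Q - (q : ℝ) * Nat.totient Q / d| ≤ 1 := by
    have e : ((b : ℝ) - a) * Nat.totient Q / Q - (q : ℝ) * Nat.totient Q / d =
        (((b : ℝ) - a) - Q * q / d) * (Nat.totient Q / Q) := by
      field_simp
    rw [e, abs_mul]
    have h9 : |(Nat.totient Q : ℝ) / Q| ≤ 1 := by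
      rw [abs_of_nonneg (by positivity), div_le_one hQ']
      exact hφQ
    calc _ ≤ (1 : ℝ) * 1 := mul_le_mul hlen h9 (abs_nonneg _) zero_le_one
      _ = 1 := one_mul 1
  have h10 := abs_sub_le
    ((((Finset.Ico (a + 1) (a + 1 + (b - a))).filter (fun x => Nat.Coprime Q x)).card : ℕ) : ℝ)
    (((b : ℝ) - a) * Nat.totient Q / Q) ((q : ℝ) * Nat.totient Q / d)
  linarith

end CNT2aux

open CNT2aux in
theorem CNT2 : S_CNT2 := by
  intro y Q l hfull hl q hq
  obtain ⟨hQ, hp⟩ := hfull
  have hcard := S2_card Q l q hl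
  have hcop : ∀ p, p.Prime → y < p → Nat.Coprime p Q := by
    intro p hpp hy
    rw [Nat.Prime.coprime_iff_not_dvd hpp]
    intro h
    have := (hp p hpp).1 h
    omega
  refine ⟨⟨?_, ?_, ?_, ?_, ?_⟩, hcard⟩
  · intro u hu
    unfold S2 at hu
    rw [Finset.mem_filter, Finset.mem_Ioc] at hu
    obtain ⟨⟨h1, h2⟩, h3⟩ := hu
    refine ⟨by omega, by omega, ?_⟩
    intro p hpp hpu
    by_contra hcon
    have h4 : p ∣ Q := (hp p hpp).2 (by omega)
    have h5 := Nat.dvd_gcd hpu h4
    rw [h3] at h5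
    exact hpp.one_lt.ne' (Nat.dvd_one.1 h5)
  · rw [hcard]
    push_cast
    rw [sub_self, abs_zero]
    positivity
  · intro p hpp hy
    exact mult Q l q p hQ hl hpp.pos (hcop p hpp hy)
  · intro p hpp hy
    have h1 := mult Q l q (p ^ 2) hQ hl (pow_pos hpp.pos 2) ((hcop p hpp hy).pow_left 2)
    push_cast at h1
    exact h1
  · intro p p' hpp hpp' hy hy' _
    have h1 := mult Q l q (p * p') hQ hl (Nat.mul_pos hpp.pos hpp'.pos)
      ((hcop p hpp hy).mul_left (hcop p' hpp' hy'))
    push_cast at h1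
    exact h1

end Pool.R872.QR
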