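import Pool.Agent.R872.QR.Stm

open MeasureTheory Filter Topology
open scoped ComplexConjugate

namespace Pool.R872.QR

theorem t_CHI : S_CHI := by
  refine ⟨?_, ?_, ?_⟩
  · intro x
    refine ⟨by simp [chi], by simp [chi], ?_, ?_⟩
    · intro m n
      by_cases hm : m = 0
      · simp [chi, hm]
      by_cases hn : n = 0
      · simp [chi, hn]
      have hmn : m * n ≠ 0 := mul_ne_zero hm hn
      unfold chi
      rw [if_neg hm, if_neg hn, if_neg hmn, Nat.factorization_mul hm hn]
      exact Finsupp.prod_add_index' (fun p => pow_zero _) (fun p a b => pow_add _ _ _)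
    · intro n hn
      unfold chi
      rw [if_neg hn, Finsupp.prod, norm_prod]
      refine Finset.prod_eq_one fun p _ => ?_
      rw [norm_pow, Circle.norm_coe, one_pow]
  · intro n
    unfold chi
    by_cases hn : n = 0
    · simp only [hn, if_true]
      exact continuous_const
    · simp only [hn, if_false]
      unfold Finsupp.prod
      refine continuous_finsetProd _ fun p _ => ?_
      refine Continuous.pow ?_ _
      have h1 : Continuous (fun x : ℕ → UnitAddCircle => AddCircle.toCircle (x p)) :=
        AddCircle.continuous_toCircle.comp (continuous_apply p)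
      fun_prop
  · intro n
    unfold chi
    by_cases hn : n = 0
    · simp [hn]
    · rw [if_neg hn, if_neg hn]
      refine Finset.prod_eq_one fun p _ => ?_
      simp

end Pool.R872.QR
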