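import Pool.Agent.R872.QR.Stm

namespace Pool.R872.QR

namespace Cnt1

theorem class_exists {d Q : ℕ} (hd : 0 < d) (h : Nat.Coprime Q d) :
    ∃ v : ℕ, ∀ t : ℕ, (d ∣ Q * t + 1 ↔ t ≡ v [MOD d]) := by
  have : NeZero d := ⟨hd.ne'⟩
  have hu : IsUnit (Q : ZMod d) := (ZMod.isUnit_iff_coprime Q d).mpr h
  obtain ⟨u, hu⟩ := hu
  refine ⟨(-(↑u⁻¹ : ZMod d)).val, fun t => ?_⟩
  rw [← ZMod.natCast_eq_zero_iff, ← ZMod.natCast_eq_natCast_iff, ZMod.natCast_val, ZMod.cast_id]
  push_cast
  rw [← hu]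
  constructor
  · intro h1
    have h2 : (u : ZMod d) * t = -1 := eq_neg_of_add_eq_zero_left h1
    calc (t : ZMod d) = ↑u⁻¹ * (u * t) := by rw [← mul_assoc, Units.inv_mul, one_mul]
      _ = - ↑u⁻¹ := by rw [h2]; ring
  · intro h1
    rw [h1, mul_neg, Units.mul_inv]
    ring

theorem card_class (A q d v : ℕ) (hd : 0 < d) :
    |((((Finset.Ioc A (A + q)).filter (fun t => t ≡ v [MOD d])).card : ℕ) : ℝ) - (q : ℝ) / d| ≤ 1 := by
  have h1 := Nat.Ioc_filter_modEq_card A (A + q) hd v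
  have hdq : (0 : ℚ) < d := by exact_mod_cast hd
  set x : ℚ := (((A + q : ℕ) : ℚ) - v) / d with hx
  set y : ℚ := ((A : ℚ) - v) / d with hy
  have hxy : x - y = (q : ℚ) / d := by
    rw [hx, hy]
    push_cast
    field_simp
    ring
  have hq0 : (0 : ℚ) ≤ (q : ℚ) / d := by positivity
  have hle : ⌊y⌋ ≤ ⌊x⌋ := Int.floor_le_floor (by linarith)
  rw [max_eq_left (by omega)] at h1
  have h2 : (((((Finset.Ioc A (A + q)).filter (fun t => t ≡ v [MOD d])).card : ℕ) : ℤ) : ℚ) =
      ((⌊x⌋ - ⌊y⌋ : ℤ) : ℚ) := by rw [h1]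
  have h3 : |(((((Finset.Ioc A (A + q)).filter (fun t => t ≡ v [MOD d])).card : ℕ) : ℤ) : ℚ) -
      (q : ℚ) / d| ≤ 1 := by
    rw [h2, ← hxy, abs_le]
    push_cast
    have a1 := Int.floor_le x
    have a2 := Int.lt_floor_add_one x
    have a3 := Int.floor_le y
    have a4 := Int.lt_floor_add_one y
    constructor <;> linarith
  have h4 : ((|(((((Finset.Ioc A (A + q)).filter (fun t => t ≡ v [MOD d])).card : ℕ) : ℤ) : ℚ) -
      (q : ℚ) / d| : ℚ) : ℝ) ≤ ((1 : ℚ) : ℝ) := by exact_mod_cast h3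
  push_cast at h4
  exact_mod_cast h4

end Cnt1

open Cnt1 in
theorem t_CNT1 : S_CNT1 := by
  intro y Q l hF hl q hq
  have hinj : Function.Injective (fun t : ℕ => Q * t + 1) := by
    intro s t h
    have h1 : Q * s = Q * t := by
      have : Q * s + 1 = Q * t + 1 := h
      omega
    exact Nat.eq_of_mul_eq_mul_left hF.1 h1
  have hlq : l * q = (l - 1) * q + q := by
    obtain ⟨m, rfl⟩ : ∃ m, l = m + 1 := ⟨l - 1, by omega⟩
    simp only [Nat.add_sub_cancel]
    ring
  have key : ∀ d : ℕ, 0 < d → Nat.Coprime Q d →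
      |(((((Finset.Ioc ((l - 1) * q) (l * q)).image (fun t => Q * t + 1)).filter
        (fun u => d ∣ u)).card : ℕ) : ℝ) - (q : ℝ) / d| ≤ 2 := by
    intro d hd hc
    obtain ⟨v, hv⟩ := class_exists hd hc
    rw [Finset.filter_image, Finset.card_image_of_injective _ hinj]
    have h1 := card_class ((l - 1) * q) q d v hd
    rw [← hlq] at h1
    simp only [hv]
    linarith
  have hcop : ∀ p, p.Prime → y < p → Nat.Coprime Q p := by
    intro p hp hy
    rw [Nat.coprime_comm, Nat.Prime.coprime_iff_not_dvd hp]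
    intro h
    have := (hF.2 p hp).mp h
    omega
  refine ⟨?_, ?_, ?_, ?_, ?_⟩
  · intro u hu
    obtain ⟨t, ht, rfl⟩ := Finset.mem_image.mp hu
    have ht' := Finset.mem_Ioc.mp ht
    refine ⟨Nat.le_add_left 1 _, ?_, ?_⟩
    · have : Q * t ≤ Q * (l * q) := Nat.mul_le_mul_left _ ht'.2
      have e : l * Q * q = Q * (l * q) := by ring
      rw [e]
      exact Nat.add_le_add_right this 1
    · intro p hp hd
      by_contra hcon
      push Not at hcon
      have h1 : p ∣ Q * t := ((hF.2 p hp).mpr hcon).mul_right t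
      have h2 : p ∣ 1 := (Nat.dvd_add_right h1).mp hd
      exact hp.one_lt.ne' (Nat.dvd_one.mp h2)
  · rw [Finset.card_image_of_injective _ hinj, Nat.card_Ioc, hlq, Nat.add_sub_cancel_left]
    simp
  · intro p hp hy
    exact key p hp.pos (hcop p hp hy)
  · intro p hp hy
    have := key (p ^ 2) (by have := hp.pos; positivity) (Nat.Coprime.pow_right 2 (hcop p hp hy))
    push_cast at this
    exact this
  · intro p p' hp hp' hy hy' _
    have := key (p * p') (Nat.mul_pos hp.pos hp'.pos)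
      (Nat.Coprime.mul_right (hcop p hp hy) (hcop p' hp' hy'))
    push_cast at this
    exact this

end Pool.R872.QR
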