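import Pool.Agent.R872.QR.Alg

open MeasureTheory Filter Topology Finset
open scoped ComplexConjugate

namespace Pool.R872.QR

noncomputable def FF (x : ℕ → UnitAddCircle) (n : ℕ) : ℂ := chi x n ^ 2

noncomputable def VV (Q l q : ℕ) (x : ℕ → UnitAddCircle) : ℂ :=
  (∑ r ∈ S2 Q l q, FF x r) / (q * Nat.totient Q : ℂ)

noncomputable def gj (Q l q : ℕ) (x : ℕ → UnitAddCircle) : ℝ :=
  min 2 ((∑ t ∈ Ioc ((l - 1) * q) (l * q), ∑ r ∈ S2 Q l q, ‖FF x (Q * t + 1) - FF x r‖) /
    (q * (q * Nat.totient Q)))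

def Non : Set (ℕ → UnitAddCircle) :=
  {x | ∀ Q l : ℕ, 0 < Q → 2 ≤ l → Tendsto (fun q => VV Q l q x) atTop (𝓝 0)}

noncomputable def Phi (W ai aj l q : ℕ) (x : ℕ → UnitAddCircle) : ℂ :=
  (∑ t ∈ Ioc ((l - 1) * q) (l * q), chi x (W * t + ai) * conj (chi x (W * t + aj))) / (q : ℂ)

noncomputable def Psi (W ai aj Q l q : ℕ) (x : ℕ → UnitAddCircle) : ℂ :=
  (∑ t ∈ Ioc ((l - 1) * q) (l * q), ∑ r ∈ S2 Q l q,
    chi x (W * t + ai) * conj (chi x (W * t + aj)) *
      (FF x (Q * t + 1) * conj (FF x r))) / (q * (q * Nat.totient Q) : ℂ)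

theorem card_t (l q : ℕ) (hl : 2 ≤ l) : (Ioc ((l - 1) * q) (l * q)).card = q := by
  rw [Nat.card_Ioc, ← Nat.sub_mul]
  have : l - (l - 1) = 1 := by omega
  rw [this, one_mul]

variable (hCHI : S_CHI)

include hCHI

theorem chi_cont (n : ℕ) : Continuous (fun x => chi x n) := hCHI.2.1 n

theorem FF_cont (n : ℕ) : Continuous (fun x => FF x n) := (hCHI.2.1 n).pow 2

theorem FF_ucm (x) : UCM (FF x) := ucm_sq (hCHI.1 x)

theorem VV_cont (Q l q : ℕ) : Continuous (fun x => VV Q l q x) := by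
  unfold VV
  exact (continuous_finset_sum _ fun r _ => FF_cont hCHI r).div_const _

theorem gj_cont (Q l q : ℕ) : Continuous (fun x => gj Q l q x) := by
  unfold gj
  refine continuous_const.min ((continuous_finset_sum _ fun t _ => continuous_finset_sum _
    fun r _ => ?_).div_const _)
  exact ((FF_cont hCHI _).sub (FF_cont hCHI r)).norm

theorem Non_meas : MeasurableSet Non := by
  unfold Non
  have : {x : ℕ → UnitAddCircle | ∀ Q l : ℕ, 0 < Q → 2 ≤ l →
      Tendsto (fun q => VV Q l q x) atTop (𝓝 0)} =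
      ⋂ Q : ℕ, ⋂ l : ℕ, ⋂ _ : 0 < Q, ⋂ _ : 2 ≤ l, {x | Tendsto (fun q => VV Q l q x) atTop (𝓝 0)} := by
    ext x
    simp only [Set.mem_iInter]
    rfl
  rw [this]
  refine MeasurableSet.iInter fun Q => MeasurableSet.iInter fun l => MeasurableSet.iInter fun _ =>
    MeasurableSet.iInter fun _ => ?_
  exact measurableSet_tendsto (𝓝 0) (fun q => (VV_cont hCHI Q l q).measurable)

theorem gj_nonneg (Q l q : ℕ) (x) : 0 ≤ gj Q l q x := by
  unfold gj
  refine le_min (by norm_num) ?_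
  exact div_nonneg (sum_nonneg fun t _ => sum_nonneg fun r _ => norm_nonneg _) (by positivity)

theorem gj_le (Q l q : ℕ) (x) : gj Q l q x ≤ 2 := min_le_left _ _

theorem VV_le {Q l q : ℕ} (hcard : (S2 Q l q).card = q * Nat.totient Q) (x) :
    ‖VV Q l q x‖ ≤ 1 := by
  unfold VV
  rw [norm_div]
  have h1 : ‖∑ r ∈ S2 Q l q, FF x r‖ ≤ (q * Nat.totient Q : ℝ) := by
    refine (norm_sum_le_of_le _ (fun r _ => ucm_le (FF_ucm hCHI x) r)).trans ?_
    rw [sum_const, hcard, nsmul_eq_mul, mul_one]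
    push_cast
    exact le_rfl
  have h2 : ‖(q * Nat.totient Q : ℂ)‖ = (q * Nat.totient Q : ℝ) := by
    rw [norm_mul, Complex.norm_natCast, Complex.norm_natCast]
  rw [h2]
  exact div_le_one_of_le₀ h1 (by positivity)

theorem Psi_le {W ai aj Q l q : ℕ} (hl : 2 ≤ l) (hq : 0 < q) (x) :
    ‖Psi W ai aj Q l q x‖ ≤ ‖VV Q l q x‖ := by
  have hq' : (q : ℂ) ≠ 0 := by exact_mod_cast hq.ne'
  have e : Psi W ai aj Q l q x = ((∑ t ∈ Ioc ((l - 1) * q) (l * q),
      chi x (W * t + ai) * conj (chi x (W * t + aj)) * FF x (Q * t + 1)) / (q : ℂ)) *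
      conj (VV Q l q x) := by
    unfold Psi VV
    rw [map_div₀, map_sum, map_mul, Complex.conj_natCast, Complex.conj_natCast, div_mul_div_comm,
      sum_mul_sum]
    congr 1
    refine sum_congr rfl fun t _ => sum_congr rfl fun r _ => ?_
    ring
  rw [e, norm_mul, Complex.norm_conj]
  refine mul_le_of_le_one_left (norm_nonneg _) ?_
  rw [norm_div, Complex.norm_natCast]
  refine div_le_one_of_le₀ ?_ (by positivity)
  refine (norm_sum_le_of_le _ (fun t _ => ?_) (f := fun t => chi x (W * t + ai) *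
    conj (chi x (W * t + aj)) * FF x (Q * t + 1)) (n := fun _ => (1 : ℝ))).trans ?_
  · rw [norm_mul, norm_mul, Complex.norm_conj]
    have h1 := ucm_le (hCHI.1 x) (W * t + ai)
    have h2 := ucm_le (hCHI.1 x) (W * t + aj)
    have h3 := ucm_le (FF_ucm hCHI x) (Q * t + 1)
    exact mul_le_one₀ (mul_le_one₀ h1 (norm_nonneg _) h2) (norm_nonneg _) h3
  · rw [sum_const, card_t l q hl, nsmul_eq_mul, mul_one]

theorem Psi_sub {W ai aj Q l q : ℕ} (hl : 2 ≤ l) (hq : 0 < q) (hQ : 0 < Q)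
    (hcard : (S2 Q l q).card = q * Nat.totient Q) (x) :
    ‖Psi W ai aj Q l q x - Phi W ai aj l q x‖ ≤ gj Q l q x := by
  have hq' : (q : ℂ) ≠ 0 := by exact_mod_cast hq.ne'
  have hQ' : (Nat.totient Q : ℂ) ≠ 0 := by exact_mod_cast (Nat.totient_pos.2 hQ).ne'
  have e : Psi W ai aj Q l q x - Phi W ai aj l q x = (∑ t ∈ Ioc ((l - 1) * q) (l * q),
      ∑ r ∈ S2 Q l q, chi x (W * t + ai) * conj (chi x (W * t + aj)) *
      (FF x (Q * t + 1) * conj (FF x r) - 1)) / (q * (q * Nat.totient Q) : ℂ) := by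
    unfold Psi Phi
    have e1 : (∑ t ∈ Ioc ((l - 1) * q) (l * q), chi x (W * t + ai) * conj (chi x (W * t + aj))) /
        (q : ℂ) = (∑ t ∈ Ioc ((l - 1) * q) (l * q), ∑ _r ∈ S2 Q l q,
        chi x (W * t + ai) * conj (chi x (W * t + aj))) / (q * (q * Nat.totient Q) : ℂ) := by
      simp only [sum_const, nsmul_eq_mul, hcard]
      rw [← mul_sum]
      push_cast
      field_simp
    rw [e1, ← sub_div, ← sum_sub_distrib]
    congr 1
    refine sum_congr rfl fun t _ => ?_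
    rw [← sum_sub_distrib]
    refine sum_congr rfl fun r _ => ?_
    ring
  have hden : ‖(q * (q * Nat.totient Q) : ℂ)‖ = (q * (q * Nat.totient Q) : ℝ) := by
    rw [norm_mul, norm_mul, Complex.norm_natCast, Complex.norm_natCast]
  have hterm : ∀ t ∈ Ioc ((l - 1) * q) (l * q), ∀ r ∈ S2 Q l q,
      ‖chi x (W * t + ai) * conj (chi x (W * t + aj)) *
      (FF x (Q * t + 1) * conj (FF x r) - 1)‖ ≤ ‖FF x (Q * t + 1) - FF x r‖ := by
    intro t _ r hr
    have hr0 : r ≠ 0 := by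
      intro h0
      rw [S2, mem_filter, mem_Ioc] at hr
      omega
    have h1 := ucm_le (hCHI.1 x) (W * t + ai)
    have h2 := ucm_le (hCHI.1 x) (W * t + aj)
    rw [norm_mul, norm_mul, Complex.norm_conj]
    refine (mul_le_of_le_one_left (norm_nonneg _) (mul_le_one₀ h1 (norm_nonneg _) h2)).trans ?_
    have h3 := ucm_mul_conj (FF_ucm hCHI x) hr0
    have h4 : FF x (Q * t + 1) * conj (FF x r) - 1 = (FF x (Q * t + 1) - FF x r) * conj (FF x r) := by
      rw [sub_mul, h3]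
    rw [h4, norm_mul, Complex.norm_conj, (FF_ucm hCHI x).norm r hr0, mul_one]
  unfold gj
  rw [e, norm_div, hden]
  refine le_min ?_ ?_
  · rw [div_le_iff₀ (by
      have := Nat.totient_pos.2 hQ
      positivity)]
    refine (norm_sum_le_of_le _ (fun t ht => norm_sum_le_of_le _ (fun r hr =>
      (hterm t ht r hr).trans ((norm_sub_le _ _).trans (add_le_add
        (ucm_le (FF_ucm hCHI x) _) (ucm_le (FF_ucm hCHI x) _)))))).trans ?_
    simp only [sum_const, nsmul_eq_mul, hcard, card_t l q hl]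
    push_cast
    apply le_of_eq
    ring
  · refine div_le_div_of_nonneg_right ?_ (by positivity)
    exact norm_sum_le_of_le _ (fun t ht => norm_sum_le_of_le _ (fun r hr => hterm t ht r hr))

end Pool.R872.QR
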