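import Pool.Agent.R872.QR.Core1

open MeasureTheory Filter Topology Finset
open scoped ComplexConjugate

namespace Pool.R872.QR

theorem intg (σ : Measure (ℕ → UnitAddCircle)) [IsFiniteMeasure σ] {g : (ℕ → UnitAddCircle) → ℝ}
    (hg : Continuous g) : Integrable g σ :=
  hg.integrable_of_hasCompactSupport (HasCompactSupport.of_compactSpace g)

theorem Phi_cont (hCHI : S_CHI) (W ai aj l q : ℕ) : Continuous (fun x => Phi W ai aj l q x) := by
  unfold Phi
  refine (continuous_finsetSum _ fun t _ => ?_).div_const _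
  exact (chi_cont hCHI _).mul (Complex.continuous_conj.comp (chi_cont hCHI _))

theorem Psi_cont (hCHI : S_CHI) (W ai aj Q l q : ℕ) :
    Continuous (fun x => Psi W ai aj Q l q x) := by
  unfold Psi
  refine (continuous_finsetSum _ fun t _ => continuous_finsetSum _ fun r _ => ?_).div_const _
  refine ((chi_cont hCHI _).mul (Complex.continuous_conj.comp (chi_cont hCHI _))).mul ?_
  exact (FF_cont hCHI _).mul (Complex.continuous_conj.comp (FF_cont hCHI _))

theorem zero_mem (hCHI : S_CHI) {Q l : ℕ} (hQ : 0 < Q) (hl : 2 ≤ l)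
    (hcard : ∀ q, 0 < q → (S2 Q l q).card = q * Nat.totient Q) :
    (0 : ℕ → UnitAddCircle) ∉ Non := by
  intro h
  have h1 := h Q l hQ hl
  have h2 : ∀ᶠ q in atTop, VV Q l q 0 = 1 := by
    filter_upwards [eventually_gt_atTop 0] with q hq
    unfold VV FF
    have h3 : ∑ r ∈ S2 Q l q, chi 0 r ^ 2 = ∑ _r ∈ S2 Q l q, (1 : ℂ) := by
      refine sum_congr rfl fun r hr => ?_
      have hr0 : r ≠ 0 := by
        intro h0
        rw [S2, mem_filter, mem_Ioc] at hr
        omega
      rw [hCHI.2.2 r, if_neg hr0, one_pow]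
    rw [h3, sum_const, nsmul_eq_mul, mul_one, hcard q hq]
    push_cast
    have hq' : (q : ℂ) ≠ 0 := by exact_mod_cast hq.ne'
    have hQ' : (Nat.totient Q : ℂ) ≠ 0 := by exact_mod_cast (Nat.totient_pos.2 hQ).ne'
    exact div_self (mul_ne_zero hq' hQ')
  have h4 : Tendsto (fun q => VV Q l q 0) atTop (𝓝 1) :=
    tendsto_const_nhds.congr' (h2.mono fun q hq => hq.symm)
  exact one_ne_zero (tendsto_nhds_unique h4 h1)

noncomputable def HH (a : ℕ → ℕ) (k W t : ℕ) (x : ℕ → UnitAddCircle) : ℝ :=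
  ‖∑ i ∈ range k, chi x (W * t + a i)‖ ^ 2

theorem Phi_sum (hCHI : S_CHI) (a : ℕ → ℕ) (k W l q : ℕ) (ha : ∀ i, i < k → 0 < a i) (hl : 2 ≤ l)
    (hq : 0 < q) (x) :
    ∑ j ∈ range k, ∑ i ∈ range j, (Phi W (a i) (a j) l q x).re =
      (∑ t ∈ Ioc ((l - 1) * q) (l * q), (HH a k W t x - k) / 2) / q := by
  have hq' : (q : ℝ) ≠ 0 := by exact_mod_cast hq.ne'
  have h1 : ∀ i j, (Phi W (a i) (a j) l q x).re = (∑ t ∈ Ioc ((l - 1) * q) (l * q),
      (chi x (W * t + a i) * conj (chi x (W * t + a j))).re) / q := by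
    intro i j
    unfold Phi
    have : (q : ℂ) = ((q : ℝ) : ℂ) := by push_cast; rfl
    rw [this, Complex.div_ofReal_re, Complex.re_sum]
  have h2 : ∀ t, (HH a k W t x - k) / 2 = ∑ j ∈ range k, ∑ i ∈ range j,
      (chi x (W * t + a i) * conj (chi x (W * t + a j))).re := by
    intro t
    let z : ℕ → ℂ := fun i => if i < k then chi x (W * t + a i) else 1
    have hz : ∀ i, ‖z i‖ = 1 := by
      intro i
      simp only [z]
      split_ifs with h
      · have := ha i h
        exact (hCHI.1 x).norm _ (by omega)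
      · simp
    have h3 := pairs z hz k
    have h4 : ∑ i ∈ range k, z i = ∑ i ∈ range k, chi x (W * t + a i) :=
      sum_congr rfl fun i hi => by simp only [z]; rw [if_pos (mem_range.1 hi)]
    have h5 : ∑ j ∈ range k, ∑ i ∈ range j, (z i * conj (z j)).re = ∑ j ∈ range k,
        ∑ i ∈ range j, (chi x (W * t + a i) * conj (chi x (W * t + a j))).re := by
      refine sum_congr rfl fun j hj => sum_congr rfl fun i hi => ?_
      have hj' := mem_range.1 hj
      have hi' := mem_range.1 hi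
      simp only [z]
      rw [if_pos hj', if_pos (hi'.trans hj')]
    rw [h4, h5] at h3
    unfold HH
    linarith
  simp only [h1, h2]
  have h6 : ∀ j ∈ range k, ∑ i ∈ range j, (∑ t ∈ Ioc ((l - 1) * q) (l * q),
      (chi x (W * t + a i) * conj (chi x (W * t + a j))).re) / (q : ℝ) =
      (∑ t ∈ Ioc ((l - 1) * q) (l * q), ∑ i ∈ range j,
      (chi x (W * t + a i) * conj (chi x (W * t + a j))).re) / q := by
    intro j _
    rw [← sum_div, sum_comm]
  rw [sum_congr rfl h6, ← sum_div, sum_comm]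

theorem HH_cont (hCHI : S_CHI) (a : ℕ → ℕ) (k W t : ℕ) : Continuous (HH a k W t) := by
  unfold HH
  exact (continuous_finsetSum _ fun i _ => chi_cont hCHI _).norm.pow 2

theorem HH_zero (hCHI : S_CHI) (a : ℕ → ℕ) (k W t : ℕ) (ha : ∀ i, i < k → 0 < a i) :
    HH a k W t 0 = (k : ℝ) ^ 2 := by
  unfold HH
  have : ∑ i ∈ range k, chi 0 (W * t + a i) = ∑ _i ∈ range k, (1 : ℂ) := by
    refine sum_congr rfl fun i hi => ?_
    have := ha i (mem_range.1 hi)
    rw [hCHI.2.2, if_neg (by omega)]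
  rw [this]
  simp

theorem stage (hCHI : S_CHI) (σ : Measure (ℕ → UnitAddCircle)) [IsFiniteMeasure σ] {α : ℝ}
    (h0 : α ^ 2 ≤ σ.real {0}) (h1 : σ.real Set.univ = α) (k : ℕ) (hk : 0 < k) (a Q : ℕ → ℕ)
    (W l : ℕ) (hl : 2 ≤ l) (ha : ∀ i, i < k → 0 < a i) (hQ : ∀ j, j < k → 0 < Q j)
    (hcard : ∀ j, j < k → ∀ q, 0 < q → (S2 (Q j) l q).card = q * Nat.totient (Q j))
    (q : ℕ) (hq : 0 < q) :
    (k ^ 2 * α ^ 2 - k * α) / 2 -
      k ^ 2 * ∫ x in Nonᶜ, (∑ j ∈ range k, gj (Q j) l q x) / k ∂σ -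
      k * ∑ j ∈ range k, ∫ x in Non, ‖VV (Q j) l q x‖ ∂σ ≤
    ∫ x, ∑ j ∈ range k, ∑ i ∈ range j, (Psi W (a i) (a j) (Q j) l q x).re ∂σ := by
  have hk' : (0 : ℝ) < k := by exact_mod_cast hk
  have hq' : (0 : ℝ) < q := by exact_mod_cast hq
  have hNm := Non_meas hCHI
  have cB : Continuous (fun x => ∑ j ∈ range k, ∑ i ∈ range j,
      (Psi W (a i) (a j) (Q j) l q x).re) :=
    continuous_finsetSum _ fun j _ => continuous_finsetSum _ fun i _ =>
      Complex.continuous_re.comp (Psi_cont hCHI _ _ _ _ _ _)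
  have cG : Continuous (fun x => (∑ j ∈ range k, gj (Q j) l q x) / (k : ℝ)) :=
    (continuous_finsetSum _ fun j _ => gj_cont hCHI _ _ _).div_const _
  have cV : Continuous (fun x => ∑ j ∈ range k, ‖VV (Q j) l q x‖) :=
    continuous_finsetSum _ fun j _ => (VV_cont hCHI _ _ _).norm
  have cH : Continuous (fun x => (∑ t ∈ Ioc ((l - 1) * q) (l * q), (HH a k W t x - k) / 2) /
      (q : ℝ)) :=
    (continuous_finsetSum _ fun t _ => ((HH_cont hCHI a k W t).sub continuous_const).div_const _).div_const _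
  -- the part over `Non`
  have hA : -(k * ∑ j ∈ range k, ∫ x in Non, ‖VV (Q j) l q x‖ ∂σ) ≤
      ∫ x in Non, ∑ j ∈ range k, ∑ i ∈ range j, (Psi W (a i) (a j) (Q j) l q x).re ∂σ := by
    have e1 : -(k * ∑ j ∈ range k, ∫ x in Non, ‖VV (Q j) l q x‖ ∂σ) =
        ∫ x in Non, -(k * ∑ j ∈ range k, ‖VV (Q j) l q x‖) ∂σ := by
      rw [integral_neg, integral_const_mul, integral_finsetSum]
      intro j _
      exact (intg σ (VV_cont hCHI _ _ _).norm).integrableOn
    rw [e1]
    refine setIntegral_mono ?_ ?_ ?_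
    · exact (intg σ (cV.const_mul _).neg).integrableOn
    · exact (intg σ cB).integrableOn
    · intro x
      have h2 : ∀ j ∈ range k, ∀ i ∈ range j, -‖VV (Q j) l q x‖ ≤
          (Psi W (a i) (a j) (Q j) l q x).re := by
        intro j _ i _
        have := Psi_le hCHI (W := W) (ai := a i) (aj := a j) (Q := Q j) hl hq x
        have h3 := Complex.abs_re_le_norm (Psi W (a i) (a j) (Q j) l q x)
        have h4 := neg_abs_le (Psi W (a i) (a j) (Q j) l q x).re
        linarith
      have h3 : ∑ j ∈ range k, -(k * ‖VV (Q j) l q x‖) ≤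
          ∑ j ∈ range k, ∑ i ∈ range j, (Psi W (a i) (a j) (Q j) l q x).re := by
        refine sum_le_sum fun j hj => ?_
        refine le_trans ?_ (sum_le_sum (h2 j hj))
        rw [sum_const, card_range, nsmul_eq_mul]
        have hj' : (j : ℝ) ≤ k := by exact_mod_cast (mem_range.1 hj).le
        have := norm_nonneg (VV (Q j) l q x)
        nlinarith
      refine le_trans (le_of_eq ?_) h3
      show -(k * ∑ j ∈ range k, ‖VV (Q j) l q x‖) = _
      rw [mul_sum, ← sum_neg_distrib]
  -- the part over the complement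
  have hC : (k ^ 2 * α ^ 2 - k * α) / 2 -
      k ^ 2 * ∫ x in Nonᶜ, (∑ j ∈ range k, gj (Q j) l q x) / k ∂σ ≤
      ∫ x in Nonᶜ, ∑ j ∈ range k, ∑ i ∈ range j, (Psi W (a i) (a j) (Q j) l q x).re ∂σ := by
    have h2 : ∀ x, (∑ t ∈ Ioc ((l - 1) * q) (l * q), (HH a k W t x - k) / 2) / (q : ℝ) -
        k ^ 2 * ((∑ j ∈ range k, gj (Q j) l q x) / k) ≤
        ∑ j ∈ range k, ∑ i ∈ range j, (Psi W (a i) (a j) (Q j) l q x).re := by
      intro x
      rw [← Phi_sum hCHI a k W l q ha hl hq x]
      have h3 : ∀ j ∈ range k, ∀ i ∈ range j, (Phi W (a i) (a j) l q x).re - gj (Q j) l q x ≤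
          (Psi W (a i) (a j) (Q j) l q x).re := by
        intro j hj i _
        have hj' := mem_range.1 hj
        have h4 := Psi_sub hCHI (W := W) (ai := a i) (aj := a j) hl hq (hQ j hj')
          (hcard j hj' q hq) x
        have h5 := Complex.abs_re_le_norm (Psi W (a i) (a j) (Q j) l q x - Phi W (a i) (a j) l q x)
        rw [Complex.sub_re] at h5
        have h6 := neg_abs_le ((Psi W (a i) (a j) (Q j) l q x).re - (Phi W (a i) (a j) l q x).re)
        linarith
      have h4 : ∑ j ∈ range k, (∑ i ∈ range j, (Phi W (a i) (a j) l q x).re -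
          k * gj (Q j) l q x) ≤
          ∑ j ∈ range k, ∑ i ∈ range j, (Psi W (a i) (a j) (Q j) l q x).re := by
        refine sum_le_sum fun j hj => ?_
        refine le_trans ?_ (sum_le_sum (h3 j hj))
        rw [sum_sub_distrib, sum_const, card_range, nsmul_eq_mul]
        have hj' : (j : ℝ) ≤ k := by exact_mod_cast (mem_range.1 hj).le
        have := gj_nonneg hCHI (Q j) l q x
        nlinarith
      refine le_trans (le_of_eq ?_) h4
      rw [sum_sub_distrib, ← mul_sum]
      congr 1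
      field_simp
    have h3 : ∫ x in Nonᶜ, ((∑ t ∈ Ioc ((l - 1) * q) (l * q), (HH a k W t x - k) / 2) / (q : ℝ) -
        k ^ 2 * ((∑ j ∈ range k, gj (Q j) l q x) / k)) ∂σ ≤
        ∫ x in Nonᶜ, ∑ j ∈ range k, ∑ i ∈ range j, (Psi W (a i) (a j) (Q j) l q x).re ∂σ := by
      refine setIntegral_mono ?_ ?_ h2
      · exact (intg σ (cH.sub (cG.const_mul _))).integrableOn
      · exact (intg σ cB).integrableOn
    refine le_trans ?_ h3
    rw [integral_sub (intg σ cH).integrableOn (intg σ (cG.const_mul _)).integrableOn,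
      integral_const_mul]
    refine sub_le_sub_right ?_ _
    have cHt : ∀ t, Continuous (fun x => (HH a k W t x - (k : ℝ)) / 2) := fun t =>
      ((HH_cont hCHI a k W t).sub continuous_const).div_const _
    rw [integral_div, integral_finsetSum _ (fun t _ => (intg σ (cHt t)).integrableOn)]
    rw [le_div_iff₀ hq']
    have h4 : ∀ t ∈ Ioc ((l - 1) * q) (l * q), (k ^ 2 * α ^ 2 - k * α) / 2 ≤
        ∫ x in Nonᶜ, (HH a k W t x - k) / 2 ∂σ := by
      intro t _
      rw [integral_div, integral_sub (intg σ (HH_cont hCHI a k W t)).integrableOn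
        (intg σ continuous_const).integrableOn]
      have h5 : (k : ℝ) ^ 2 * α ^ 2 ≤ ∫ x in Nonᶜ, HH a k W t x ∂σ := by
        have h6 : ∫ x in ({0} : Set (ℕ → UnitAddCircle)), HH a k W t x ∂σ ≤
            ∫ x in Nonᶜ, HH a k W t x ∂σ := by
          refine setIntegral_mono_set (intg σ (HH_cont hCHI a k W t)).integrableOn ?_ ?_
          · exact Eventually.of_forall fun x => by unfold HH; positivity
          · refine HasSubset.Subset.eventuallyLE ?_
            intro x hx
            rw [Set.mem_singleton_iff] at hx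
            rw [hx]
            exact zero_mem hCHI (hQ 0 hk) hl (hcard 0 hk)
        rw [integral_singleton, HH_zero hCHI a k W t ha, smul_eq_mul] at h6
        have h7 : (0 : ℝ) ≤ (k : ℝ) ^ 2 := by positivity
        nlinarith
      have h6 : ∫ _x in Nonᶜ, (k : ℝ) ∂σ ≤ k * α := by
        rw [setIntegral_const, smul_eq_mul, mul_comm]
        refine mul_le_mul_of_nonneg_left ?_ hk'.le
        rw [← h1]
        exact measureReal_mono (Set.subset_univ _)
      linarith
    have h5 := card_nsmul_le_sum _ _ _ h4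
    rw [card_t l q hl, nsmul_eq_mul] at h5
    linarith
  have hsplit := integral_add_compl hNm (intg σ cB)
  rw [← hsplit]
  linarith

end Pool.R872.QR
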