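import Pool.Agent.R872.QR.Core2

open MeasureTheory Filter Topology Finset
open scoped ComplexConjugate

namespace Pool.R872.QR

theorem pair_sum (hCHI : S_CHI) (σ : Measure (ℕ → UnitAddCircle)) [IsFiniteMeasure σ]
    (c : ℕ → ℕ → ℝ)
    (hc : ∀ u v, 0 < u → 0 < v → ∫ x, chi x u * conj (chi x v) ∂σ = (c u v : ℂ))
    {W ai aj D ei ej Q l q : ℕ} (hD : 0 < D) (hai : ai = D * ei) (haj : aj = D * ej)
    (he : ej = ei + 1) (hei : 0 < ei) (hW : W = aj * Q) (hQ : 0 < Q) (hq : 0 < q) :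
    ∑ t ∈ Ioc ((l - 1) * q) (l * q), ∑ r ∈ S2 Q l q,
      c ((ej * Q * t + ei) ^ 2 + (ej * Q * t + ei)) ((ej * r) ^ 2) =
    (q * (q * Nat.totient Q) : ℝ) * ∫ x, (Psi W ai aj Q l q x).re ∂σ := by
  have hterm : ∀ t ∈ Ioc ((l - 1) * q) (l * q), ∀ r ∈ S2 Q l q,
      c ((ej * Q * t + ei) ^ 2 + (ej * Q * t + ei)) ((ej * r) ^ 2) =
      ∫ x, (chi x (W * t + ai) * conj (chi x (W * t + aj)) *
        (FF x (Q * t + 1) * conj (FF x r))).re ∂σ := by
    intro t _ r hr
    have hr0 : r ≠ 0 := by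
      intro h0
      rw [S2, mem_filter, mem_Ioc] at hr
      omega
    have hu : 0 < (ej * Q * t + ei) ^ 2 + (ej * Q * t + ei) := by positivity
    have hv : 0 < (ej * r) ^ 2 := by
      have : 0 < ej := by omega
      have : 0 < r := Nat.pos_of_ne_zero hr0
      positivity
    have h1 := hc _ _ hu hv
    have h2 : Continuous (fun x => chi x ((ej * Q * t + ei) ^ 2 + (ej * Q * t + ei)) *
        conj (chi x ((ej * r) ^ 2))) :=
      (chi_cont hCHI _).mul (Complex.continuous_conj.comp (chi_cont hCHI _))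
    have h3 : Integrable (fun x => chi x ((ej * Q * t + ei) ^ 2 + (ej * Q * t + ei)) *
        conj (chi x ((ej * r) ^ 2))) σ :=
      h2.integrable_of_hasCompactSupport (HasCompactSupport.of_compactSpace _)
    have h4 := integral_re h3
    rw [h1] at h4
    have h5 : RCLike.re ((c ((ej * Q * t + ei) ^ 2 + (ej * Q * t + ei)) ((ej * r) ^ 2) : ℝ) : ℂ) =
        c ((ej * Q * t + ei) ^ 2 + (ej * Q * t + ei)) ((ej * r) ^ 2) := Complex.ofReal_re _
    rw [h5] at h4
    rw [← h4]
    refine integral_congr_ae (Eventually.of_forall fun x => ?_)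
    show (chi x ((ej * Q * t + ei) ^ 2 + (ej * Q * t + ei)) * conj (chi x ((ej * r) ^ 2))).re = _
    rw [alg (hCHI.1 x) (D := D) (n := ej * Q * t + ei) (u := W * t + ai) (v := W * t + aj)
      (e := ej) (ρ := Q * t + 1) (m := ej * r) (r := r) hD.ne' (by omega) (by omega) (by omega)
      hr0 ?_ ?_ ?_ rfl]
    · rfl
    · rw [hW, hai, haj]; ring
    · rw [hW, haj, he]; ring
    · rw [he]; ring
  rw [sum_congr rfl fun t ht => sum_congr rfl (hterm t ht)]
  have hcont : ∀ t r, Continuous (fun x => (chi x (W * t + ai) * conj (chi x (W * t + aj)) *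
      (FF x (Q * t + 1) * conj (FF x r))).re) := fun t r =>
    Complex.continuous_re.comp (((chi_cont hCHI _).mul
      (Complex.continuous_conj.comp (chi_cont hCHI _))).mul
      ((FF_cont hCHI _).mul (Complex.continuous_conj.comp (FF_cont hCHI _))))
  have h1 : ∀ t ∈ Ioc ((l - 1) * q) (l * q), ∑ r ∈ S2 Q l q,
      ∫ x, (chi x (W * t + ai) * conj (chi x (W * t + aj)) *
        (FF x (Q * t + 1) * conj (FF x r))).re ∂σ =
      ∫ x, ∑ r ∈ S2 Q l q, (chi x (W * t + ai) * conj (chi x (W * t + aj)) *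
        (FF x (Q * t + 1) * conj (FF x r))).re ∂σ := by
    intro t _
    rw [integral_finsetSum _ (fun r _ => intg σ (hcont t r))]
  rw [sum_congr rfl h1, ← integral_finsetSum _ (fun t _ => intg σ
    (continuous_finsetSum _ fun r _ => hcont t r)), ← integral_const_mul]
  refine integral_congr_ae (Eventually.of_forall fun x => ?_)
  show _ = (q * (q * Nat.totient Q) : ℝ) * (Psi W ai aj Q l q x).re
  have h2 : (q * (q * Nat.totient Q) : ℂ) = ((q * (q * Nat.totient Q) : ℝ) : ℂ) := by push_cast; rfl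
  have h3 : (0 : ℝ) < q * (q * Nat.totient Q) := by
    have := Nat.totient_pos.2 hQ
    positivity
  unfold Psi
  rw [h2, Complex.div_ofReal_re, mul_div_cancel₀ _ h3.ne', Complex.re_sum]
  refine sum_congr rfl fun t _ => ?_
  rw [Complex.re_sum]

noncomputable def Qf (a : ℕ → ℕ) (k j y : ℕ) : ℕ := (∏ i ∈ (range k).erase j, a i) * primorial y

theorem Qf_mul (a : ℕ → ℕ) {k j : ℕ} (hj : j < k) (y : ℕ) :
    (∏ i ∈ range k, a i) * primorial y = a j * Qf a k j y := by
  unfold Qf
  rw [← mul_assoc, mul_prod_erase _ _ (mem_range.2 hj)]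

theorem Qf_full (a : ℕ → ℕ) {k : ℕ} (ha : ∀ i, i < k → 0 < a i) {j : ℕ} (y : ℕ)
    (hy : ∀ i, i < k → a i ≤ y) : Full y (Qf a k j y) := by
  unfold Qf
  refine ⟨?_, ?_⟩
  · refine Nat.mul_pos (prod_pos fun i hi => ha i (mem_range.1 (mem_of_mem_erase hi))) ?_
    exact primorial_pos y
  · intro p hp
    rw [hp.dvd_mul, hp.dvd_primorial_iff]
    constructor
    · rintro (h | h)
      · rw [Prime.dvd_finset_prod_iff hp.prime] at h
        obtain ⟨i, hi, h2⟩ := h
        have hi' := mem_range.1 (mem_of_mem_erase hi)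
        exact (Nat.le_of_dvd (ha i hi') h2).trans (hy i hi')
      · exact h
    · exact fun h => Or.inr h

end Pool.R872.QR
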