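import Pool.Agent.R872.QR.Core3

open MeasureTheory Filter Topology Finset
open scoped ComplexConjugate

namespace Pool.R872.QR

theorem good_bound (hCHI : S_CHI) (hPAIR : S_PAIR) (hNPR : S_NPR) (a : ℕ → ℕ) {k : ℕ}
    (hk : 0 < k) (ha : ∀ i, i < k → 0 < a i) (x : ℕ → UnitAddCircle) (hx : x ∈ Nonᶜ) :
    ∃ τ : ℝ, ∀ ε : ℝ, 0 < ε → ∃ y₀ : ℕ, ∀ y, y₀ ≤ y → ∀ l : ℕ, 2 ≤ l → ∀ᶠ q : ℕ in atTop,
      (∑ j ∈ range k, gj (Qf a k j y) l q x) / k ≤ ε + 3 * |τ| / (l - 1) := by
  have hk' : (0 : ℝ) < k := by exact_mod_cast hk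
  have h1 : ∃ τ, Pret (FF x) τ := by
    by_contra hcon
    push Not at hcon
    exact hx (fun Q l hQ hl => hNPR (FF x) (FF_ucm hCHI x) hcon Q l hQ hl)
  obtain ⟨τ, hτ⟩ := h1
  refine ⟨τ, fun ε hε => ?_⟩
  obtain ⟨y₀, hy₀⟩ := hPAIR (FF x) τ (FF_ucm hCHI x) hτ ε hε
  refine ⟨max y₀ (∑ i ∈ range k, a i), fun y hy l hl => ?_⟩
  have h2 : ∀ j ∈ range k, ∀ᶠ q : ℕ in atTop, gj (Qf a k j y) l q x ≤ ε + 3 * |τ| / (l - 1) := by
    intro j _
    have hfull : Full y (Qf a k j y) := by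
      refine Qf_full a ha y fun i hi => ?_
      refine le_trans ?_ ((le_max_right _ _).trans hy)
      exact single_le_sum (f := a) (fun _ _ => Nat.zero_le _) (mem_range.2 hi)
    filter_upwards [hy₀ y ((le_max_left _ _).trans hy) _ l hfull hl, eventually_gt_atTop 0]
      with q h3 hq
    unfold gj
    refine (min_le_right _ _).trans ?_
    have h4 : (0 : ℝ) < q * (q * Nat.totient (Qf a k j y)) := by
      have := Nat.totient_pos.2 hfull.1
      positivity
    rw [div_le_iff₀ h4]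
    exact h3
  have h3 := (eventually_all_finset (range k)).2 h2
  filter_upwards [h3] with q h4
  rw [div_le_iff₀ hk']
  refine (sum_le_sum h4).trans ?_
  rw [sum_const, card_range, nsmul_eq_mul, mul_comm]

theorem core (hHB : S_HB) (hCHI : S_CHI) (hC2 : S_CNT2) (hPAIR : S_PAIR) (hNPR : S_NPR)
    (hDCT : S_DCT) (σ : Measure (ℕ → UnitAddCircle)) [IsFiniteMeasure σ] (c : ℕ → ℕ → ℝ) (α : ℝ)
    (hα : 0 < α)
    (hc : ∀ u v, 0 < u → 0 < v → ∫ x, chi x u * conj (chi x v) ∂σ = (c u v : ℂ))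
    (hc0 : ∀ u v, 0 ≤ c u v) (h0 : α ^ 2 ≤ σ.real {0}) (h1 : σ.real Set.univ = α) :
    ∃ κ : ℝ, 0 < κ ∧ ∀ᶠ N : ℕ in atTop,
      κ ≤ (∑ n ∈ Icc 1 N, ∑ m ∈ Icc 1 N, c (n ^ 2 + n) (m ^ 2)) / (N : ℝ) ^ 2 := by
  classical
  obtain ⟨k, hk2⟩ := exists_nat_ge (2 / α)
  have hkα : 2 ≤ k * α := by rwa [div_le_iff₀ hα] at hk2
  have hk' : (0 : ℝ) < k := by
    rcases Nat.eq_zero_or_pos k with h | h
    · rw [h] at hkα; norm_num at hkα
    · exact_mod_cast h
  have hk : 0 < k := by exact_mod_cast hk'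
  obtain ⟨a, ha, hab⟩ := hHB k
  set η0 : ℝ := k ^ 2 * α ^ 2 - k * α with hη0
  have hη0pos : 0 < η0 := by
    have : η0 = k * α * (k * α - 1) := by rw [hη0]; ring
    rw [this]
    exact mul_pos (by linarith) (by linarith)
  -- the choice of l and y
  obtain ⟨l, hl, y₀, hy₀⟩ := hDCT σ (fun y l q x => (∑ j ∈ range k, gj (Qf a k j y) l q x) / k)
    Nonᶜ (Non_meas hCHI).compl
    (fun y l q => ((continuous_finsetSum _ fun j _ => gj_cont hCHI _ _ _).div_const _).measurable)
    (fun y l q x => by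
      refine ⟨div_nonneg (sum_nonneg fun j _ => gj_nonneg hCHI _ _ _ _) hk'.le, ?_⟩
      rw [div_le_iff₀ hk']
      refine (sum_le_sum (fun j _ => gj_le hCHI (Qf a k j y) l q x)).trans ?_
      rw [sum_const, card_range, nsmul_eq_mul, mul_comm])
    (fun x hx => good_bound hCHI hPAIR hNPR a hk ha x hx) (η0 / (8 * k ^ 2)) (by positivity)
  set y := max y₀ (∑ i ∈ range k, a i) with hy
  have hay : ∀ i, i < k → a i ≤ y := fun i hi =>
    le_trans (single_le_sum (f := a) (fun _ _ => Nat.zero_le _) (mem_range.2 hi)) (le_max_right _ _)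
  have hfull : ∀ j, Full y (Qf a k j y) := fun j => Qf_full a ha y hay
  set Q : ℕ → ℕ := fun j => Qf a k j y with hQdef
  set W : ℕ := (∏ i ∈ range k, a i) * primorial y with hWdef
  have hW : ∀ j, j < k → W = a j * Q j := fun j hj => Qf_mul a hj y
  have hQ : ∀ j, 0 < Q j := fun j => (hfull j).1
  have hWpos : 0 < W := by
    rw [hW 0 hk]
    exact Nat.mul_pos (ha 0 hk) (hQ 0)
  have hcard : ∀ j, j < k → ∀ q, 0 < q → (S2 (Q j) l q).card = q * Nat.totient (Q j) :=
    fun j _ q hq => (hC2 y (Q j) l (hfull j) hl q hq).2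
  have hG := hy₀ y (le_max_left _ _)
  -- the part over `Non`
  have hV : ∀ j ∈ range k, Tendsto (fun q => ∫ x in Non, ‖VV (Q j) l q x‖ ∂σ) atTop (𝓝 0) := by
    intro j hj
    have hj' := mem_range.1 hj
    have h2 : Tendsto (fun q => ∫ x in Non, ‖VV (Q j) l q x‖ ∂σ) atTop
        (𝓝 (∫ _x in Non, (0 : ℝ) ∂σ)) := by
      refine tendsto_integral_filter_of_dominated_convergence (fun _ => (1 : ℝ)) ?_ ?_ ?_ ?_
      · exact Eventually.of_forall fun q => (VV_cont hCHI _ _ _).norm.aestronglyMeasurable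
      · filter_upwards [eventually_gt_atTop 0] with q hq
        refine Eventually.of_forall fun x => ?_
        rw [norm_norm]
        exact VV_le hCHI (hcard j hj' q hq) x
      · exact integrable_const _
      · rw [ae_restrict_iff' (Non_meas hCHI)]
        refine Eventually.of_forall fun x hx => ?_
        have := (hx (Q j) l (hQ j) hl).norm
        rwa [norm_zero] at this
    rwa [integral_zero] at h2
  have hV2 : Tendsto (fun q => (k : ℝ) * ∑ j ∈ range k, ∫ x in Non, ‖VV (Q j) l q x‖ ∂σ) atTop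
      (𝓝 0) := by
    have := (tendsto_finsetSum (range k) hV).const_mul (k : ℝ)
    simpa using this
  have hV3 : ∀ᶠ q in atTop, (k : ℝ) * ∑ j ∈ range k, ∫ x in Non, ‖VV (Q j) l q x‖ ∂σ < η0 / 8 :=
    hV2.eventually (gt_mem_nhds (by linarith))
  -- the main lower bound
  have hmain : ∀ᶠ q : ℕ in atTop, 0 < q ∧ η0 / 4 ≤
      ∑ j ∈ range k, ∑ i ∈ range j, ∫ x, (Psi W (a i) (a j) (Q j) l q x).re ∂σ := by
    filter_upwards [hG, hV3, eventually_gt_atTop 0] with q h2 h3 hq
    refine ⟨hq, ?_⟩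
    have h4 := stage hCHI σ h0 h1 k hk a Q W l hl ha (fun j _ => hQ j) hcard q hq
    have cP : ∀ i j, Continuous (fun x => (Psi W (a i) (a j) (Q j) l q x).re) := fun i j =>
      Complex.continuous_re.comp (Psi_cont hCHI _ _ _ _ _ _)
    have h5 : ∫ x, ∑ j ∈ range k, ∑ i ∈ range j, (Psi W (a i) (a j) (Q j) l q x).re ∂σ =
        ∑ j ∈ range k, ∑ i ∈ range j, ∫ x, (Psi W (a i) (a j) (Q j) l q x).re ∂σ := by
      rw [integral_finsetSum _ (fun j _ => intg σ (continuous_finsetSum _ fun i _ => cP i j))]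
      refine sum_congr rfl fun j _ => ?_
      rw [integral_finsetSum _ (fun i _ => intg σ (cP i j))]
    rw [h5] at h4
    have h6 : (k : ℝ) ^ 2 * (η0 / (8 * k ^ 2)) = η0 / 8 := by field_simp
    have h7 : (k : ℝ) ^ 2 * ∫ x in Nonᶜ, (∑ j ∈ range k, gj (Q j) l q x) / k ∂σ ≤ η0 / 8 := by
      rw [← h6]
      exact mul_le_mul_of_nonneg_left h2 (by positivity)
    rw [← hη0] at h4
    linarith
  -- conclusion
  refine ⟨(η0 / 4) / (k ^ 2 * (3 * W * l) ^ 2), by positivity, ?_⟩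
  obtain ⟨q₁, hq₁⟩ := eventually_atTop.1 hmain
  filter_upwards [eventually_ge_atTop (W * l * (q₁ + 2))] with N hN
  have hWl : 0 < W * l := Nat.mul_pos hWpos (by omega)
  set q := N / (W * l) - 1 with hqdef
  have hqge : q₁ + 2 ≤ N / (W * l) := by
    rw [Nat.le_div_iff_mul_le hWl]
    linarith [hN, mul_comm (W * l) (q₁ + 2)]
  have hqq : N / (W * l) = q + 1 := by omega
  obtain ⟨hq, hsum⟩ := hq₁ q (by omega)
  have hNle : W * l * (q + 1) ≤ N := by
    rw [← hqq]
    exact Nat.mul_div_le N (W * l)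
  have hNlt : N < W * l * (q + 2) := by
    have := Nat.lt_mul_div_succ N hWl
    rw [hqq] at this
    exact this
  have hNpos : 0 < N := lt_of_lt_of_le (Nat.mul_pos hWl (by omega)) hNle
  set SN : ℝ := ∑ n ∈ Icc 1 N, ∑ m ∈ Icc 1 N, c (n ^ 2 + n) (m ^ 2) with hSN
  have hSN0 : 0 ≤ SN := sum_nonneg fun n _ => sum_nonneg fun m _ => hc0 _ _
  have hpair : ∀ j ∈ range k, ∀ i ∈ range j,
      (q : ℝ) ^ 2 * ∫ x, (Psi W (a i) (a j) (Q j) l q x).re ∂σ ≤ SN := by
    intro j hj i hi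
    have hj' := mem_range.1 hj
    have hi' := mem_range.1 hi
    obtain ⟨hlt, hdi, hdj⟩ := hab i j hi' hj'
    set D := a j - a i with hD
    have hDpos : 0 < D := by omega
    obtain ⟨ei, hei⟩ := hdi
    obtain ⟨ej, hej⟩ := hdj
    have hai0 := ha i (hi'.trans hj')
    have heipos : 0 < ei := by
      rcases Nat.eq_zero_or_pos ei with h | h
      · rw [h, mul_zero] at hei; omega
      · exact h
    have he : ej = ei + 1 := by
      have h2 : D * ej = D * (ei + 1) := by
        rw [← hej, mul_add, ← hei, mul_one]; omega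
      exact Nat.eq_of_mul_eq_mul_left hDpos h2
    have h3 := pair_sum hCHI σ c hc (l := l) hDpos hei hej he heipos (hW j hj') (hQ j) hq
    have hejQ : 0 < ej * Q j := Nat.mul_pos (by omega) (hQ j)
    have hejle : ej ≤ a j := by
      rw [hej]; exact Nat.le_mul_of_pos_left _ hDpos
    have h4 : ∑ t ∈ Ioc ((l - 1) * q) (l * q), ∑ r ∈ S2 (Q j) l q,
        c ((ej * Q j * t + ei) ^ 2 + (ej * Q j * t + ei)) ((ej * r) ^ 2) ≤ SN := by
      refine emb (fun n m => c (n ^ 2 + n) (m ^ 2)) (fun n m => hc0 _ _) N _ _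
        (fun t => ej * Q j * t + ei) (fun r => ej * r) ?_ ?_ ?_ ?_
      · intro t _ t' _ htt
        have h5 : ej * Q j * t + ei = ej * Q j * t' + ei := htt
        exact Nat.eq_of_mul_eq_mul_left hejQ (by omega)
      · intro r _ r' _ hrr
        have h5 : ej * r = ej * r' := hrr
        exact Nat.eq_of_mul_eq_mul_left (by omega : 0 < ej) h5
      · intro t ht
        rw [mem_Ioc] at ht
        rw [mem_Icc]
        refine ⟨by omega, ?_⟩
        have h5 : ej * Q j ≤ W := by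
          rw [hW j hj']; exact Nat.mul_le_mul_right _ hejle
        have h6 : ei ≤ W := by
          have : ei ≤ ej * Q j := le_trans (by omega) (Nat.le_mul_of_pos_right ej (hQ j))
          omega
        calc ej * Q j * t + ei ≤ W * (l * q) + W := Nat.add_le_add (Nat.mul_le_mul h5 ht.2) h6
          _ ≤ W * l * (q + 1) := by
            have : W ≤ W * l := Nat.le_mul_of_pos_right _ (by omega)
            nlinarith
          _ ≤ N := hNle
      · intro r hr
        rw [S2, mem_filter, mem_Ioc] at hr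
        rw [mem_Icc]
        have hr0 : 0 < r := by omega
        refine ⟨Nat.mul_pos (by omega) hr0, ?_⟩
        calc ej * r ≤ a j * (l * Q j * q) := Nat.mul_le_mul hejle hr.1.2
          _ = W * l * q := by rw [hW j hj']; ring
          _ ≤ W * l * (q + 1) := Nat.mul_le_mul_left _ (by omega)
          _ ≤ N := hNle
    rw [h3] at h4
    have hI : 0 ≤ ∫ x, (Psi W (a i) (a j) (Q j) l q x).re ∂σ := by
      have h5 : 0 ≤ (q * (q * Nat.totient (Q j)) : ℝ) *
          ∫ x, (Psi W (a i) (a j) (Q j) l q x).re ∂σ := by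
        rw [← h3]
        exact sum_nonneg fun t _ => sum_nonneg fun r _ => hc0 _ _
      have h6 : (0 : ℝ) < q * (q * Nat.totient (Q j)) := by
        have := Nat.totient_pos.2 (hQ j)
        positivity
      exact nonneg_of_mul_nonneg_right h5 h6
    refine le_trans ?_ h4
    refine mul_le_mul_of_nonneg_right ?_ hI
    have h7 : (1 : ℝ) ≤ Nat.totient (Q j) := by exact_mod_cast Nat.totient_pos.2 (hQ j)
    have h8 : (0 : ℝ) ≤ (q : ℝ) * q := by positivity
    nlinarith
  have h9 : (q : ℝ) ^ 2 * (η0 / 4) ≤ k ^ 2 * SN := by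
    calc (q : ℝ) ^ 2 * (η0 / 4) ≤ (q : ℝ) ^ 2 * ∑ j ∈ range k, ∑ i ∈ range j,
          ∫ x, (Psi W (a i) (a j) (Q j) l q x).re ∂σ :=
          mul_le_mul_of_nonneg_left hsum (by positivity)
      _ = ∑ j ∈ range k, ∑ i ∈ range j,
          (q : ℝ) ^ 2 * ∫ x, (Psi W (a i) (a j) (Q j) l q x).re ∂σ := by
          rw [mul_sum]
          exact sum_congr rfl fun j _ => by rw [mul_sum]
      _ ≤ ∑ j ∈ range k, ∑ _i ∈ range k, SN := by
          refine sum_le_sum fun j hj => ?_
          refine (sum_le_sum (hpair j hj)).trans ?_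
          refine sum_le_sum_of_subset_of_nonneg ?_ fun _ _ _ => hSN0
          intro i hi
          rw [mem_range] at *
          omega
      _ = k ^ 2 * SN := by
          rw [sum_const, sum_const, card_range, nsmul_eq_mul, nsmul_eq_mul]
          ring
  have hN3 : (N : ℝ) ≤ 3 * W * l * q := by
    have h10 : N ≤ 3 * W * l * q := by
      have : W * l * (q + 2) ≤ W * l * (3 * q) := Nat.mul_le_mul_left _ (by omega)
      calc N ≤ W * l * (q + 2) := hNlt.le
        _ ≤ W * l * (3 * q) := this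
        _ = 3 * W * l * q := by ring
    exact_mod_cast h10
  have hNr : (0 : ℝ) < N := by exact_mod_cast hNpos
  have hWr : (0 : ℝ) < W := by exact_mod_cast hWpos
  have hlr : (0 : ℝ) < l := by exact_mod_cast (by omega : 0 < l)
  rw [div_le_div_iff₀ (by positivity) (by positivity)]
  have h11 : (N : ℝ) ^ 2 ≤ (3 * W * l * q) ^ 2 := by
    exact pow_le_pow_left₀ hNr.le hN3 2
  calc η0 / 4 * (N : ℝ) ^ 2 ≤ η0 / 4 * (3 * W * l * q) ^ 2 :=
        mul_le_mul_of_nonneg_left h11 (by positivity)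
    _ = (3 * W * l) ^ 2 * ((q : ℝ) ^ 2 * (η0 / 4)) := by ring
    _ ≤ (3 * W * l) ^ 2 * (k ^ 2 * SN) := mul_le_mul_of_nonneg_left h9 (by positivity)
    _ = SN * (k ^ 2 * (3 * W * l) ^ 2) := by ring

end Pool.R872.QR
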