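import Pool.Agent.R872.QR.Stm

/-! # QR-DCT (helper799, for helper872) -/

open MeasureTheory Filter Topology
open scoped ENNReal NNReal

namespace Pool.R872.QR

theorem DCT : S_DCT := by
  intro σ _ g B hB hm hg hpt η hη
  obtain ⟨μ, hμ⟩ : ∃ μ, μ = σ.restrict B := ⟨_, rfl⟩
  have fμ : IsFiniteMeasure μ := by rw [hμ]; infer_instance
  let gE : ℕ → ℕ → ℕ → (ℕ → UnitAddCircle) → ℝ≥0∞ := fun y l q x => ENNReal.ofReal (g y l q x)
  have mE : ∀ y l q, Measurable (gE y l q) := fun y l q => (hm y l q).ennreal_ofReal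
  have bE : ∀ y l q x, gE y l q x ≤ 2 := by
    intro y l q x
    calc gE y l q x ≤ ENNReal.ofReal 2 := ENNReal.ofReal_le_ofReal (hg y l q x).2
      _ = 2 := by norm_num
  let G : ℕ → ℕ → (ℕ → UnitAddCircle) → ℝ≥0∞ := fun y l x => limsup (fun q => gE y l q x) atTop
  have mG : ∀ y l, Measurable (G y l) := fun y l => Measurable.limsup (mE y l)
  have bG : ∀ y l x, G y l x ≤ 2 := fun y l x =>
    limsup_le_of_le (h := Eventually.of_forall fun q => bE y l q x)
  let H : ℕ → (ℕ → UnitAddCircle) → ℝ≥0∞ := fun l x => limsup (fun y => G y l x) atTop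
  have mH : ∀ l, Measurable (H l) := fun l => Measurable.limsup (fun y => mG y l)
  have bH : ∀ l x, H l x ≤ 2 := fun l x =>
    limsup_le_of_le (h := Eventually.of_forall fun y => bG y l x)
  have fin2 : ∫⁻ _, (2 : ℝ≥0∞) ∂μ ≠ ∞ := by
    rw [lintegral_const]
    exact ENNReal.mul_ne_top (by norm_num) (measure_ne_top _ _)
  -- the pointwise limit
  have hlim : ∀ x ∈ B, Tendsto (fun l => H l x) atTop (𝓝 0) := by
    intro x hx
    obtain ⟨τ, hτ⟩ := hpt x hx
    have h1 : ∀ l, 2 ≤ l → H l x ≤ ENNReal.ofReal (3 * |τ| / ((l : ℝ) - 1)) := by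
      intro l hl
      have hl' : (0 : ℝ) < (l : ℝ) - 1 := by
        have : (2 : ℝ) ≤ l := by exact_mod_cast hl
        linarith
      apply ENNReal.le_of_forall_pos_le_add
      intro ε hε _
      obtain ⟨y₀, hy₀⟩ := hτ ε (by exact_mod_cast hε)
      refine limsup_le_of_le (h := ?_)
      filter_upwards [eventually_ge_atTop y₀] with y hy
      refine limsup_le_of_le (h := ?_)
      filter_upwards [hy₀ y hy l hl] with q hq
      calc gE y l q x ≤ ENNReal.ofReal ((ε : ℝ) + 3 * |τ| / ((l : ℝ) - 1)) :=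
            ENNReal.ofReal_le_ofReal hq
        _ = ENNReal.ofReal ε + ENNReal.ofReal (3 * |τ| / ((l : ℝ) - 1)) :=
            ENNReal.ofReal_add ε.2 (by positivity)
        _ = _ := by rw [ENNReal.ofReal_coe_nnreal, add_comm]
    have h2 : Tendsto (fun l : ℕ => ENNReal.ofReal (3 * |τ| / ((l : ℝ) - 1))) atTop (𝓝 0) := by
      have h3 : Tendsto (fun l : ℕ => (l : ℝ) - 1) atTop atTop :=
        tendsto_atTop_add_const_right atTop (-1 : ℝ) tendsto_natCast_atTop_atTop
      have h4 := ENNReal.tendsto_ofReal (h3.const_div_atTop (3 * |τ|))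
      rwa [ENNReal.ofReal_zero] at h4
    refine tendsto_of_tendsto_of_tendsto_of_le_of_le' tendsto_const_nhds h2
      (Eventually.of_forall fun l => bot_le) ?_
    filter_upwards [eventually_ge_atTop 2] with l hl
    exact h1 l hl
  have hI : Tendsto (fun l => ∫⁻ x, H l x ∂μ) atTop (𝓝 (∫⁻ _, 0 ∂μ)) := by
    refine tendsto_lintegral_of_dominated_convergence (fun _ => 2) mH
      (fun l => Eventually.of_forall fun x => bH l x) fin2 ?_
    rw [hμ]
    exact (ae_restrict_iff' hB).2 (Eventually.of_forall fun x hx => hlim x hx)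
  rw [lintegral_zero] at hI
  have hη' : 0 < ENNReal.ofReal η := ENNReal.ofReal_pos.2 hη
  obtain ⟨l, hl, hl2⟩ : ∃ l, ∫⁻ x, H l x ∂μ < ENNReal.ofReal η ∧ 2 ≤ l :=
    ((hI.eventually (gt_mem_nhds hη')).and (eventually_ge_atTop 2)).exists
  refine ⟨l, hl2, ?_⟩
  have k1 : limsup (fun y => ∫⁻ x, G y l x ∂μ) atTop ≤ ∫⁻ x, H l x ∂μ :=
    limsup_lintegral_le (fun _ => 2) (fun y => mG y l)
      (fun y => Eventually.of_forall fun x => bG y l x) fin2
  have k2 := eventually_lt_of_limsup_lt (lt_of_le_of_lt k1 hl)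
  obtain ⟨y₀, hy₀⟩ := eventually_atTop.1 k2
  refine ⟨y₀, fun y hy => ?_⟩
  have k3 : limsup (fun q => ∫⁻ x, gE y l q x ∂μ) atTop ≤ ∫⁻ x, G y l x ∂μ :=
    limsup_lintegral_le (fun _ => 2) (fun q => mE y l q)
      (fun q => Eventually.of_forall fun x => bE y l q x) fin2
  have k4 := eventually_lt_of_limsup_lt (lt_of_le_of_lt k3 (hy₀ y hy))
  filter_upwards [k4] with q hq
  rw [← hμ, integral_eq_lintegral_of_nonneg_ae (Eventually.of_forall fun x => (hg y l q x).1)
    (hm y l q).aestronglyMeasurable]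
  have := ENNReal.toReal_mono ENNReal.ofReal_ne_top hq.le
  rwa [ENNReal.toReal_ofReal hη.le] at this

end Pool.R872.QR
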