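import Mathlib

open MeasureTheory Filter Topology
open scoped ComplexConjugate

namespace Pool.R872.QR

/-- completely multiplicative functions with values in the unit circle (value `0` at `0`) -/
structure UCM (F : ℕ → ℂ) : Prop where
  zero : F 0 = 0
  one : F 1 = 1
  mul : ∀ m n, F (m * n) = F m * F n
  norm : ∀ n, n ≠ 0 → ‖F n‖ = 1

/-- the completely multiplicative function with the values `exp (2 π i x_p)` at the primes `p` -/
noncomputable def chi (x : ℕ → UnitAddCircle) (n : ℕ) : ℂ :=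
  if n = 0 then 0 else n.factorization.prod fun p k => ((AddCircle.toCircle (x p) : Circle) : ℂ) ^ k

/-- the deficit at the prime `p` -/
noncomputable def dd (F : ℕ → ℂ) (τ : ℝ) (p : ℕ) : ℝ :=
  (1 - (F p * (p : ℂ) ^ (-(τ * Complex.I))).re) / p

/-- `F` pretends to be `n^{iτ}` -/
def Pret (F : ℕ → ℂ) (τ : ℝ) : Prop := Summable (fun p : Nat.Primes => dd F τ p)

/-- the residues `r` in the interval `((l-1) Q q, l Q q]` coprime to `Q` -/
def S2 (Q l q : ℕ) : Finset ℕ :=
  (Finset.Ioc ((l - 1) * Q * q) (l * Q * q)).filter (fun r => Nat.Coprime r Q)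

/-- the prime factors of `Q` are the primes up to `y` -/
def Full (y Q : ℕ) : Prop := 0 < Q ∧ ∀ p, p.Prime → (p ∣ Q ↔ p ≤ y)

/-- `S` (inside `[1, R]`) has about `X / d` multiples of `d`, for `d` a prime `> y`, the square of
a prime `> y`, or a product of two distinct primes `> y` -/
def Equi (S : Finset ℕ) (R y : ℕ) (X C : ℝ) : Prop :=
  (∀ u ∈ S, 1 ≤ u ∧ u ≤ R ∧ ∀ p, p.Prime → p ∣ u → y < p) ∧
  (|(S.card : ℝ) - X| ≤ C) ∧
  (∀ p, p.Prime → y < p → |((S.filter (fun u => p ∣ u)).card : ℝ) - X / p| ≤ C) ∧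
  (∀ p, p.Prime → y < p → |((S.filter (fun u => p ^ 2 ∣ u)).card : ℝ) - X / (p : ℝ) ^ 2| ≤ C) ∧
  (∀ p p', p.Prime → p'.Prime → y < p → y < p' → p ≠ p' →
    |((S.filter (fun u => p * p' ∣ u)).card : ℝ) - X / (p * p')| ≤ C)

end Pool.R872.QR
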