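import Pool.Agent.R872.QR.Core4

open MeasureTheory Filter Topology Finset
open scoped ComplexConjugate

namespace Pool.R872.QR

theorem fin (hHB : S_HB) (hCHI : S_CHI) (hSPEC : S_SPEC) (hPD : S_PD) (hC2 : S_CNT2)
    (hPAIR : S_PAIR) (hNPR : S_NPR) (hDCT : S_DCT)
    (X : Type) [MeasurableSpace X] (μ : Measure X) [IsProbabilityMeasure μ] (T : ℕ → X → X)
    (hT : ∀ n, 0 < n → MeasurePreserving (T n) μ μ) (hT1 : ∀ x, T 1 x = x)
    (hmul : ∀ m n, 0 < m → 0 < n → ∀ x, T (n * m) x = T n (T m x))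
    (A : Set X) (hA : MeasurableSet A) (hpos : 0 < μ A) :
    0 < liminf (fun N : ℕ => (∑ n ∈ Icc 1 N, ∑ m ∈ Icc 1 N,
      μ.real ((T (n ^ 2 + n)) ⁻¹' A ∩ (T (m ^ 2)) ⁻¹' A)) / (N : ℝ) ^ 2) atTop := by
  set α := μ.real A with hαdef
  have hα : 0 < α := ENNReal.toReal_pos hpos.ne' (measure_ne_top μ A)
  set c : ℕ → ℕ → ℝ := fun u v => μ.real ((T u) ⁻¹' A ∩ (T v) ⁻¹' A) with hcdef
  obtain ⟨hPD1, hPD2⟩ := hPD X μ T hT hmul A hA
  obtain ⟨σ', hfin, hσ'⟩ := hSPEC (fun u v => c u v - α ^ 2)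
    (fun k u v hk hu hv => by
      show c (k * u) (k * v) - α ^ 2 = c u v - α ^ 2
      rw [hcdef]
      show μ.real _ - _ = μ.real _ - _
      rw [hPD1 k u v hk hu hv])
    (fun u v => by
      show c u v - α ^ 2 = c v u - α ^ 2
      rw [hcdef]
      show μ.real _ - _ = μ.real _ - _
      rw [Set.inter_comm])
    (fun s z hs => hPD2 s z hs)
  set σ : Measure (ℕ → UnitAddCircle) := σ' + ENNReal.ofReal (α ^ 2) • Measure.dirac 0 with hσ
  have : IsFiniteMeasure (ENNReal.ofReal (α ^ 2) • Measure.dirac (0 : ℕ → UnitAddCircle)) :=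
    Measure.smul_finite _ ENNReal.ofReal_ne_top
  have hcont : ∀ u v, Continuous (fun x => chi x u * conj (chi x v)) := fun u v =>
    (chi_cont hCHI u).mul (Complex.continuous_conj.comp (chi_cont hCHI v))
  have hint : ∀ u v (ρ : Measure (ℕ → UnitAddCircle)) [IsFiniteMeasure ρ],
      Integrable (fun x => chi x u * conj (chi x v)) ρ := fun u v ρ _ =>
    (hcont u v).integrable_of_hasCompactSupport (HasCompactSupport.of_compactSpace _)
  have hc : ∀ u v, 0 < u → 0 < v → ∫ x, chi x u * conj (chi x v) ∂σ = (c u v : ℂ) := by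
    intro u v hu hv
    rw [hσ, integral_add_measure (hint u v _) (hint u v _), hσ' u v hu hv, integral_smul_measure,
      integral_dirac, hCHI.2.2, hCHI.2.2, if_neg hu.ne', if_neg hv.ne',
      ENNReal.toReal_ofReal (sq_nonneg α)]
    simp
  have h0 : α ^ 2 ≤ σ.real {0} := by
    have h1 : ENNReal.ofReal (α ^ 2) ≤ σ {0} := by
      rw [hσ, Measure.add_apply, Measure.smul_apply, Measure.dirac_apply_of_mem (by simp)]
      simp
    have h2 := ENNReal.toReal_mono (measure_ne_top σ {0}) h1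
    rwa [ENNReal.toReal_ofReal (sq_nonneg α)] at h2
  have h1 : σ.real Set.univ = α := by
    have h2 := hc 1 1 one_pos one_pos
    have h3 : ∀ x, chi x 1 * conj (chi x 1) = 1 := fun x => ucm_mul_conj (hCHI.1 x) one_ne_zero
    simp only [h3] at h2
    rw [integral_const] at h2
    have h4 : c 1 1 = α := by
      rw [hcdef]
      show μ.real ((T 1) ⁻¹' A ∩ (T 1) ⁻¹' A) = α
      rw [Set.inter_self]
      have : (T 1) ⁻¹' A = A := by
        ext x
        rw [Set.mem_preimage, hT1]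
      rw [this]
    rw [h4] at h2
    have h5 : ((σ.real Set.univ : ℝ) : ℂ) = (α : ℂ) := by simpa using h2
    exact_mod_cast h5
  obtain ⟨κ, hκ, hev⟩ := core hHB hCHI hC2 hPAIR hNPR hDCT σ c α hα hc
    (fun u v => measureReal_nonneg) h0 h1
  refine lt_of_lt_of_le hκ (le_liminf_of_le ?_ hev)
  refine IsBoundedUnder.isCoboundedUnder_ge ⟨1, ?_⟩
  rw [eventually_map]
  refine Eventually.of_forall fun N => ?_
  have h2 : ∑ n ∈ Icc 1 N, ∑ m ∈ Icc 1 N,
      μ.real ((T (n ^ 2 + n)) ⁻¹' A ∩ (T (m ^ 2)) ⁻¹' A) ≤ (N : ℝ) ^ 2 := by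
    refine (sum_le_sum fun n _ => sum_le_sum fun m _ => (measureReal_le_one :
      μ.real ((T (n ^ 2 + n)) ⁻¹' A ∩ (T (m ^ 2)) ⁻¹' A) ≤ 1)).trans (le_of_eq ?_)
    simp only [sum_const, Nat.card_Icc, Nat.add_sub_cancel, nsmul_eq_mul, mul_one]
    ring
  exact div_le_one_of_le₀ h2 (by positivity)

end Pool.R872.QR
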