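import Pool.Agent.R872.QR.Stm

namespace Pool.R872.QR

theorem t_HB : S_HB := by
  intro k
  induction k with
  | zero => exact ⟨fun _ => 1, fun i hi => by omega, fun i j _ hj => by omega⟩
  | succ k ih =>
    obtain ⟨a, ha, hd⟩ := ih
    set P : ℕ := (∏ i ∈ Finset.range k, a i) *
      ∏ i ∈ Finset.range k, ∏ j ∈ Finset.range k, (if i < j then a j - a i else 1) with hP
    have hpos : 0 < P := by
      rw [hP]
      refine Nat.mul_pos (Finset.prod_pos fun i hi => ha i (Finset.mem_range.mp hi))
        (Finset.prod_pos fun i hi => Finset.prod_pos fun j hj => ?_)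
      split_ifs with h
      · have := (hd i j h (Finset.mem_range.mp hj)).1
        omega
      · exact one_pos
    have d1 : ∀ i, i < k → a i ∣ P := fun i hi =>
      (Finset.dvd_prod_of_mem a (Finset.mem_range.mpr hi)).mul_right _
    have d2 : ∀ i j, i < j → j < k → (a j - a i) ∣ P := by
      intro i j hij hj
      have h1 : (a j - a i) ∣ ∏ j' ∈ Finset.range k, (if i < j' then a j' - a i else 1) := by
        have := Finset.dvd_prod_of_mem (fun j' => if i < j' then a j' - a i else 1)
          (Finset.mem_range.mpr hj)
        simpa [hij] using this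
      have h2 : (∏ j' ∈ Finset.range k, (if i < j' then a j' - a i else 1)) ∣
          ∏ i ∈ Finset.range k, ∏ j ∈ Finset.range k, (if i < j then a j - a i else 1) :=
        Finset.dvd_prod_of_mem (fun i => ∏ j ∈ Finset.range k, (if i < j then a j - a i else 1))
          (Finset.mem_range.mpr (hij.trans hj))
      exact (h1.trans h2).mul_left _
    refine ⟨fun n => if n = 0 then P else P + a (n - 1), ?_, ?_⟩
    · intro i _
      by_cases h : i = 0
      · simp [h, hpos]
      · simp only [h, if_false]
        omega
    · intro i j hij hj
      have hj0 : j ≠ 0 := by omega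
      by_cases h : i = 0
      · simp only [h, hj0, if_true, if_false]
        have h1 := ha (j - 1) (by omega)
        have h2 := d1 (j - 1) (by omega)
        have h3 : P + a (j - 1) - P = a (j - 1) := by omega
        rw [h3]
        exact ⟨by omega, h2, dvd_add h2 (dvd_refl _)⟩
      · simp only [h, hj0, if_false]
        obtain ⟨h1, h2, h3⟩ := hd (i - 1) (j - 1) (by omega) (by omega)
        have h4 := d2 (i - 1) (j - 1) (by omega) (by omega)
        have h5 : P + a (j - 1) - (P + a (i - 1)) = a (j - 1) - a (i - 1) := by omega
        rw [h5]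
        exact ⟨by omega, dvd_add h4 h2, dvd_add h4 h3⟩

end Pool.R872.QR
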