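import Pool.Agent.R872.QR.Stm
import Pool.Agent.Erdos456.Mertens

open MeasureTheory Filter Topology
open scoped ComplexConjugate

namespace Pool.R872.QR

theorem MER_one : ∃ K : ℝ, ∀ z : ℕ, 1 ≤ z →
    ∑ p ∈ (Finset.Ioc z ((z + 1) ^ 4)).filter Nat.Prime, (1 : ℝ) / p ≤ K := by
  obtain ⟨C, hC⟩ := Pool.Agent.Erdos456.Mert.mertens_inv
  have hC0 : 0 ≤ C := (abs_nonneg _).trans (hC 3 le_rfl)
  have hB0 : 0 ≤ ∑ p ∈ (Finset.Icc 1 256).filter Nat.Prime, (1 : ℝ) / ((p : ℕ) : ℝ) :=
    Finset.sum_nonneg fun p _ => by positivity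
  have hl8 : 0 ≤ Real.log 8 := Real.log_nonneg (by norm_num)
  refine ⟨Real.log 8 + 2 * C + ∑ p ∈ (Finset.Icc 1 256).filter Nat.Prime, (1 : ℝ) / ((p : ℕ) : ℝ),
    fun z hz => ?_⟩
  by_cases h3 : 3 ≤ z
  · set M := (z + 1) ^ 4 with hM
    have hzM : z ≤ M := by
      rw [hM]
      calc z ≤ (z + 1) ^ 1 := by rw [pow_one]; omega
        _ ≤ (z + 1) ^ 4 := Nat.pow_le_pow_right (by omega) (by norm_num)
    have h1 := hC M (h3.trans hzM)
    have h2 := hC z h3
    have hsplit : (Finset.Icc 1 M).filter Nat.Prime =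
        (Finset.Icc 1 z).filter Nat.Prime ∪ (Finset.Ioc z M).filter Nat.Prime := by
      ext p
      simp only [Finset.mem_filter, Finset.mem_Icc, Finset.mem_Ioc, Finset.mem_union]
      constructor
      · rintro ⟨⟨h4, h5⟩, h6⟩
        by_cases h7 : p ≤ z
        · exact Or.inl ⟨⟨h4, h7⟩, h6⟩
        · exact Or.inr ⟨⟨by omega, h5⟩, h6⟩
      · rintro (⟨⟨h4, h5⟩, h6⟩ | ⟨⟨h4, h5⟩, h6⟩)
        · exact ⟨⟨h4, by omega⟩, h6⟩
        · exact ⟨⟨by omega, h5⟩, h6⟩
    have hdis : Disjoint ((Finset.Icc 1 z).filter Nat.Prime) ((Finset.Ioc z M).filter Nat.Prime) := by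
      rw [Finset.disjoint_left]
      intro p hp hp2
      simp only [Finset.mem_filter, Finset.mem_Icc, Finset.mem_Ioc] at hp hp2
      omega
    rw [hsplit, Finset.sum_union hdis] at h1
    have hz0 : (3 : ℝ) ≤ z := by exact_mod_cast h3
    have hlz : 0 < Real.log z := Real.log_pos (by linarith)
    have hlog : Real.log (Real.log (M : ℕ)) ≤ Real.log 8 + Real.log (Real.log z) := by
      rw [← Real.log_mul (by norm_num) (ne_of_gt hlz)]
      apply Real.log_le_log
      · apply Real.log_pos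
        have : (1 : ℝ) < z := by linarith
        have h9 : (z : ℝ) ≤ (M : ℕ) := by exact_mod_cast hzM
        linarith
      · rw [hM]
        push_cast
        rw [Real.log_pow]
        have h8 : Real.log ((z : ℝ) + 1) ≤ Real.log ((z : ℝ) ^ 2) := by
          apply Real.log_le_log (by linarith)
          nlinarith
        rw [Real.log_pow] at h8
        push_cast at h8 ⊢
        linarith
    have h10 := (abs_le.1 h1).2
    have h11 := (abs_le.1 h2).1
    linarith
  · have hsub : (Finset.Ioc z ((z + 1) ^ 4)).filter Nat.Prime ⊆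
        (Finset.Icc 1 256).filter Nat.Prime := by
      intro p hp
      simp only [Finset.mem_filter, Finset.mem_Icc, Finset.mem_Ioc] at hp ⊢
      refine ⟨⟨by omega, ?_⟩, hp.2⟩
      refine hp.1.2.trans ?_
      calc (z + 1) ^ 4 ≤ 4 ^ 4 := Nat.pow_le_pow_left (by omega) 4
        _ = 256 := by norm_num
    have h1 := Finset.sum_le_sum_of_subset_of_nonneg hsub
      (f := fun p : ℕ => (1 : ℝ) / (p : ℝ)) (fun p _ _ => by positivity)
    linarith

theorem MER_two : Tendsto (fun R : ℕ => (((Finset.Icc 1 R).filter Nat.Prime).card : ℝ) / R)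
    atTop (𝓝 0) := by
  have h1 := (Chebyshev.eventually_primeCounting_le (ε := 1) one_pos)
  have h2 : ∀ᶠ R : ℕ in atTop, (Nat.primeCounting ⌊(R : ℝ)⌋₊ : ℝ) ≤
      (Real.log 4 + 1) * (R : ℝ) / Real.log (R : ℝ) := tendsto_natCast_atTop_atTop.eventually h1
  have h3 : Tendsto (fun R : ℕ => (Real.log 4 + 1) / Real.log (R : ℝ)) atTop (𝓝 0) :=
    tendsto_const_nhds.div_atTop (Real.tendsto_log_atTop.comp tendsto_natCast_atTop_atTop)
  refine squeeze_zero' (Eventually.of_forall fun R => by positivity) ?_ h3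
  filter_upwards [h2, eventually_ge_atTop 1] with R hR hR1
  have hR0 : (0 : ℝ) < R := by exact_mod_cast hR1
  have hc : ((Finset.Icc 1 R).filter Nat.Prime).card ≤ Nat.primeCounting R := by
    rw [Nat.primeCounting, Nat.primeCounting', Nat.count_eq_card_filter_range]
    apply Finset.card_le_card
    intro p hp
    simp only [Finset.mem_filter, Finset.mem_Icc, Finset.mem_range] at hp ⊢
    exact ⟨by omega, hp.2⟩
  rw [Nat.floor_natCast] at hR
  have hc2 : (((Finset.Icc 1 R).filter Nat.Prime).card : ℝ) ≤ (Nat.primeCounting R : ℝ) := by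
    exact_mod_cast hc
  rw [div_le_iff₀ hR0]
  calc (((Finset.Icc 1 R).filter Nat.Prime).card : ℝ) ≤ (Nat.primeCounting R : ℝ) := hc2
    _ ≤ (Real.log 4 + 1) * (R : ℝ) / Real.log (R : ℝ) := hR
    _ = (Real.log 4 + 1) / Real.log (R : ℝ) * R := by ring

theorem MER : S_MER := ⟨MER_one, MER_two⟩

end Pool.R872.QR
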