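import Pool.Agent.R872.QR.Stm
import Pool.Agent.Y868.VR.H4

set_option autoImplicit false

open MeasureTheory Filter Topology
open scoped ComplexConjugate

namespace Pool.R872.QR

namespace NPRp

open Pool.Agent.Y868.VR (gg NP MB mz)

/-- `F` restricted to the numbers coprime to `Q` -/
noncomputable def bb (F : ℕ → ℂ) (Q : ℕ) (h0 : F 0 = 0) : ArithmeticFunction ℂ :=
  ⟨fun n => if Nat.Coprime n Q then F n else 0, by simp [h0]⟩

theorem bb_apply (F : ℕ → ℂ) (Q : ℕ) (h0 : F 0 = 0) (n : ℕ) :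
    bb F Q h0 n = if Nat.Coprime n Q then F n else 0 := rfl

theorem bb_MB {F : ℕ → ℂ} (hF : UCM F) (Q : ℕ) : MB (bb F Q hF.zero) := by
  refine ⟨⟨?_, ?_⟩, ?_⟩
  · rw [bb_apply, if_pos (Nat.coprime_one_left Q), hF.one]
  · intro m n _
    rw [bb_apply, bb_apply, bb_apply, hF.mul]
    by_cases hm : Nat.Coprime m Q
    · by_cases hn : Nat.Coprime n Q
      · rw [if_pos (Nat.Coprime.mul_left hm hn), if_pos hm, if_pos hn]
      · rw [if_neg (fun h => hn (Nat.Coprime.coprime_mul_left h)), if_neg hn, mul_zero]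
    · rw [if_neg (fun h => hm (Nat.Coprime.coprime_mul_right h)), if_neg hm, zero_mul]
  · intro n
    rw [bb_apply]
    split_ifs with h
    · rcases Nat.eq_zero_or_pos n with rfl | hn
      · rw [hF.zero]; simp
      · exact (hF.norm n hn.ne').le
    · simp

theorem bb_NP {F : ℕ → ℂ} (hF : UCM F) (hP : ∀ τ : ℝ, ¬ Pret F τ) {Q : ℕ} (hQ : 0 < Q) :
    NP (bb F Q hF.zero) := by
  intro y hs
  apply hP y
  unfold Pret
  refine (summable_congr_cofinite ?_).1 hs
  have hfin : {p : Nat.Primes | (p : ℕ) ∣ Q}.Finite := by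
    refine Set.Finite.of_finite_image (f := fun p : Nat.Primes => (p : ℕ)) ?_
      (fun a _ b _ h => Subtype.ext h)
    exact (Set.finite_le_nat Q).subset (by
      rintro _ ⟨p, hp, rfl⟩
      exact Nat.le_of_dvd hQ hp)
  have h1 : ∀ᶠ p : Nat.Primes in cofinite, ¬ (p : ℕ) ∣ Q := hfin.eventually_cofinite_notMem
  filter_upwards [h1] with p hp
  have hcop : Nat.Coprime (p : ℕ) Q := (Nat.Prime.coprime_iff_not_dvd p.2).2 hp
  unfold gg dd
  rw [bb_apply, if_pos hcop, add_zero, Real.rpow_neg_one, div_eq_inv_mul]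

theorem sum_eq {F : ℕ → ℂ} (h0 : F 0 = 0) (Q l q : ℕ) :
    ∑ r ∈ S2 Q l q, F r = ∑ n ∈ Finset.Ioc 0 (l * Q * q), bb F Q h0 n -
      ∑ n ∈ Finset.Ioc 0 ((l - 1) * Q * q), bb F Q h0 n := by
  have hle : (l - 1) * Q * q ≤ l * Q * q :=
    Nat.mul_le_mul_right _ (Nat.mul_le_mul_right _ (Nat.sub_le _ _))
  have h1 : ∑ n ∈ Finset.Ioc 0 (l * Q * q), bb F Q h0 n =
      ∑ n ∈ Finset.Ioc 0 ((l - 1) * Q * q), bb F Q h0 n +
      ∑ n ∈ Finset.Ioc ((l - 1) * Q * q) (l * Q * q), bb F Q h0 n :=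
    (Finset.sum_Ioc_consecutive _ (Nat.zero_le _) hle).symm
  rw [h1, add_sub_cancel_left, S2, Finset.sum_filter]
  rfl

end NPRp

open NPRp

theorem NPR : S_NPR := by
  intro F hF hP Q l hQ hl
  have h := Pool.Agent.Y868.VR.mz (bb_MB hF Q) (bb_NP hF hP hQ)
  set A : ℕ → ℂ := fun N => (∑ n ∈ Finset.Ioc 0 N, bb F Q hF.zero n) / (N : ℂ) with hA
  have hsum : ∀ N : ℕ, ∑ n ∈ Finset.Ioc 0 N, bb F Q hF.zero n = A N * N := by
    intro N
    rcases Nat.eq_zero_or_pos N with rfl | hN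
    · simp
    · have : (N : ℂ) ≠ 0 := by exact_mod_cast hN.ne'
      rw [hA]
      field_simp
  have hφ : (Nat.totient Q : ℂ) ≠ 0 := by
    exact_mod_cast (Nat.totient_pos.2 hQ).ne'
  have t1 : Tendsto (fun q : ℕ => l * Q * q) atTop atTop :=
    Filter.tendsto_id.const_mul_atTop' (by positivity)
  have t2 : Tendsto (fun q : ℕ => (l - 1) * Q * q) atTop atTop :=
    Filter.tendsto_id.const_mul_atTop' (Nat.mul_pos (by omega) hQ)
  have u1 : Tendsto (fun q : ℕ => A (l * Q * q) * ((l * Q : ℕ) / (Nat.totient Q : ℂ))) atTop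
      (𝓝 0) := by
    simpa using (h.comp t1).mul_const ((l * Q : ℕ) / (Nat.totient Q : ℂ))
  have u2 : Tendsto (fun q : ℕ => A ((l - 1) * Q * q) *
      (((l - 1) * Q : ℕ) / (Nat.totient Q : ℂ))) atTop (𝓝 0) := by
    simpa using (h.comp t2).mul_const (((l - 1) * Q : ℕ) / (Nat.totient Q : ℂ))
  have u3 := u1.sub u2
  rw [sub_zero] at u3
  refine u3.congr' ?_
  filter_upwards [eventually_gt_atTop 0] with q hq
  have hq' : (q : ℂ) ≠ 0 := by exact_mod_cast hq.ne'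
  rw [sum_eq hF.zero, hsum, hsum]
  push_cast
  field_simp

end Pool.R872.QR
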