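import Pool.Agent.R872.QR.Stm

/-! MP_a0085b_an: orthogonality of the characters of the infinite torus. -/

set_option autoImplicit false

open MeasureTheory Filter Topology
open scoped ComplexConjugate

namespace Pool.R872.QR

namespace OrthAux

/-- the value of `chi` as a product over a finite set of coordinates -/
lemma chi_eq (x : ℕ → UnitAddCircle) {n : ℕ} (hn : 0 < n) (s : Finset ℕ)
    (hs : n.factorization.support ⊆ s) :
    chi x n = ∏ p ∈ s, ((AddCircle.toCircle (x p) : Circle) : ℂ) ^ n.factorization p := by
  rw [chi, if_neg hn.ne', Finsupp.prod]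
  apply Finset.prod_subset hs
  intro p _ hp
  rw [Finsupp.notMem_support_iff.1 hp, pow_zero]

/-- translation of one coordinate -/
lemma chi_add (x : ℕ → UnitAddCircle) {n : ℕ} (hn : 0 < n) (p : ℕ) (t : UnitAddCircle) :
    chi (Pi.single p t + x) n =
      ((AddCircle.toCircle t : Circle) : ℂ) ^ n.factorization p * chi x n := by
  classical
  rw [chi_eq _ hn (insert p n.factorization.support) (Finset.subset_insert _ _),
    chi_eq _ hn (insert p n.factorization.support) (Finset.subset_insert _ _),
    ← Finset.mul_prod_erase _ _ (Finset.mem_insert_self _ _),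
    ← Finset.mul_prod_erase (insert p n.factorization.support)
      (fun q => ((AddCircle.toCircle (x q) : Circle) : ℂ) ^ n.factorization q)
      (Finset.mem_insert_self _ _), ← mul_assoc]
  congr 1
  · rw [Pi.add_apply, Pi.single_eq_same, AddCircle.toCircle_add, Circle.coe_mul, mul_pow]
  · apply Finset.prod_congr rfl
    intro q hq
    rw [Pi.add_apply, Pi.single_eq_of_ne (Finset.ne_of_mem_erase hq), zero_add]

end OrthAux

open OrthAux in
theorem ORTH (hCHI : S_CHI) : ∃ m : Measure (ℕ → UnitAddCircle), IsProbabilityMeasure m ∧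
    ∀ u v : ℕ, 0 < u → 0 < v → u ≠ v → ∫ x, chi x u * conj (chi x v) ∂m = 0 := by
  classical
  set m : Measure (ℕ → UnitAddCircle) :=
    Measure.addHaarMeasure (⊤ : TopologicalSpace.PositiveCompacts (ℕ → UnitAddCircle)) with hm
  refine ⟨m, ⟨?_⟩, ?_⟩
  · have h := Measure.addHaarMeasure_self
      (K₀ := (⊤ : TopologicalSpace.PositiveCompacts (ℕ → UnitAddCircle)))
    simpa using h
  · intro u v hu hv huv
    obtain ⟨p, hp⟩ : ∃ p, u.factorization p ≠ v.factorization p := by
      by_contra hcon
      push Not at hcon
      exact huv (Nat.eq_of_factorization_eq hu.ne' hv.ne' hcon)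
    set a := u.factorization p with ha
    set b := v.factorization p with hb
    -- a point `t` whose character value has `w ^ a * conj w ^ b ≠ 1`
    obtain ⟨t, ht⟩ : ∃ t : UnitAddCircle,
        ((AddCircle.toCircle t : Circle) : ℂ) ^ a * conj (((AddCircle.toCircle t : Circle) : ℂ) ^ b)
          ≠ 1 := by
      set d : ℤ := (a : ℤ) - b with hd
      have hd0 : d ≠ 0 := by
        rw [hd]
        intro h
        exact hp (by omega)
      refine ⟨((1 / (2 * (d : ℝ)) : ℝ) : UnitAddCircle), ?_⟩
      have hd' : (d : ℂ) ≠ 0 := by exact_mod_cast hd0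
      have e1 : ((AddCircle.toCircle ((1 / (2 * (d : ℝ)) : ℝ) : UnitAddCircle) : Circle) : ℂ) =
          Complex.exp (Real.pi / d * Complex.I) := by
        rw [AddCircle.toCircle_apply_mk, Circle.coe_exp]
        congr 1
        push_cast
        field_simp
      rw [e1, map_pow, ← Complex.exp_conj, ← Complex.exp_nat_mul, ← Complex.exp_nat_mul,
        ← Complex.exp_add]
      have e2 : (a : ℂ) * (Real.pi / d * Complex.I) +
          (b : ℂ) * conj (Real.pi / d * Complex.I : ℂ) = Real.pi * Complex.I := by
        have e3 : conj (Real.pi / d * Complex.I : ℂ) = -(Real.pi / d * Complex.I) := by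
          rw [map_mul, map_div₀, Complex.conj_ofReal, Complex.conj_I]
          have : conj (d : ℂ) = d := by
            rw [show (d : ℂ) = ((d : ℝ) : ℂ) by push_cast; rfl, Complex.conj_ofReal]
          rw [this]
          ring
        rw [e3]
        have e4 : (d : ℂ) = (a : ℂ) - b := by
          rw [hd]
          push_cast
          rfl
        have e5 : (a : ℂ) * (Real.pi / d * Complex.I) + (b : ℂ) * -(Real.pi / d * Complex.I) =
            ((a : ℂ) - b) / d * (Real.pi * Complex.I) := by ring
        rw [e5, ← e4, div_self hd', one_mul]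
      rw [e2, Complex.exp_pi_mul_I]
      norm_num
    have h1 : ∫ x, chi x u * conj (chi x v) ∂m =
        (((AddCircle.toCircle t : Circle) : ℂ) ^ a *
          conj (((AddCircle.toCircle t : Circle) : ℂ) ^ b)) *
          ∫ x, chi x u * conj (chi x v) ∂m := by
      rw [← integral_const_mul]
      rw [← integral_add_left_eq_self (fun x => chi x u * conj (chi x v)) (Pi.single p t)]
      congr 1
      funext x
      rw [chi_add x hu, chi_add x hv, map_mul]
      ring
    have h2 : (1 - ((AddCircle.toCircle t : Circle) : ℂ) ^ a *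
          conj (((AddCircle.toCircle t : Circle) : ℂ) ^ b)) *
          ∫ x, chi x u * conj (chi x v) ∂m = 0 := by
      rw [sub_mul, one_mul, ← h1, sub_self]
    rcases mul_eq_zero.1 h2 with h3 | h3
    · exact absurd (sub_eq_zero.1 h3).symm ht
    · exact h3

end Pool.R872.QR
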