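import Pool.Agent.R872.QR.Stm

/-! # QR-PAIR: comparison of the two families (helper466) -/

open MeasureTheory Filter Topology
open scoped ComplexConjugate

namespace Pool.R872.QR

namespace PAIRaux

theorem equi_mono {S : Finset ℕ} {R y : ℕ} {X C C' : ℝ} (h : Equi S R y X C) (hC : C ≤ C') :
    Equi S R y X C' := by
  obtain ⟨h1, h2, h3, h4, h5⟩ := h
  exact ⟨h1, h2.trans hC, fun p hp hy => (h3 p hp hy).trans hC,
    fun p hp hy => (h4 p hp hy).trans hC,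
    fun p p' hp hp' hy hy' hne => (h5 p p' hp hp' hy hy' hne).trans hC⟩

theorem cpow_eq {u : ℕ} (hu : u ≠ 0) (τ : ℝ) :
    (u : ℂ) ^ (-(τ * Complex.I)) = Complex.exp (Complex.I * ((-(τ * Real.log u) : ℝ) : ℂ)) := by
  rw [Complex.cpow_def_of_ne_zero (by exact_mod_cast hu)]
  congr 1
  have : Complex.log (u : ℂ) = ((Real.log u : ℝ) : ℂ) := by
    rw [Complex.ofReal_log (Nat.cast_nonneg u)]
    simp
  rw [this]
  push_cast
  ring

theorem norm_exp_I (x : ℝ) : ‖Complex.exp (Complex.I * (x : ℂ))‖ = 1 := by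
  rw [mul_comm]
  exact Complex.norm_exp_ofReal_mul_I x

theorem exp_sub_le (x y : ℝ) :
    ‖Complex.exp (Complex.I * (x : ℂ)) - Complex.exp (Complex.I * (y : ℂ))‖ ≤ |x - y| := by
  have e : Complex.exp (Complex.I * (x : ℂ)) - Complex.exp (Complex.I * (y : ℂ)) =
      Complex.exp (Complex.I * (y : ℂ)) * (Complex.exp (Complex.I * ((x - y : ℝ) : ℂ)) - 1) := by
    rw [mul_sub, ← Complex.exp_add, mul_one]
    congr 2
    push_cast
    ring
  rw [e, norm_mul, norm_exp_I, one_mul]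
  exact Real.norm_exp_I_mul_ofReal_sub_one_le

/-- pointwise comparison -/
theorem comp {F : ℕ → ℂ} {τ : ℝ} {Z : ℂ} (hZ : ‖Z‖ = 1) {u v : ℕ} (hu : u ≠ 0) (hv : v ≠ 0) :
    ‖F u - F v‖ ≤ ‖F u * (u : ℂ) ^ (-(τ * Complex.I)) - Z‖ +
      ‖F v * (v : ℂ) ^ (-(τ * Complex.I)) - Z‖ + |τ| * |Real.log u - Real.log v| := by
  rw [cpow_eq hu, cpow_eq hv]
  have inv : ∀ x : ℝ, Complex.exp (Complex.I * (x : ℂ)) * Complex.exp (Complex.I * ((-x : ℝ) : ℂ)) = 1 := by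
    intro x
    rw [← Complex.exp_add]
    have : Complex.I * (x : ℂ) + Complex.I * ((-x : ℝ) : ℂ) = 0 := by push_cast; ring
    rw [this, Complex.exp_zero]
  obtain ⟨a, ha⟩ : ∃ a : ℝ, a = -(τ * Real.log u) := ⟨_, rfl⟩
  obtain ⟨b, hb⟩ : ∃ b : ℝ, b = -(τ * Real.log v) := ⟨_, rfl⟩
  rw [← ha, ← hb]
  have e : F u - F v = (F u * Complex.exp (Complex.I * (a : ℂ)) - Z) *
        Complex.exp (Complex.I * ((-a : ℝ) : ℂ)) -
      (F v * Complex.exp (Complex.I * (b : ℂ)) - Z) * Complex.exp (Complex.I * ((-b : ℝ) : ℂ)) +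
      Z * (Complex.exp (Complex.I * ((-a : ℝ) : ℂ)) - Complex.exp (Complex.I * ((-b : ℝ) : ℂ))) := by
    have i1 := inv a
    have i2 := inv b
    linear_combination (-F u) * i1 + F v * i2
  rw [e]
  refine (norm_add_le _ _).trans ?_
  refine add_le_add ((norm_sub_le _ _).trans (le_of_eq ?_)) ?_
  · rw [norm_mul, norm_mul, norm_exp_I, norm_exp_I, mul_one, mul_one]
  · rw [norm_mul, hZ, one_mul]
    refine (exp_sub_le _ _).trans (le_of_eq ?_)
    rw [ha, hb, ← abs_mul]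
    congr 1
    ring

theorem log_diff {u v A d : ℝ} (hA : 0 < A) (hu : A ≤ u) (hv : A ≤ v) (huv : |u - v| ≤ d) :
    |Real.log u - Real.log v| ≤ d / A := by
  have hu0 : 0 < u := lt_of_lt_of_le hA hu
  have hv0 : 0 < v := lt_of_lt_of_le hA hv
  have key : ∀ s t : ℝ, A ≤ s → A ≤ t → |s - t| ≤ d → Real.log s - Real.log t ≤ d / A := by
    intro s t hs ht hst
    have hs0 : 0 < s := lt_of_lt_of_le hA hs
    have ht0 : 0 < t := lt_of_lt_of_le hA ht
    have hd : 0 ≤ d := (abs_nonneg _).trans hst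
    rw [← Real.log_div hs0.ne' ht0.ne']
    have h1 := Real.log_le_sub_one_of_pos (div_pos hs0 ht0)
    have h2 : s / t - 1 = (s - t) / t := by field_simp
    rw [h2] at h1
    refine h1.trans ?_
    rw [div_le_div_iff₀ ht0 hA]
    have h3 : s - t ≤ d := (le_abs_self _).trans hst
    nlinarith
  rw [abs_le]
  constructor
  · have := key v u hv hu (by rwa [abs_sub_comm])
    linarith
  · exact key u v hu hv huv

end PAIRaux

open PAIRaux

theorem PAIR (hP : S_PRE) (h1 : S_CNT1) (h2 : S_CNT2) : S_PAIR := by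
  intro F τ hF hPr ε hε
  obtain ⟨y₀, hy₀⟩ := hP F τ hF hPr (ε / 2) (by positivity)
  refine ⟨y₀, fun y hy Q l hfull hl => ?_⟩
  have hQ : 0 < Q := hfull.1
  have hQ' : (1:ℝ) ≤ Q := by exact_mod_cast hQ
  have hl' : (2:ℝ) ≤ l := by exact_mod_cast hl
  have hφ : 0 < Nat.totient Q := Nat.totient_pos.2 hQ
  have hφ' : (1:ℝ) ≤ Nat.totient Q := by exact_mod_cast hφ
  have hφQ : (Nat.totient Q : ℝ) ≤ Q := by exact_mod_cast Nat.totient_le Q
  obtain ⟨R₀, hR₀⟩ := hy₀ y hy (2 * Q + 2) (1 / (4 * l * Q)) (by positivity) (by positivity)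
  filter_upwards [eventually_ge_atTop (R₀ + 1)] with q hq
  have hq0 : 0 < q := by omega
  have hq1 : (1:ℝ) ≤ q := by exact_mod_cast hq0
  have hlQq : q ≤ l * Q * q := by
    have : 1 ≤ l * Q := Nat.mul_pos (by omega) hQ
    nlinarith
  obtain ⟨Z, hZ, hS⟩ := hR₀ (l * Q * q + 1) (by omega)
  have hRr : ((l * Q * q + 1 : ℕ) : ℝ) = l * Q * q + 1 := by push_cast; ring
  have hlQ1 : (1:ℝ) ≤ l * Q * q := by
    have : (q:ℝ) ≤ l * Q * q := by exact_mod_cast hlQq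
    linarith
  have hκ : 1 / (4 * (l:ℝ) * Q) * ((l * Q * q + 1 : ℕ) : ℝ) ≤ q := by
    rw [hRr, one_div, inv_mul_le_iff₀ (by positivity)]
    nlinarith
  -- first family
  have E1 := equi_mono (C' := 2 * Q + 2) (h1 y Q l hfull hl q hq0) (by linarith)
  have hqle : (q:ℝ) ≤ l * Q * q := by exact_mod_cast hlQq
  have A1 := hS _ (q : ℝ) hκ (by rw [hRr]; linarith) E1
  have hinj : Set.InjOn (fun t => Q * t + 1) (Finset.Ioc ((l - 1) * q) (l * q) : Finset ℕ) := by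
    intro a _ b _ hab
    have : Q * a = Q * b := by
      have := hab
      simp only [] at this
      omega
    exact Nat.eq_of_mul_eq_mul_left hQ this
  rw [Finset.sum_image hinj] at A1
  -- second family
  obtain ⟨E2', hcard2⟩ := h2 y Q l hfull hl q hq0
  have E2 := equi_mono (C' := 2 * Q + 2) E2' (by linarith)
  have A2 := hS _ ((q : ℝ) * Nat.totient Q) (hκ.trans (by nlinarith)) (by
    rw [hRr]
    have t1 : (q:ℝ) * Nat.totient Q ≤ q * Q := by nlinarith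
    have t2 : (q:ℝ) * Q ≤ l * Q * q := by nlinarith
    linarith) E2
  have hcard1 : (Finset.Ioc ((l - 1) * q) (l * q)).card = q := by
    rw [Nat.card_Ioc]
    obtain ⟨m, rfl⟩ : ∃ m, l = m + 1 := ⟨l - 1, by omega⟩
    have : (m + 1) * q = m * q + q := by ring
    rw [Nat.add_sub_cancel, this, Nat.add_sub_cancel_left]
  -- pointwise
  have hpt : ∀ t ∈ Finset.Ioc ((l - 1) * q) (l * q), ∀ r ∈ S2 Q l q,
      ‖F (Q * t + 1) - F r‖ ≤
        ‖F (Q * t + 1) * ((Q * t + 1 : ℕ) : ℂ) ^ (-(τ * Complex.I)) - Z‖ +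
        ‖F r * (r : ℂ) ^ (-(τ * Complex.I)) - Z‖ + |τ| / (l - 1) := by
    intro t ht r hr
    rw [Finset.mem_Ioc] at ht
    rw [S2, Finset.mem_filter, Finset.mem_Ioc] at hr
    have hr0 : r ≠ 0 := by omega
    refine (comp (F := F) (τ := τ) hZ (u := Q * t + 1) (v := r) (by omega) hr0).trans ?_
    refine add_le_add (le_refl _) ?_
    obtain ⟨m, rfl⟩ : ∃ m, l = m + 1 := ⟨l - 1, by omega⟩
    rw [Nat.add_sub_cancel] at ht hr
    have hm : 1 ≤ m := by omega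
    have hm' : (1:ℝ) ≤ m := by exact_mod_cast hm
    have t1 : ((m * q + 1 : ℕ) : ℝ) ≤ t := by exact_mod_cast ht.1
    have t2 : (t : ℝ) ≤ ((m + 1) * q : ℕ) := by exact_mod_cast ht.2
    have r1 : ((m * Q * q + 1 : ℕ) : ℝ) ≤ r := by exact_mod_cast hr.1.1
    have r2 : (r : ℝ) ≤ ((m + 1) * Q * q : ℕ) := by exact_mod_cast hr.1.2
    push_cast at t1 t2 r1 r2
    have hA : (0:ℝ) < m * Q * q := by positivity
    have Qt1 : (Q:ℝ) * (m * q + 1) ≤ Q * t := mul_le_mul_of_nonneg_left t1 (by linarith)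
    have Qt2 : (Q:ℝ) * t ≤ Q * ((m + 1) * q) := mul_le_mul_of_nonneg_left t2 (by linarith)
    have hlog := log_diff (u := ((Q * t + 1 : ℕ) : ℝ)) (v := (r : ℝ)) (A := (m:ℝ) * Q * q)
      (d := (Q:ℝ) * q) hA (by push_cast; nlinarith) (by linarith) (by
        push_cast
        rw [abs_le]
        constructor <;> nlinarith)
    have hlog2 : |Real.log ((Q * t + 1 : ℕ) : ℝ) - Real.log (r : ℝ)| ≤ 1 / m := by
      refine hlog.trans (le_of_eq ?_)
      have hq' : (0:ℝ) < q := by linarith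
      have hQ'' : (0:ℝ) < Q := by linarith
      field_simp
    have : |τ| / (((m + 1 : ℕ) : ℝ) - 1) = |τ| * (1 / m) := by
      push_cast
      rw [add_sub_cancel_right]
      ring
    rw [this]
    exact mul_le_mul_of_nonneg_left hlog2 (abs_nonneg _)
  -- sum up
  have hsum : ∑ t ∈ Finset.Ioc ((l - 1) * q) (l * q), ∑ r ∈ S2 Q l q, ‖F (Q * t + 1) - F r‖ ≤
      ∑ t ∈ Finset.Ioc ((l - 1) * q) (l * q), ∑ r ∈ S2 Q l q,
        (‖F (Q * t + 1) * ((Q * t + 1 : ℕ) : ℂ) ^ (-(τ * Complex.I)) - Z‖ +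
        ‖F r * (r : ℂ) ^ (-(τ * Complex.I)) - Z‖ + |τ| / (l - 1)) :=
    Finset.sum_le_sum fun t ht => Finset.sum_le_sum fun r hr => hpt t ht r hr
  refine hsum.trans ?_
  have expand : ∑ t ∈ Finset.Ioc ((l - 1) * q) (l * q), ∑ r ∈ S2 Q l q,
        (‖F (Q * t + 1) * ((Q * t + 1 : ℕ) : ℂ) ^ (-(τ * Complex.I)) - Z‖ +
        ‖F r * (r : ℂ) ^ (-(τ * Complex.I)) - Z‖ + |τ| / (l - 1)) =
      (q * Nat.totient Q : ℝ) * (∑ t ∈ Finset.Ioc ((l - 1) * q) (l * q),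
        ‖F (Q * t + 1) * ((Q * t + 1 : ℕ) : ℂ) ^ (-(τ * Complex.I)) - Z‖) +
      q * (∑ r ∈ S2 Q l q, ‖F r * (r : ℂ) ^ (-(τ * Complex.I)) - Z‖) +
      q * ((q * Nat.totient Q : ℝ) * (|τ| / (l - 1))) := by
    simp only [Finset.sum_add_distrib, Finset.sum_const, hcard1, hcard2, nsmul_eq_mul,
      ← Finset.mul_sum]
    push_cast
    ring
  rw [expand]
  have hqφ : (0:ℝ) ≤ q * Nat.totient Q := by positivity
  have b1 : (q * Nat.totient Q : ℝ) * (∑ t ∈ Finset.Ioc ((l - 1) * q) (l * q),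
        ‖F (Q * t + 1) * ((Q * t + 1 : ℕ) : ℂ) ^ (-(τ * Complex.I)) - Z‖) ≤
      (q * Nat.totient Q : ℝ) * (ε / 2 * q) := mul_le_mul_of_nonneg_left A1 hqφ
  have b2 : (q:ℝ) * (∑ r ∈ S2 Q l q, ‖F r * (r : ℂ) ^ (-(τ * Complex.I)) - Z‖) ≤
      q * (ε / 2 * (q * Nat.totient Q)) := mul_le_mul_of_nonneg_left A2 (by linarith)
  have hl1 : (0:ℝ) < l - 1 := by linarith
  have b3 : |τ| / ((l:ℝ) - 1) ≤ 3 * |τ| / (l - 1) := by
    apply div_le_div_of_nonneg_right _ hl1.le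
    linarith [abs_nonneg τ]
  have b4 : (q:ℝ) * ((q * Nat.totient Q : ℝ) * (|τ| / (l - 1))) ≤
      q * ((q * Nat.totient Q : ℝ) * (3 * |τ| / (l - 1))) :=
    mul_le_mul_of_nonneg_left (mul_le_mul_of_nonneg_left b3 hqφ) (by linarith)
  calc _ ≤ (q * Nat.totient Q : ℝ) * (ε / 2 * q) + q * (ε / 2 * (q * Nat.totient Q)) +
        q * ((q * Nat.totient Q : ℝ) * (3 * |τ| / (l - 1))) := add_le_add (add_le_add b1 b2) b4
    _ = _ := by ring

end Pool.R872.QR
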