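import Pool.Agent.R872.QR.Stm

/-!
# Project QR, piece PRE (helper551)
-/

open MeasureTheory Filter Topology
open scoped ComplexConjugate

namespace Pool.R872.QR

namespace PreAux

open Finset

/-- the twisted function -/
noncomputable def G (F : ℕ → ℂ) (τ : ℝ) (n : ℕ) : ℂ := F n * (n : ℂ) ^ (-(τ * Complex.I))

/-- its argument -/
noncomputable def th (F : ℕ → ℂ) (τ : ℝ) (p : ℕ) : ℝ := Complex.arg (G F τ p)

variable {F : ℕ → ℂ} {τ : ℝ}

theorem G_one (hF : UCM F) : G F τ 1 = 1 := by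
  unfold G
  rw [hF.one]
  simp

theorem G_mul (hF : UCM F) (m n : ℕ) : G F τ (m * n) = G F τ m * G F τ n := by
  unfold G
  rw [hF.mul, Nat.cast_mul, Complex.natCast_mul_natCast_cpow]
  ring

theorem G_norm (hF : UCM F) {n : ℕ} (hn : n ≠ 0) : ‖G F τ n‖ = 1 := by
  unfold G
  rw [norm_mul, hF.norm n hn, Complex.norm_natCast_cpow_of_pos (Nat.pos_of_ne_zero hn)]
  simp

theorem G_prod (hF : UCM F) (s : Finset ℕ) : G F τ (∏ p ∈ s, p) = ∏ p ∈ s, G F τ p := by
  induction s using Finset.induction_on with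
  | empty => simp [G_one hF]
  | insert a s ha ih => rw [prod_insert ha, prod_insert ha, G_mul hF, ih]

theorem th_abs (p : ℕ) : |th F τ p| ≤ Real.pi := Complex.abs_arg_le_pi _

theorem G_exp (hF : UCM F) {p : ℕ} (hp : p ≠ 0) :
    G F τ p = Complex.exp (th F τ p * Complex.I) := by
  have h := Complex.norm_mul_exp_arg_mul_I (G F τ p)
  rw [G_norm hF hp, Complex.ofReal_one, one_mul] at h
  exact h.symm

theorem th_sq (hF : UCM F) {p : ℕ} (hp : p ≠ 0) :
    th F τ p ^ 2 / p ≤ (Real.pi ^ 2 / 2) * dd F τ p := by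
  have h := Complex.norm_mul_cos_arg (G F τ p)
  rw [G_norm hF hp, one_mul] at h
  have h2 := Real.cos_le_one_sub_mul_cos_sq (th_abs (F := F) (τ := τ) p)
  have hpi : 0 < Real.pi ^ 2 := by positivity
  have h3 : th F τ p ^ 2 ≤ (Real.pi ^ 2 / 2) * (1 - (G F τ p).re) := by
    rw [← h]
    have e : th F τ p ^ 2 = (Real.pi ^ 2 / 2) * (2 / Real.pi ^ 2 * th F τ p ^ 2) := by
      field_simp
    rw [e]
    apply mul_le_mul_of_nonneg_left _ (by positivity)
    unfold th at h2 ⊢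
    linarith
  unfold dd
  have hp0 : (0 : ℝ) < p := by exact_mod_cast Nat.pos_of_ne_zero hp
  rw [← mul_div_assoc]
  exact div_le_div_of_nonneg_right h3 hp0.le

theorem exp_sub (a b : ℝ) :
    ‖Complex.exp (a * Complex.I) - Complex.exp (b * Complex.I)‖ ≤ |a - b| := by
  have h : Complex.exp (a * Complex.I) - Complex.exp (b * Complex.I) =
      Complex.exp (b * Complex.I) * (Complex.exp (Complex.I * ((a - b : ℝ) : ℂ)) - 1) := by
    rw [mul_sub, ← Complex.exp_add, mul_one]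
    congr 2
    push_cast
    ring
  rw [h, norm_mul, Complex.norm_exp_ofReal_mul_I, one_mul]
  have := Real.norm_exp_I_mul_ofReal_sub_one_le (x := a - b)
  rwa [Real.norm_eq_abs] at this

theorem tail (f : ℕ → ℝ) (hf : Summable f) (δ : ℝ) (hδ : 0 < δ) :
    ∃ y₀ : ℕ, ∀ T : Finset ℕ, (∀ n ∈ T, y₀ < n) → ∑ n ∈ T, f n ≤ δ := by
  obtain ⟨s, hs⟩ := hf.vanishing (Iio_mem_nhds hδ)
  refine ⟨s.sup id, fun T hT => ?_⟩
  have hd : Disjoint T s := by
    rw [Finset.disjoint_left]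
    intro n hn hns
    have h1 := hT n hn
    have h2 : n ≤ s.sup id := Finset.le_sup (f := id) hns
    omega
  exact (hs T hd).le

theorem summ (hF : UCM F) (hP : Pret F τ) :
    Summable (Set.indicator {p : ℕ | p.Prime} (fun p => th F τ p ^ 2 / p)) := by
  rw [← summable_subtype_iff_indicator]
  refine Summable.of_nonneg_of_le (fun p => ?_) (fun p => ?_) (hP.mul_left (Real.pi ^ 2 / 2))
  · show 0 ≤ th F τ p ^ 2 / p
    positivity
  · exact th_sq hF (Nat.Prime.ne_zero p.2)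

/-- the pointwise estimate -/
theorem point (hF : UCM F) {R y z : ℕ} (u : ℕ) (h1 : 1 ≤ u) (hR : u ≤ R)
    (hpr : ∀ p, p.Prime → p ∣ u → y < p) (A : ℝ) :
    ‖G F τ u - Complex.exp (A * Complex.I)‖ ≤
      |∑ p ∈ (Ioc y z).filter (fun p => p.Prime ∧ p ∣ u), th F τ p - A| +
      ∑ p ∈ ((Ioc z R).filter Nat.Prime).filter (fun p => p ∣ u), |th F τ p| +
      2 * ((((Ioc y (Nat.sqrt R)).filter Nat.Prime).filter (fun p => p ^ 2 ∣ u)).card : ℝ) := by
  have n1 : 0 ≤ |∑ p ∈ (Ioc y z).filter (fun p => p.Prime ∧ p ∣ u), th F τ p - A| := abs_nonneg _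
  have n2 : 0 ≤ ∑ p ∈ ((Ioc z R).filter Nat.Prime).filter (fun p => p ∣ u), |th F τ p| :=
    sum_nonneg fun _ _ => abs_nonneg _
  by_cases hsq : (((Ioc y (Nat.sqrt R)).filter Nat.Prime).filter (fun p => p ^ 2 ∣ u)) = ∅
  · have hsf : Squarefree u := by
      rw [Nat.squarefree_iff_prime_squarefree]
      intro p hp hpu
      have hpu' : p ∣ u := (Dvd.intro _ rfl).trans hpu
      have h2 : p * p ≤ R := (Nat.le_of_dvd h1 hpu).trans hR
      have : p ∈ (((Ioc y (Nat.sqrt R)).filter Nat.Prime).filter (fun p => p ^ 2 ∣ u)) := by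
        rw [mem_filter, mem_filter, mem_Ioc]
        exact ⟨⟨⟨hpr p hp hpu', Nat.le_sqrt.2 h2⟩, hp⟩, by rw [sq]; exact hpu⟩
      rw [hsq] at this
      exact absurd this (notMem_empty p)
    have hu : G F τ u = Complex.exp (((∑ p ∈ u.primeFactors, th F τ p : ℝ) : ℂ) * Complex.I) := by
      conv_lhs => rw [← Nat.prod_primeFactors_of_squarefree hsf]
      rw [G_prod hF, Complex.ofReal_sum, sum_mul, Complex.exp_sum]
      refine prod_congr rfl fun p hp => ?_
      exact G_exp hF (Nat.prime_of_mem_primeFactors hp).ne_zero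
    have hsplit : ∑ p ∈ u.primeFactors, th F τ p =
        ∑ p ∈ (Ioc y z).filter (fun p => p.Prime ∧ p ∣ u), th F τ p +
          ∑ p ∈ ((Ioc z R).filter Nat.Prime).filter (fun p => p ∣ u), th F τ p := by
      rw [← sum_union]
      · congr 1
        ext p
        simp only [mem_union, mem_filter, mem_Ioc, Nat.mem_primeFactors]
        constructor
        · rintro ⟨hp, hpu, _⟩
          have a1 := hpr p hp hpu
          have a2 : p ≤ R := (Nat.le_of_dvd h1 hpu).trans hR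
          by_cases hz : p ≤ z
          · exact Or.inl ⟨⟨a1, hz⟩, hp, hpu⟩
          · exact Or.inr ⟨⟨⟨not_le.1 hz, a2⟩, hp⟩, hpu⟩
        · rintro (⟨_, hp, hpu⟩ | ⟨⟨_, hp⟩, hpu⟩)
          · exact ⟨hp, hpu, by omega⟩
          · exact ⟨hp, hpu, by omega⟩
      · rw [disjoint_left]
        intro p hp hp'
        simp only [mem_filter, mem_Ioc] at hp hp'
        omega
    rw [hu]
    refine (exp_sub _ _).trans ?_
    rw [hsplit]
    have e : ∑ p ∈ (Ioc y z).filter (fun p => p.Prime ∧ p ∣ u), th F τ p +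
          ∑ p ∈ ((Ioc z R).filter Nat.Prime).filter (fun p => p ∣ u), th F τ p - A =
        (∑ p ∈ (Ioc y z).filter (fun p => p.Prime ∧ p ∣ u), th F τ p - A) +
          ∑ p ∈ ((Ioc z R).filter Nat.Prime).filter (fun p => p ∣ u), th F τ p := by ring
    rw [e, hsq]
    refine (abs_add_le _ _).trans ?_
    have := abs_sum_le_sum_abs (fun p => th F τ p)
      (((Ioc z R).filter Nat.Prime).filter (fun p => p ∣ u))
    simp only [card_empty, Nat.cast_zero, mul_zero, add_zero]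
    linarith
  · have hc : 1 ≤ (((Ioc y (Nat.sqrt R)).filter Nat.Prime).filter (fun p => p ^ 2 ∣ u)).card :=
      card_pos.2 (nonempty_iff_ne_empty.2 hsq)
    have hc' : (1 : ℝ) ≤
        ((((Ioc y (Nat.sqrt R)).filter Nat.Prime).filter (fun p => p ^ 2 ∣ u)).card : ℝ) := by
      exact_mod_cast hc
    have h2 : ‖G F τ u - Complex.exp (A * Complex.I)‖ ≤ 1 + 1 := by
      refine (norm_sub_le _ _).trans ?_
      rw [G_norm hF (by omega), Complex.norm_exp_ofReal_mul_I]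
    linarith

theorem sum_h {S : Finset ℕ} {R y z : ℕ} {X C : ℝ} (hE : Equi S R y X C) (hyz : y ≤ z)
    (hC : 0 ≤ C) :
    ∑ u ∈ S, ∑ p ∈ ((Ioc z R).filter Nat.Prime).filter (fun p => p ∣ u), |th F τ p| ≤
      X * ∑ p ∈ (Ioc z R).filter Nat.Prime, |th F τ p| / p +
        C * (Real.pi * (((Ioc z R).filter Nat.Prime).card : ℝ)) := by
  have h1 : ∑ u ∈ S, ∑ p ∈ ((Ioc z R).filter Nat.Prime).filter (fun p => p ∣ u), |th F τ p| =
      ∑ p ∈ (Ioc z R).filter Nat.Prime, ((S.filter (fun u => p ∣ u)).card : ℝ) * |th F τ p| := by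
    simp_rw [sum_filter (s := (Ioc z R).filter Nat.Prime)]
    rw [sum_comm]
    refine sum_congr rfl fun p _ => ?_
    rw [← sum_filter, sum_const, nsmul_eq_mul]
  rw [h1]
  have h2 : ∀ p ∈ (Ioc z R).filter Nat.Prime,
      ((S.filter (fun u => p ∣ u)).card : ℝ) * |th F τ p| ≤
        X * (|th F τ p| / p) + C * Real.pi := by
    intro p hp
    rw [mem_filter, mem_Ioc] at hp
    have h3 := hE.2.2.1 p hp.2 (lt_of_le_of_lt hyz hp.1.1)
    have h4 := (abs_le.1 h3).2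
    have h5 : ((S.filter (fun u => p ∣ u)).card : ℝ) * |th F τ p| ≤ (X / p + C) * |th F τ p| :=
      mul_le_mul_of_nonneg_right (by linarith) (abs_nonneg _)
    have h6 : C * |th F τ p| ≤ C * Real.pi := mul_le_mul_of_nonneg_left (th_abs p) hC
    have h7 : (X / p + C) * |th F τ p| = X * (|th F τ p| / p) + C * |th F τ p| := by ring
    linarith
  refine (sum_le_sum h2).trans (le_of_eq ?_)
  rw [sum_add_distrib, ← mul_sum, sum_const, nsmul_eq_mul]
  ring

theorem sum_k {S : Finset ℕ} {R y : ℕ} {X C : ℝ} (hE : Equi S R y X C) (m : ℕ) :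
    ∑ u ∈ S, ((((Ioc y m).filter Nat.Prime).filter (fun p => p ^ 2 ∣ u)).card : ℝ) ≤
      X * ∑ p ∈ (Ioc y m).filter Nat.Prime, 1 / (p : ℝ) ^ 2 +
        C * (((Ioc y m).filter Nat.Prime).card : ℝ) := by
  have h1 : ∑ u ∈ S, ((((Ioc y m).filter Nat.Prime).filter (fun p => p ^ 2 ∣ u)).card : ℝ) =
      ∑ p ∈ (Ioc y m).filter Nat.Prime, ((S.filter (fun u => p ^ 2 ∣ u)).card : ℝ) := by
    have a1 : ∀ u : ℕ, ((((Ioc y m).filter Nat.Prime).filter (fun p => p ^ 2 ∣ u)).card : ℝ) =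
        ∑ p ∈ (Ioc y m).filter Nat.Prime, (if p ^ 2 ∣ u then (1 : ℝ) else 0) :=
      fun u => (sum_boole _ _).symm
    have a2 : ∀ p : ℕ, ((S.filter (fun u => p ^ 2 ∣ u)).card : ℝ) =
        ∑ u ∈ S, (if p ^ 2 ∣ u then (1 : ℝ) else 0) := fun p => (sum_boole _ _).symm
    rw [sum_congr rfl fun u _ => a1 u, sum_congr rfl fun p _ => a2 p, sum_comm]
  rw [h1]
  have h2 : ∀ p ∈ (Ioc y m).filter Nat.Prime,
      ((S.filter (fun u => p ^ 2 ∣ u)).card : ℝ) ≤ X * (1 / (p : ℝ) ^ 2) + C := by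
    intro p hp
    rw [mem_filter, mem_Ioc] at hp
    have h3 := hE.2.2.2.1 p hp.2 hp.1.1
    have h4 := (abs_le.1 h3).2
    have h5 : X * (1 / (p : ℝ) ^ 2) = X / (p : ℝ) ^ 2 := by ring
    rw [h5]; linarith
  refine (sum_le_sum h2).trans (le_of_eq ?_)
  rw [sum_add_distrib, ← mul_sum, sum_const, nsmul_eq_mul]
  ring

/-- weighted Cauchy-Schwarz -/
theorem cs (T : Finset ℕ) (lam : ℝ) (hl : 0 < lam) :
    ∑ p ∈ T, |th F τ p| / p ≤ lam / 2 * ∑ p ∈ T, th F τ p ^ 2 / p +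
      1 / (2 * lam) * ∑ p ∈ T, 1 / (p : ℝ) := by
  rw [mul_sum, mul_sum, ← sum_add_distrib]
  refine sum_le_sum fun p _ => ?_
  have h1 : |th F τ p| ≤ lam / 2 * th F τ p ^ 2 + 1 / (2 * lam) := by
    have h2 : 0 ≤ (lam * |th F τ p| - 1) ^ 2 / (2 * lam) := by positivity
    have h3 : (lam * |th F τ p| - 1) ^ 2 / (2 * lam) =
        lam / 2 * |th F τ p| ^ 2 - |th F τ p| + 1 / (2 * lam) := by
      field_simp
      ring
    rw [h3, sq_abs] at h2
    linarith
  have h4 : lam / 2 * (th F τ p ^ 2 / p) + 1 / (2 * lam) * (1 / (p : ℝ)) =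
      (lam / 2 * th F τ p ^ 2 + 1 / (2 * lam)) / p := by ring
  rw [h4]
  exact div_le_div_of_nonneg_right h1 (Nat.cast_nonneg p)

end PreAux

open PreAux Finset in
theorem PRE (hTK : S_TK) (hM : S_MER) : S_PRE := by
  intro F τ hF hP ε hε
  obtain ⟨⟨K0, hK0⟩, hpi⟩ := hM
  obtain ⟨K, hK⟩ : ∃ K : ℝ, K = max K0 1 := ⟨_, rfl⟩
  have hK1 : 1 ≤ K := by rw [hK]; exact le_max_right _ _
  have hK0' : K0 ≤ K := by rw [hK]; exact le_max_left _ _
  obtain ⟨δ, hδ⟩ : ∃ δ : ℝ, δ = ε ^ 2 / (64 * K) := ⟨_, rfl⟩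
  have hδ0 : 0 < δ := by rw [hδ]; positivity
  have hδ1 : δ ≤ ε ^ 2 / 64 := by
    rw [hδ]
    apply div_le_div_of_nonneg_left (by positivity) (by norm_num)
    linarith
  obtain ⟨y₁, hy₁⟩ := tail _ (summ hF hP) δ hδ0
  obtain ⟨y₂, hy₂⟩ := tail (fun n : ℕ => 1 / (n : ℝ) ^ 2)
    (Real.summable_one_div_nat_pow.2 (by norm_num)) (ε / 16) (by positivity)
  have hpr : ∀ T : Finset ℕ, (∀ n ∈ T, y₁ < n) → (∀ n ∈ T, n.Prime) →
      ∑ p ∈ T, th F τ p ^ 2 / p ≤ δ := by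
    intro T h1 h2
    refine le_trans (le_of_eq ?_) (hy₁ T h1)
    refine sum_congr rfl fun p hp => ?_
    rw [Set.indicator_of_mem]
    exact h2 p hp
  refine ⟨max y₁ y₂, fun y hy C κ hC hκ => ?_⟩
  have hyy₁ : y₁ ≤ y := (le_max_left _ _).trans hy
  have hyy₂ : y₂ ≤ y := (le_max_right _ _).trans hy
  have hpi0 := Real.pi_pos
  obtain ⟨e₂, he₂⟩ : ∃ e₂ : ℝ, e₂ = ε * κ / (8 * C * Real.pi) := ⟨_, rfl⟩
  have he₂0 : 0 < e₂ := by rw [he₂]; positivity
  obtain ⟨R₁, hR₁⟩ := eventually_atTop.1 (hpi.eventually (gt_mem_nhds he₂0))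
  obtain ⟨M, hM1⟩ := exists_nat_ge (max (max (200 * C / (δ * κ)) (C / κ))
    (max (16 * C / (ε * κ)) (((y : ℝ) + 1) ^ 2)))
  have hMa : 200 * C / (δ * κ) ≤ M := (le_max_left _ _).trans ((le_max_left _ _).trans hM1)
  have hMb : C / κ ≤ M := (le_max_right _ _).trans ((le_max_left _ _).trans hM1)
  have hMc : 16 * C / (ε * κ) ≤ M := (le_max_left _ _).trans ((le_max_right _ _).trans hM1)
  have hMd : ((y : ℝ) + 1) ^ 2 ≤ M := (le_max_right _ _).trans ((le_max_right _ _).trans hM1)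
  refine ⟨max (M ^ 2) R₁, fun R hR => ?_⟩
  have hRM : M ^ 2 ≤ R := (le_max_left _ _).trans hR
  have hRR₁ : R₁ ≤ R := (le_max_right _ _).trans hR
  obtain ⟨m, hm⟩ : ∃ m, m = Nat.sqrt R := ⟨_, rfl⟩
  have hmM : M ≤ m := by rw [hm, Nat.le_sqrt]; rw [sq] at hRM; exact hRM
  obtain ⟨z, hz⟩ : ∃ z, z = Nat.sqrt m := ⟨_, rfl⟩
  have hMd' : (y + 1) ^ 2 ≤ M := by exact_mod_cast hMd
  have hyz : y + 1 ≤ z := by
    rw [hz, Nat.le_sqrt, ← sq]; exact hMd'.trans hmM
  have hz2 : z * z ≤ m := by rw [hz]; exact Nat.sqrt_le m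
  have hm2 : m * m ≤ R := by rw [hm]; exact Nat.sqrt_le R
  have hm1 : 1 ≤ m := by nlinarith
  have hR4 : R ≤ (z + 1) ^ 4 := by
    have h1 : m + 1 ≤ (z + 1) * (z + 1) := by rw [hz]; exact Nat.lt_succ_sqrt m
    have h2 : R < (m + 1) * (m + 1) := by rw [hm]; exact Nat.lt_succ_sqrt R
    have h3 : (m + 1) * (m + 1) ≤ ((z + 1) * (z + 1)) * ((z + 1) * (z + 1)) :=
      Nat.mul_le_mul h1 h1
    have h4 : (z + 1) ^ 4 = ((z + 1) * (z + 1)) * ((z + 1) * (z + 1)) := by ring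
    omega
  have hmr : (m : ℝ) * m ≤ R := by exact_mod_cast hm2
  have hzr : (z : ℝ) ^ 2 ≤ m := by rw [sq]; exact_mod_cast hz2
  have hmr1 : (1 : ℝ) ≤ m := by exact_mod_cast hm1
  have hMm : (M : ℝ) ≤ m := by exact_mod_cast hmM
  have hmR : (m : ℝ) ≤ R := by nlinarith
  refine ⟨Complex.exp (((∑ p ∈ (Ioc y z).filter Nat.Prime, th F τ p / p : ℝ) : ℂ) * Complex.I),
    Complex.norm_exp_ofReal_mul_I _, fun S X hX hXR hE => ?_⟩
  set A : ℝ := ∑ p ∈ (Ioc y z).filter Nat.Prime, th F τ p / p with hA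
  have hR0 : (0 : ℝ) < R := by linarith
  have hX0 : 0 < X := lt_of_lt_of_le (by positivity) hX
  have hCX : C ≤ X := by
    have h1 : C ≤ M * κ := (div_le_iff₀ hκ).1 hMb
    nlinarith
  have hScard : (S.card : ℝ) ≤ 2 * X := by
    have := (abs_le.1 hE.2.1).2
    linarith
  -- the first sum
  have T1 : ∑ u ∈ S, |∑ p ∈ (Ioc y z).filter (fun p => p.Prime ∧ p ∣ u), th F τ p - A| ≤
      ε / 4 * X := by
    have h1 := hTK S R y z X C hX0.le hC.le hE (by omega) (th F τ) (fun p => th_abs p)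
    have h2 : ∑ p ∈ (Ioc y z).filter Nat.Prime, th F τ p ^ 2 / p ≤ δ := by
      refine hpr _ (fun n hn => ?_) (fun n hn => (mem_filter.1 hn).2)
      have := (mem_Ioc.1 (mem_filter.1 hn).1).1
      omega
    have h3 : 100 * C * (z : ℝ) ^ 2 + 100 * C ≤ δ * X := by
      have h4 : 200 * C ≤ M * (δ * κ) := (div_le_iff₀ (by positivity)).1 hMa
      have h5 : 100 * C * (z : ℝ) ^ 2 ≤ 100 * C * m :=
        mul_le_mul_of_nonneg_left hzr (by positivity)
      have h6 : 100 * C ≤ 100 * C * m := by nlinarith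
      have h7 : 200 * C * m ≤ (m * (δ * κ)) * m := by
        apply mul_le_mul_of_nonneg_right _ (by linarith)
        have : (M : ℝ) * (δ * κ) ≤ m * (δ * κ) := mul_le_mul_of_nonneg_right hMm (by positivity)
        linarith
      have h8 : (m * (δ * κ)) * m ≤ δ * (κ * R) := by
        have : (m * (δ * κ)) * m = (δ * κ) * (m * m) := by ring
        rw [this]
        have : δ * (κ * R) = (δ * κ) * R := by ring
        rw [this]
        exact mul_le_mul_of_nonneg_left hmr (by positivity)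
      have h9 : δ * (κ * R) ≤ δ * X := mul_le_mul_of_nonneg_left hX hδ0.le
      linarith
    have h4 : ∑ u ∈ S, (∑ p ∈ (Ioc y z).filter (fun p => p.Prime ∧ p ∣ u), th F τ p - A) ^ 2 ≤
        2 * (δ * X) := by
      refine h1.trans ?_
      have : X * ∑ p ∈ (Ioc y z).filter Nat.Prime, th F τ p ^ 2 / p ≤ X * δ :=
        mul_le_mul_of_nonneg_left h2 hX0.le
      linarith
    have h5 := sq_sum_le_card_mul_sum_sq (s := S)
      (f := fun u => |∑ p ∈ (Ioc y z).filter (fun p => p.Prime ∧ p ∣ u), th F τ p - A|)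
    simp only [sq_abs] at h5
    have h6 : (S.card : ℝ) * ∑ u ∈ S,
        (∑ p ∈ (Ioc y z).filter (fun p => p.Prime ∧ p ∣ u), th F τ p - A) ^ 2 ≤
        (2 * X) * (2 * (δ * X)) :=
      mul_le_mul hScard h4 (sum_nonneg fun _ _ => sq_nonneg _) (by positivity)
    have h7 : (2 * X) * (2 * (δ * X)) ≤ (ε / 4 * X) ^ 2 := by
      have : (2 * X) * (2 * (δ * X)) = δ * (4 * X ^ 2) := by ring
      rw [this]
      have h8 : δ * (4 * X ^ 2) ≤ ε ^ 2 / 64 * (4 * X ^ 2) :=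
        mul_le_mul_of_nonneg_right hδ1 (by positivity)
      have h9 : ε ^ 2 / 64 * (4 * X ^ 2) = (ε / 4 * X) ^ 2 := by ring
      linarith
    exact le_of_pow_le_pow_left₀ (by norm_num) (by positivity) (h5.trans (h6.trans h7))
  -- the second sum
  have T2 : ∑ u ∈ S, ∑ p ∈ ((Ioc z R).filter Nat.Prime).filter (fun p => p ∣ u), |th F τ p| ≤
      ε / 4 * X := by
    refine (sum_h hE (by omega) hC.le).trans ?_
    have h1 : ∑ p ∈ (Ioc z R).filter Nat.Prime, th F τ p ^ 2 / p ≤ δ := by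
      refine hpr _ (fun n hn => ?_) (fun n hn => (mem_filter.1 hn).2)
      have := (mem_Ioc.1 (mem_filter.1 hn).1).1
      omega
    have h2 : ∑ p ∈ (Ioc z R).filter Nat.Prime, 1 / (p : ℝ) ≤ K := by
      refine le_trans (sum_le_sum_of_subset_of_nonneg ?_ fun _ _ _ => by positivity)
        ((hK0 z (by omega)).trans hK0')
      intro p hp
      rw [mem_filter, mem_Ioc] at hp ⊢
      exact ⟨⟨hp.1.1, hp.1.2.trans hR4⟩, hp.2⟩
    have hl : (0 : ℝ) < 8 * K / ε := by positivity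
    have h3 := cs (F := F) (τ := τ) ((Ioc z R).filter Nat.Prime) (8 * K / ε) hl
    have h4 : (8 * K / ε) / 2 * ∑ p ∈ (Ioc z R).filter Nat.Prime, th F τ p ^ 2 / p ≤
        (8 * K / ε) / 2 * δ := mul_le_mul_of_nonneg_left h1 (by positivity)
    have h5 : (8 * K / ε) / 2 * δ = ε / 16 := by
      rw [hδ]; field_simp; norm_num
    have h6 : 1 / (2 * (8 * K / ε)) * ∑ p ∈ (Ioc z R).filter Nat.Prime, 1 / (p : ℝ) ≤
        1 / (2 * (8 * K / ε)) * K := mul_le_mul_of_nonneg_left h2 (by positivity)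
    have h7 : 1 / (2 * (8 * K / ε)) * K = ε / 16 := by
      field_simp; norm_num
    have h8 : ∑ p ∈ (Ioc z R).filter Nat.Prime, |th F τ p| / p ≤ ε / 8 := by linarith
    have h9 : X * ∑ p ∈ (Ioc z R).filter Nat.Prime, |th F τ p| / p ≤ X * (ε / 8) :=
      mul_le_mul_of_nonneg_left h8 hX0.le
    have h10 : (((Ioc z R).filter Nat.Prime).card : ℝ) ≤ e₂ * R := by
      have h11 := hR₁ R hRR₁
      rw [div_lt_iff₀ hR0] at h11
      refine le_trans ?_ h11.le
      have : (Ioc z R).filter Nat.Prime ⊆ (Icc 1 R).filter Nat.Prime := by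
        intro p hp
        rw [mem_filter, mem_Ioc] at hp
        rw [mem_filter, mem_Icc]
        exact ⟨⟨hp.2.one_lt.le, hp.1.2⟩, hp.2⟩
      exact_mod_cast card_le_card this
    have h12 : C * (Real.pi * (((Ioc z R).filter Nat.Prime).card : ℝ)) ≤
        C * (Real.pi * (e₂ * R)) :=
      mul_le_mul_of_nonneg_left (mul_le_mul_of_nonneg_left h10 hpi0.le) hC.le
    have h13 : C * (Real.pi * (e₂ * R)) = ε / 8 * (κ * R) := by
      rw [he₂]; field_simp
    have h14 : ε / 8 * (κ * R) ≤ ε / 8 * X := mul_le_mul_of_nonneg_left hX (by positivity)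
    linarith
  -- the third sum
  have T3 : ∑ u ∈ S, ((((Ioc y (Nat.sqrt R)).filter Nat.Prime).filter
      (fun p => p ^ 2 ∣ u)).card : ℝ) ≤ ε / 8 * X := by
    refine (sum_k hE _).trans ?_
    have h1 : ∑ p ∈ (Ioc y (Nat.sqrt R)).filter Nat.Prime, 1 / (p : ℝ) ^ 2 ≤ ε / 16 := by
      refine hy₂ _ (fun n hn => ?_)
      have := (mem_Ioc.1 (mem_filter.1 hn).1).1
      omega
    have h2 : (((Ioc y (Nat.sqrt R)).filter Nat.Prime).card : ℝ) ≤ m := by
      have h3 : ((Ioc y (Nat.sqrt R)).filter Nat.Prime).card ≤ m := by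
        refine (card_filter_le _ _).trans ?_
        rw [Nat.card_Ioc, ← hm]; omega
      exact_mod_cast h3
    have h3 : X * ∑ p ∈ (Ioc y (Nat.sqrt R)).filter Nat.Prime, 1 / (p : ℝ) ^ 2 ≤ X * (ε / 16) :=
      mul_le_mul_of_nonneg_left h1 hX0.le
    have h4 : C * (((Ioc y (Nat.sqrt R)).filter Nat.Prime).card : ℝ) ≤ C * m :=
      mul_le_mul_of_nonneg_left h2 hC.le
    have h5 : 16 * C ≤ m * (ε * κ) := by
      have h6 : 16 * C ≤ M * (ε * κ) := (div_le_iff₀ (by positivity)).1 hMc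
      have : (M : ℝ) * (ε * κ) ≤ m * (ε * κ) := mul_le_mul_of_nonneg_right hMm (by positivity)
      linarith
    have h7 : 16 * C * m ≤ (ε * κ) * (m * m) := by
      have := mul_le_mul_of_nonneg_right h5 (by linarith : (0 : ℝ) ≤ m)
      linarith [this, (by ring : m * (ε * κ) * m = (ε * κ) * (m * m))]
    have h8 : (ε * κ) * (m * m) ≤ (ε * κ) * R := mul_le_mul_of_nonneg_left hmr (by positivity)
    have h9 : (ε * κ) * R ≤ ε * X := by
      have : (ε * κ) * R = ε * (κ * R) := by ring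
      rw [this]
      exact mul_le_mul_of_nonneg_left hX hε.le
    linarith
  have hpt : ∀ u ∈ S, ‖F u * (u : ℂ) ^ (-(τ * Complex.I)) -
      Complex.exp ((A : ℂ) * Complex.I)‖ ≤
      |∑ p ∈ (Ioc y z).filter (fun p => p.Prime ∧ p ∣ u), th F τ p - A| +
      ∑ p ∈ ((Ioc z R).filter Nat.Prime).filter (fun p => p ∣ u), |th F τ p| +
      2 * ((((Ioc y (Nat.sqrt R)).filter Nat.Prime).filter (fun p => p ^ 2 ∣ u)).card : ℝ) := by
    intro u hu
    obtain ⟨u1, u2, u3⟩ := hE.1 u hu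
    exact point hF u u1 u2 u3 A
  refine (sum_le_sum hpt).trans ?_
  rw [sum_add_distrib, sum_add_distrib, ← mul_sum]
  have : 0 < ε * X := by positivity
  linarith

end Pool.R872.QR
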