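import Pool.Agent.R872.QR.Stm

open MeasureTheory Filter Topology
open scoped ComplexConjugate

namespace Pool.R872.QR

theorem t_PD : S_PD := by
  intro X mX μ hμ T hT hmul A hA
  constructor
  · intro k u v hk hu hv
    have e : ∀ w, 0 < w → (T (k * w)) ⁻¹' A = (T k) ⁻¹' ((T w) ⁻¹' A) := by
      intro w hw
      ext x
      show T (k * w) x ∈ A ↔ T w (T k x) ∈ A
      rw [mul_comm k w, hmul k w hk hw]
    rw [e u hu, e v hv, ← Set.preimage_inter]
    unfold Measure.real
    rw [(hT k hk).measure_preimage (((hT u hu).measurable hA).inter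
      ((hT v hv).measurable hA)).nullMeasurableSet]
  · intro s z hs
    set a : ℝ := μ.real A with ha
    set f : ℕ → X → ℝ := fun u => ((T u) ⁻¹' A).indicator 1 with hf
    have hmeas : ∀ u ∈ s, MeasurableSet ((T u) ⁻¹' A) := fun u hu => (hT u (hs u hu)).measurable hA
    have hfi : ∀ u ∈ s, Integrable (f u) μ := fun u hu =>
      (integrable_const (1 : ℝ)).indicator (hmeas u hu)
    have hfint : ∀ u ∈ s, ∫ x, f u x ∂μ = a := by
      intro u hu
      rw [hf]
      show ∫ x, ((T u) ⁻¹' A).indicator 1 x ∂μ = a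
      rw [integral_indicator_one (hmeas u hu), ha]
      unfold Measure.real
      rw [(hT u (hs u hu)).measure_preimage hA.nullMeasurableSet]
    have hff : ∀ u ∈ s, ∀ v ∈ s, ∀ x, f u x * f v x =
        ((T u) ⁻¹' A ∩ (T v) ⁻¹' A).indicator (1 : X → ℝ) x := by
      intro u _ v _ x
      show ((T u) ⁻¹' A).indicator (1 : X → ℝ) x * ((T v) ⁻¹' A).indicator (1 : X → ℝ) x = _
      by_cases h1 : x ∈ (T u) ⁻¹' A <;> by_cases h2 : x ∈ (T v) ⁻¹' A <;>
        simp [Set.indicator, h1, h2]
    have hffi : ∀ u ∈ s, ∀ v ∈ s, Integrable (fun x => f u x * f v x) μ := by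
      intro u hu v hv
      simp only [hff u hu v hv]
      exact (integrable_const (1 : ℝ)).indicator ((hmeas u hu).inter (hmeas v hv))
    have hexp : ∀ u v : ℕ, ∀ x, (f u x - a) * (f v x - a) =
        f u x * f v x - a * f u x - a * f v x + a ^ 2 := by
      intro u v x; ring
    have hhi : ∀ u ∈ s, ∀ v ∈ s, Integrable (fun x => (f u x - a) * (f v x - a)) μ := by
      intro u hu v hv
      simp only [hexp]
      exact (((hffi u hu v hv).sub ((hfi u hu).const_mul a)).sub ((hfi v hv).const_mul a)).add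
        (integrable_const _)
    have hcov : ∀ u ∈ s, ∀ v ∈ s, ∫ x, (f u x - a) * (f v x - a) ∂μ =
        μ.real ((T u) ⁻¹' A ∩ (T v) ⁻¹' A) - a ^ 2 := by
      intro u hu v hv
      simp only [hexp]
      have i1 : Integrable (fun x => a * f u x) μ := (hfi u hu).const_mul a
      have i2 : Integrable (fun x => a * f v x) μ := (hfi v hv).const_mul a
      have i3 : Integrable (fun x => f u x * f v x - a * f u x) μ := (hffi u hu v hv).sub i1
      have i4 : Integrable (fun x => f u x * f v x - a * f u x - a * f v x) μ := i3.sub i2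
      have e1 : ∫ x, (f u x * f v x - a * f u x - a * f v x + a ^ 2) ∂μ =
          (∫ x, (f u x * f v x - a * f u x - a * f v x) ∂μ) + ∫ _x, a ^ 2 ∂μ :=
        integral_add i4 (integrable_const _)
      have e2 : ∫ x, (f u x * f v x - a * f u x - a * f v x) ∂μ =
          (∫ x, (f u x * f v x - a * f u x) ∂μ) - ∫ x, a * f v x ∂μ := integral_sub i3 i2
      have e3 : ∫ x, (f u x * f v x - a * f u x) ∂μ =
          (∫ x, f u x * f v x ∂μ) - ∫ x, a * f u x ∂μ := integral_sub (hffi u hu v hv) i1
      rw [e1, e2, e3, integral_const_mul, integral_const_mul, hfint u hu, hfint v hv]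
      simp only [hff u hu v hv]
      rw [integral_indicator_one ((hmeas u hu).inter (hmeas v hv))]
      simp
      ring
    have hreal : ∀ w : ℕ → ℝ, 0 ≤ ∑ u ∈ s, ∑ v ∈ s, w u * w v *
        (μ.real ((T u) ⁻¹' A ∩ (T v) ⁻¹' A) - a ^ 2) := by
      intro w
      have e1 : ∑ u ∈ s, ∑ v ∈ s, w u * w v * (μ.real ((T u) ⁻¹' A ∩ (T v) ⁻¹' A) - a ^ 2) =
          ∫ x, (∑ u ∈ s, w u * (f u x - a)) ^ 2 ∂μ := by
        have e2 : ∀ x, (∑ u ∈ s, w u * (f u x - a)) ^ 2 =
            ∑ u ∈ s, ∑ v ∈ s, w u * w v * ((f u x - a) * (f v x - a)) := by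
          intro x
          rw [pow_two, Finset.sum_mul_sum]
          refine Finset.sum_congr rfl fun u _ => Finset.sum_congr rfl fun v _ => ?_
          ring
        simp only [e2]
        rw [integral_finsetSum _ fun u hu => integrable_finsetSum _ fun v hv =>
          (hhi u hu v hv).const_mul _]
        refine Finset.sum_congr rfl fun u hu => ?_
        rw [integral_finsetSum _ fun v hv => (hhi u hu v hv).const_mul _]
        refine Finset.sum_congr rfl fun v hv => ?_
        rw [integral_const_mul, hcov u hu v hv]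
      rw [e1]
      exact integral_nonneg fun x => sq_nonneg _
    have h1 := hreal (fun u => (z u).re)
    have h2 := hreal (fun u => (z u).im)
    have e : (∑ u ∈ s, ∑ v ∈ s, z u * conj (z v) *
        ((μ.real ((T u) ⁻¹' A ∩ (T v) ⁻¹' A) - a ^ 2 : ℝ) : ℂ)).re =
        ∑ u ∈ s, ∑ v ∈ s, (z u).re * (z v).re * (μ.real ((T u) ⁻¹' A ∩ (T v) ⁻¹' A) - a ^ 2) +
        ∑ u ∈ s, ∑ v ∈ s, (z u).im * (z v).im * (μ.real ((T u) ⁻¹' A ∩ (T v) ⁻¹' A) - a ^ 2) := by
      rw [Complex.re_sum, ← Finset.sum_add_distrib]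
      refine Finset.sum_congr rfl fun u _ => ?_
      rw [Complex.re_sum, ← Finset.sum_add_distrib]
      refine Finset.sum_congr rfl fun v _ => ?_
      rw [Complex.re_mul_ofReal, Complex.mul_re, Complex.conj_re, Complex.conj_im]
      ring
    rw [e]
    exact add_nonneg h1 h2

end Pool.R872.QR
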