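import Pool.Agent.R872.QR.Stm

/-! Project QR, piece SPEC (helper208): Herglotz theorem for the multiplicative semigroup. -/

set_option autoImplicit false

open MeasureTheory Filter Topology
open scoped ComplexConjugate

namespace Pool.R872.QR

namespace SPECx

abbrev G := ℕ → UnitAddCircle

theorem chi_eq (x : G) {n : ℕ} (hn : n ≠ 0) :
    chi x n = n.factorization.prod fun p k => ((AddCircle.toCircle (x p) : Circle) : ℂ) ^ k := by
  simp [chi, hn]

theorem chi_mul (x : G) {m n : ℕ} (hm : m ≠ 0) (hn : n ≠ 0) :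
    chi x (m * n) = chi x m * chi x n := by
  rw [chi_eq x hm, chi_eq x hn, chi_eq x (mul_ne_zero hm hn), Nat.factorization_mul hm hn]
  exact Finsupp.prod_add_index' (fun _ => pow_zero _) (fun _ _ _ => pow_add _ _ _)

theorem chi_norm (x : G) {n : ℕ} (hn : n ≠ 0) : ‖chi x n‖ = 1 := by
  rw [chi_eq x hn, Finsupp.prod, norm_prod]
  exact Finset.prod_eq_one fun p _ => by rw [norm_pow, Circle.norm_coe, one_pow]

theorem chi_conj (x : G) {n : ℕ} (hn : n ≠ 0) : chi x n * conj (chi x n) = 1 := by
  rw [Complex.mul_conj, Complex.normSq_eq_norm_sq, chi_norm x hn]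
  norm_num

theorem chi_cont (n : ℕ) : Continuous fun x : G => chi x n := by
  by_cases hn : n = 0
  · have : (fun x : G => chi x n) = fun _ => 0 := by funext x; simp [chi, hn]
    rw [this]; exact continuous_const
  · have : (fun x : G => chi x n) = fun x => ∏ p ∈ n.factorization.support,
        ((AddCircle.toCircle (x p) : Circle) : ℂ) ^ (n.factorization p) := by
      funext x; rw [chi_eq x hn]; rfl
    rw [this]
    refine continuous_finsetProd _ fun p _ => ?_
    refine Continuous.pow ?_ _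
    have hc : Continuous fun z : Circle => (z : ℂ) := by fun_prop
    exact hc.comp (AddCircle.continuous_toCircle.comp (continuous_apply p))

theorem chi_add (x y : G) (n : ℕ) : chi (x + y) n = chi x n * chi y n := by
  by_cases hn : n = 0
  · simp [chi, hn]
  · rw [chi_eq _ hn, chi_eq _ hn, chi_eq _ hn, Finsupp.prod, Finsupp.prod, Finsupp.prod,
      ← Finset.prod_mul_distrib]
    refine Finset.prod_congr rfl fun p _ => ?_
    rw [Pi.add_apply, AddCircle.toCircle_add, Circle.coe_mul, mul_pow]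

noncomputable def haar : Measure G :=
  Measure.addHaarMeasure (⊤ : TopologicalSpace.PositiveCompacts G)

instance : IsProbabilityMeasure haar := by
  constructor
  have := Measure.addHaarMeasure_self (K₀ := (⊤ : TopologicalSpace.PositiveCompacts G))
  unfold haar
  simpa using this

instance : haar.IsAddLeftInvariant := by unfold haar; infer_instance

theorem int_char (ψ : G → ℂ) (hψ : ∀ x y, ψ (x + y) = ψ x * ψ y) (y : G) (hy : ψ y ≠ 1) :
    ∫ x, ψ x ∂haar = 0 := by
  have h : ∫ x, ψ (y + x) ∂haar = ∫ x, ψ x ∂haar := integral_add_left_eq_self ψ y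
  simp only [hψ, integral_const_mul] at h
  have h2 : (ψ y - 1) * ∫ x, ψ x ∂haar = 0 := by rw [sub_mul, h, one_mul, sub_self]
  exact (mul_eq_zero.mp h2).resolve_left (sub_ne_zero.mpr hy)

theorem exists_sep {n n' : ℕ} (hn : n ≠ 0) (hn' : n' ≠ 0) (h : n ≠ n') :
    ∃ y : G, chi y n * conj (chi y n') ≠ 1 := by
  obtain ⟨p, hp⟩ : ∃ p, n.factorization p ≠ n'.factorization p := by
    by_contra hcon
    push Not at hcon
    exact h (Nat.eq_of_factorization_eq hn hn' hcon)
  have key : ∀ (t : UnitAddCircle) (m : ℕ), m ≠ 0 →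
      chi (Pi.single p t) m = ((AddCircle.toCircle t : Circle) : ℂ) ^ (m.factorization p) := by
    intro t m hm
    rw [chi_eq _ hm, Finsupp.prod]
    by_cases hps : p ∈ m.factorization.support
    · rw [Finset.prod_eq_single_of_mem p hps]
      · rw [Pi.single_eq_same]
      · intro q _ hq
        rw [Pi.single_eq_of_ne hq, AddCircle.toCircle_zero, Circle.coe_one, one_pow]
    · rw [Finset.prod_eq_one, Finsupp.notMem_support_iff.mp hps, pow_zero]
      intro q hq
      have hqp : q ≠ p := by rintro rfl; exact hps hq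
      rw [Pi.single_eq_of_ne hqp, AddCircle.toCircle_zero, Circle.coe_one, one_pow]
  set t : UnitAddCircle := ((Real.sqrt 2 : ℝ) : UnitAddCircle) with ht
  refine ⟨Pi.single p t, ?_⟩
  intro hcon
  have h1 := chi_conj (Pi.single p t) hn'
  have h2 : chi (Pi.single p t) n = chi (Pi.single p t) n' := by
    have hz : conj (chi (Pi.single p t) n') ≠ 0 := right_ne_zero_of_mul (h1 ▸ one_ne_zero)
    exact mul_right_cancel₀ hz (hcon.trans h1.symm)
  rw [key t n hn, key t n' hn', ← Circle.coe_pow, ← Circle.coe_pow] at h2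
  have h3 := Circle.coe_injective h2
  rw [← AddCircle.toCircle_nsmul, ← AddCircle.toCircle_nsmul] at h3
  have h4 := AddCircle.injective_toCircle one_ne_zero h3
  have h5 : (((n.factorization p : ℤ) - (n'.factorization p : ℤ) : ℤ) : ℝ) * Real.sqrt 2 =
      (n.factorization p : ℝ) * Real.sqrt 2 - (n'.factorization p : ℝ) * Real.sqrt 2 := by
    push_cast; ring
  have h6 : (((((n.factorization p : ℤ) - (n'.factorization p : ℤ) : ℤ) : ℝ) * Real.sqrt 2 : ℝ) :
      UnitAddCircle) = 0 := by
    rw [h5, AddCircle.coe_sub, sub_eq_zero]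
    have e1 : ∀ k : ℕ, (((k : ℝ) * Real.sqrt 2 : ℝ) : UnitAddCircle) = k • t := by
      intro k
      rw [ht, ← AddCircle.coe_nsmul, nsmul_eq_mul]
    rw [e1, e1, h4]
  obtain ⟨k, hk⟩ := (AddCircle.coe_eq_zero_iff (1 : ℝ)).mp h6
  have hne : ((n.factorization p : ℤ) - (n'.factorization p : ℤ)) ≠ 0 := by
    intro h0
    exact hp (by omega)
  have hirr := irrational_sqrt_two.intCast_mul hne
  refine hirr.ne_int k ?_
  rw [← hk]
  simp

theorem orth {a b : ℕ} (ha : a ≠ 0) (hb : b ≠ 0) :
    ∫ x, chi x a * conj (chi x b) ∂haar = if a = b then 1 else 0 := by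
  split_ifs with h
  · subst h
    simp only [chi_conj _ ha]
    simp
  · obtain ⟨y, hy⟩ := exists_sep ha hb h
    refine int_char (fun x => chi x a * conj (chi x b)) ?_ y hy
    intro x z
    simp only [chi_add, map_mul]
    ring

/-! ### Density -/

noncomputable def rho (c : ℕ → ℕ → ℝ) (J : Finset ℕ) (x : G) : ℂ :=
  ∑ n ∈ J, ∑ n' ∈ J, conj (chi x n) * chi x n' * (c n n' : ℂ)

theorem rho_cont (c : ℕ → ℕ → ℝ) (J : Finset ℕ) : Continuous (rho c J) := by
  unfold rho
  refine continuous_finsetSum _ fun n _ => continuous_finsetSum _ fun n' _ => ?_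
  exact ((Complex.continuous_conj.comp (chi_cont n)).mul (chi_cont n')).mul continuous_const

theorem rho_re_nonneg {c : ℕ → ℕ → ℝ}
    (hpsd : ∀ (s : Finset ℕ) (z : ℕ → ℂ), (∀ u ∈ s, 0 < u) →
      0 ≤ (∑ u ∈ s, ∑ v ∈ s, z u * conj (z v) * (c u v : ℂ)).re)
    {J : Finset ℕ} (hJ : ∀ n ∈ J, 0 < n) (x : G) : 0 ≤ (rho c J x).re := by
  have h := hpsd J (fun n => conj (chi x n)) hJ
  unfold rho
  simpa only [Complex.conj_conj] using h

theorem rho_real {c : ℕ → ℕ → ℝ} (hsym : ∀ u v, c u v = c v u) (J : Finset ℕ) (x : G) :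
    ((rho c J x).re : ℂ) = rho c J x := by
  rw [← Complex.conj_eq_iff_re]
  unfold rho
  have h : ∀ n n', conj (conj (chi x n) * chi x n' * (c n n' : ℂ)) =
      conj (chi x n') * chi x n * (c n' n : ℂ) := by
    intro n n'
    rw [map_mul, map_mul, Complex.conj_conj, Complex.conj_ofReal, hsym n n']
    ring
  simp only [map_sum, h]
  exact Finset.sum_comm

/-- number of pairs -/
def cnt (u v : ℕ) (J : Finset ℕ) : ℕ := ((J ×ˢ J).filter fun q => u * q.2 = v * q.1).card

theorem int_rho {c : ℕ → ℕ → ℝ} (hmul : ∀ k u v, 0 < k → 0 < u → 0 < v → c (k * u) (k * v) = c u v)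
    {J : Finset ℕ} (hJ : ∀ n ∈ J, 0 < n) {u v : ℕ} (hu : 0 < u) (hv : 0 < v) :
    ∫ x, rho c J x * (chi x u * conj (chi x v)) ∂haar = (c u v : ℂ) * (cnt u v J : ℂ) := by
  have hint : ∀ a b : ℕ, Integrable (fun x : G => chi x a * conj (chi x b)) haar := by
    intro a b
    have hc : Continuous fun x : G => chi x a * conj (chi x b) :=
      (chi_cont a).mul (Complex.continuous_conj.comp (chi_cont b))
    exact hc.integrable_of_hasCompactSupport (HasCompactSupport.of_compactSpace _)
  have h1 : ∀ x : G, rho c J x * (chi x u * conj (chi x v)) =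
      ∑ n ∈ J, ∑ n' ∈ J, (chi x (u * n') * conj (chi x (v * n))) * (c n n' : ℂ) := by
    intro x
    unfold rho
    rw [Finset.sum_mul]
    refine Finset.sum_congr rfl fun n hn => ?_
    rw [Finset.sum_mul]
    refine Finset.sum_congr rfl fun n' hn' => ?_
    rw [chi_mul x hu.ne' (hJ n' hn').ne', chi_mul x hv.ne' (hJ n hn).ne', map_mul]
    ring
  simp_rw [h1]
  rw [integral_finsetSum _ (fun n _ => integrable_finsetSum _ fun n' _ => (hint _ _).mul_const _)]
  have h2 : ∀ n ∈ J, ∫ x : G, ∑ n' ∈ J, (chi x (u * n') * conj (chi x (v * n))) * (c n n' : ℂ) ∂haar =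
      ∑ n' ∈ J, if u * n' = v * n then (c u v : ℂ) else 0 := by
    intro n hn
    rw [integral_finsetSum _ (fun n' _ => (hint _ _).mul_const _)]
    refine Finset.sum_congr rfl fun n' hn' => ?_
    rw [integral_mul_const, orth (mul_pos hu (hJ n' hn')).ne' (mul_pos hv (hJ n hn)).ne']
    split_ifs with h
    · have e1 : c n n' = c u v := by
        have e2 := hmul v n n' hv (hJ n hn) (hJ n' hn')
        rw [← h, mul_comm u n', mul_comm v n'] at e2
        rw [← e2, hmul n' u v (hJ n' hn') hu hv]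
      rw [e1, one_mul]
    · rw [zero_mul]
  rw [Finset.sum_congr rfl h2, ← Finset.sum_product', ← Finset.sum_filter, Finset.sum_const,
    nsmul_eq_mul, mul_comm]
  rfl

/-! ### Counting -/

def bad (u M : ℕ) : ℕ := (M.divisors.filter fun n => ¬ u * n ∣ M).card

theorem bad_mul {u v M : ℕ} (hv : 0 < v) : bad (u * v) M ≤ bad u M + bad v M := by
  unfold bad
  have h : (M.divisors.filter fun n => ¬ u * v * n ∣ M) ⊆
      ((M.divisors.filter fun n => v * n ∣ M ∧ ¬ u * (v * n) ∣ M)) ∪
        (M.divisors.filter fun n => ¬ v * n ∣ M) := by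
    intro n hn
    rw [Finset.mem_filter] at hn
    rw [Finset.mem_union, Finset.mem_filter, Finset.mem_filter]
    by_cases h1 : v * n ∣ M
    · left; exact ⟨hn.1, h1, by rw [← mul_assoc]; exact hn.2⟩
    · right; exact ⟨hn.1, h1⟩
  have h2 : (M.divisors.filter fun n => v * n ∣ M ∧ ¬ u * (v * n) ∣ M).card ≤
      (M.divisors.filter fun n => ¬ u * n ∣ M).card := by
    refine Finset.card_le_card_of_injOn (fun n => v * n) ?_ ?_
    · intro n hn
      rw [Finset.mem_coe, Finset.mem_filter] at hn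
      rw [Finset.mem_coe, Finset.mem_filter]
      exact ⟨Nat.mem_divisors.mpr ⟨hn.2.1, (Nat.mem_divisors.mp hn.1).2⟩, hn.2.2⟩
    · intro a _ b _ hab
      exact Nat.eq_of_mul_eq_mul_left hv hab
  have h3 := Finset.card_le_card h
  have h4 := Finset.card_union_le ((M.divisors.filter fun n => v * n ∣ M ∧ ¬ u * (v * n) ∣ M))
    (M.divisors.filter fun n => ¬ v * n ∣ M)
  omega

theorem pow_dvd_of_bad {p k M n : ℕ} (hp : p.Prime) (hk : p ^ k ∣ M) (hM : M ≠ 0) (hn : n ∣ M)
    (hb : ¬ p * n ∣ M) : p ^ k ∣ n := by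
  obtain ⟨a, s, hs, rfl⟩ :=
    Nat.exists_eq_pow_mul_and_not_dvd (ne_zero_of_dvd_ne_zero hM hn) p hp.ne_one
  by_contra hcon
  have hak : a < k := by
    by_contra h
    exact hcon (Dvd.dvd.mul_right (pow_dvd_pow p (not_lt.mp h)) s)
  have hcop : Nat.Coprime (p ^ (a + 1)) s :=
    Nat.Coprime.pow_left _ ((Nat.Prime.coprime_iff_not_dvd hp).mpr hs)
  have h1 : p ^ (a + 1) ∣ M := (pow_dvd_pow p hak).trans hk
  have h2 : s ∣ M := (Dvd.intro_left _ rfl).trans hn
  have h3 := hcop.mul_dvd_of_dvd_of_dvd h1 h2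
  exact hb (by rw [← mul_assoc, ← pow_succ']; exact h3)

theorem bad_prime {p k M : ℕ} (hp : p.Prime) (hk : p ^ k ∣ M) (hM : M ≠ 0) :
    k * bad p M ≤ M.divisors.card := by
  have hB : ∀ n ∈ (M.divisors.filter fun n => ¬ p * n ∣ M), n ∣ M ∧ ¬ p * n ∣ M ∧ p ^ k ∣ n := by
    intro n hn
    rw [Finset.mem_filter, Nat.mem_divisors] at hn
    exact ⟨hn.1.1, hn.2, pow_dvd_of_bad hp hk hM hn.1.1 hn.2⟩
  have key : ∀ j n j' n', j < k → j' < k → n ∈ (M.divisors.filter fun n => ¬ p * n ∣ M) →
      n' ∈ (M.divisors.filter fun n => ¬ p * n ∣ M) → n / p ^ j = n' / p ^ j' → j ≤ j' →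
      j = j' ∧ n = n' := by
    intro j n j' n' hj hj' hn hn' h hle
    obtain ⟨h1, h2, h3⟩ := hB n hn
    obtain ⟨h1', h2', h3'⟩ := hB n' hn'
    have e1 : n = p ^ j * (n / p ^ j) := (Nat.mul_div_cancel' ((pow_dvd_pow p hj.le).trans h3)).symm
    have e2 : n' = p ^ j' * (n' / p ^ j') :=
      (Nat.mul_div_cancel' ((pow_dvd_pow p hj'.le).trans h3')).symm
    rcases hle.lt_or_eq with hlt | heq
    · exfalso
      apply h2
      refine Dvd.dvd.trans ?_ h1'
      rw [e2, ← h, e1, Nat.mul_div_cancel_left _ (pow_pos hp.pos j), ← mul_assoc, ← pow_succ']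
      exact mul_dvd_mul_right (pow_dvd_pow p hlt) _
    · subst heq
      exact ⟨rfl, by rw [e1, e2, h]⟩
  have h : ((Finset.range k) ×ˢ (M.divisors.filter fun n => ¬ p * n ∣ M)).card ≤
      M.divisors.card := by
    refine Finset.card_le_card_of_injOn (fun q => q.2 / p ^ q.1) ?_ ?_
    · rintro ⟨j, n⟩ hq
      rw [Finset.mem_coe, Finset.mem_product, Finset.mem_range] at hq
      obtain ⟨h1, h2, h3⟩ := hB n hq.2
      rw [Finset.mem_coe, Nat.mem_divisors]
      exact ⟨(Nat.div_dvd_of_dvd ((pow_dvd_pow p hq.1.le).trans h3)).trans h1, hM⟩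
    · rintro ⟨j, n⟩ hq ⟨j', n'⟩ hq' heq
      rw [Finset.mem_coe, Finset.mem_product, Finset.mem_range] at hq hq'
      rcases le_total j j' with hle | hle
      · obtain ⟨a1, a2⟩ := key j n j' n' hq.1 hq'.1 hq.2 hq'.2 heq hle
        rw [a1, a2]
      · obtain ⟨a1, a2⟩ := key j' n' j n hq'.1 hq.1 hq'.2 hq.2 heq.symm hle
        rw [a1, a2]
  rw [Finset.card_product, Finset.card_range] at h
  exact h

def MM (K : ℕ) : ℕ := K.factorial ^ K

theorem MM_pos (K : ℕ) : 0 < MM K := pow_pos K.factorial_pos K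

theorem dcard_pos (K : ℕ) : 0 < (MM K).divisors.card :=
  Finset.card_pos.mpr ⟨1, Nat.one_mem_divisors.mpr (MM_pos K).ne'⟩

theorem tendsto_bad (u : ℕ) : 0 < u →
    Tendsto (fun K => (bad u (MM K) : ℝ) / (MM K).divisors.card) atTop (𝓝 0) := by
  induction u using Nat.recOnMul with
  | zero => intro h; exact absurd h (lt_irrefl _)
  | one =>
    intro _
    have : ∀ K, (bad 1 (MM K) : ℝ) / (MM K).divisors.card = 0 := by
      intro K
      have : bad 1 (MM K) = 0 := by
        unfold bad
        rw [Finset.card_eq_zero, Finset.filter_eq_empty_iff]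
        intro n hn
        rw [one_mul, not_not]
        exact Nat.dvd_of_mem_divisors hn
      rw [this]; simp
    simp only [this]
    exact tendsto_const_nhds
  | prime p hp =>
    intro _
    refine squeeze_zero' (Eventually.of_forall fun K => by positivity) ?_
      tendsto_one_div_atTop_nhds_zero_nat
    filter_upwards [eventually_ge_atTop p, eventually_gt_atTop 0] with K hK hK0
    have h1 : p ^ K ∣ MM K := pow_dvd_pow_of_dvd (hp.dvd_factorial.mpr hK) K
    have h2 := bad_prime hp h1 (MM_pos K).ne'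
    have h3 : (0 : ℝ) < (MM K).divisors.card := by exact_mod_cast dcard_pos K
    have h4 : (0 : ℝ) < K := by exact_mod_cast hK0
    rw [div_le_div_iff₀ h3 h4]
    have h5 : ((K * bad p (MM K) : ℕ) : ℝ) ≤ (MM K).divisors.card := by exact_mod_cast h2
    push_cast at h5
    linarith
  | mul a b iha ihb =>
    intro hab
    have ha : 0 < a := Nat.pos_of_mul_pos_right hab
    have hb : 0 < b := Nat.pos_of_mul_pos_left hab
    have h := (iha ha).add (ihb hb)
    rw [add_zero] at h
    refine squeeze_zero (fun K => by positivity) (fun K => ?_) h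
    rw [← add_div]
    have h3 : (0 : ℝ) < (MM K).divisors.card := by exact_mod_cast dcard_pos K
    refine div_le_div_of_nonneg_right ?_ h3.le
    exact_mod_cast bad_mul hb

theorem cnt_le {u v : ℕ} (hu : 0 < u) (J : Finset ℕ) : cnt u v J ≤ J.card := by
  unfold cnt
  refine Finset.card_le_card_of_injOn Prod.fst ?_ ?_
  · rintro ⟨n, n'⟩ hq
    rw [Finset.mem_coe, Finset.mem_filter, Finset.mem_product] at hq
    exact hq.1.1
  · rintro ⟨n, n'⟩ hq ⟨m, m'⟩ hq' heq
    rw [Finset.mem_coe, Finset.mem_filter, Finset.mem_product] at hq hq'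
    have e1 : n = m := heq
    subst e1
    have e2 : u * n' = u * m' := hq.2.trans hq'.2.symm
    rw [Nat.eq_of_mul_eq_mul_left hu e2]

theorem le_cnt {u v M : ℕ} (hu : 0 < u) :
    M.divisors.card ≤ cnt u v M.divisors + bad u M + bad v M := by
  have h1 : M.divisors ⊆ (M.divisors.filter fun n => u * n ∣ M ∧ v * n ∣ M) ∪
      ((M.divisors.filter fun n => ¬ u * n ∣ M) ∪ (M.divisors.filter fun n => ¬ v * n ∣ M)) := by
    intro n hn
    rw [Finset.mem_union, Finset.mem_union, Finset.mem_filter, Finset.mem_filter, Finset.mem_filter]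
    by_cases a : u * n ∣ M
    · by_cases b : v * n ∣ M
      · exact Or.inl ⟨hn, a, b⟩
      · exact Or.inr (Or.inr ⟨hn, b⟩)
    · exact Or.inr (Or.inl ⟨hn, a⟩)
  have h2 : (M.divisors.filter fun n => u * n ∣ M ∧ v * n ∣ M).card ≤ cnt u v M.divisors := by
    unfold cnt
    refine Finset.card_le_card_of_injOn (fun n => (u * n, v * n)) ?_ ?_
    · intro n hn
      rw [Finset.mem_coe, Finset.mem_filter] at hn
      have hM := (Nat.mem_divisors.mp hn.1).2
      rw [Finset.mem_coe, Finset.mem_filter, Finset.mem_product]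
      refine ⟨⟨Nat.mem_divisors.mpr ⟨hn.2.1, hM⟩, Nat.mem_divisors.mpr ⟨hn.2.2, hM⟩⟩, ?_⟩
      show u * (v * n) = v * (u * n)
      ring
    · intro a _ b _ hab
      exact Nat.eq_of_mul_eq_mul_left hu (congrArg Prod.fst hab)
  have h3 := Finset.card_le_card h1
  have h4 := Finset.card_union_le (M.divisors.filter fun n => u * n ∣ M ∧ v * n ∣ M)
    ((M.divisors.filter fun n => ¬ u * n ∣ M) ∪ (M.divisors.filter fun n => ¬ v * n ∣ M))
  have h5 := Finset.card_union_le (M.divisors.filter fun n => ¬ u * n ∣ M)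
    (M.divisors.filter fun n => ¬ v * n ∣ M)
  unfold bad
  omega

theorem tendsto_cnt {u v : ℕ} (hu : 0 < u) (hv : 0 < v) :
    Tendsto (fun K => (cnt u v (MM K).divisors : ℝ) / (MM K).divisors.card) atTop (𝓝 1) := by
  have h := (tendsto_const_nhds (x := (1 : ℝ)) (f := atTop)).sub
    ((tendsto_bad u hu).add (tendsto_bad v hv))
  rw [add_zero, sub_zero] at h
  refine tendsto_of_tendsto_of_tendsto_of_le_of_le h tendsto_const_nhds ?_ ?_
  · intro K
    have h3 : (0 : ℝ) < (MM K).divisors.card := by exact_mod_cast dcard_pos K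
    have h4 : ((MM K).divisors.card : ℝ) ≤ cnt u v (MM K).divisors + bad u (MM K) + bad v (MM K) := by
      exact_mod_cast le_cnt (v := v) hu
    show 1 - ((bad u (MM K) : ℝ) / (MM K).divisors.card + (bad v (MM K) : ℝ) / (MM K).divisors.card)
      ≤ (cnt u v (MM K).divisors : ℝ) / (MM K).divisors.card
    rw [le_div_iff₀ h3, sub_mul, add_mul, div_mul_cancel₀ _ h3.ne', div_mul_cancel₀ _ h3.ne']
    linarith
  · intro K
    have h3 : (0 : ℝ) < (MM K).divisors.card := by exact_mod_cast dcard_pos K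
    show (cnt u v (MM K).divisors : ℝ) / (MM K).divisors.card ≤ 1
    rw [div_le_one h3]
    exact_mod_cast cnt_le hu _

theorem cnt_one (J : Finset ℕ) : cnt 1 1 J = J.card := by
  refine le_antisymm (cnt_le one_pos J) ?_
  unfold cnt
  refine Finset.card_le_card_of_injOn (fun n => (n, n)) ?_ ?_
  · intro n hn
    rw [Finset.mem_coe] at hn
    rw [Finset.mem_coe, Finset.mem_filter, Finset.mem_product]
    exact ⟨⟨hn, hn⟩, rfl⟩
  · intro a _ b _ hab
    exact congrArg Prod.fst hab

/-- approximating densities -/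
noncomputable def dens (c : ℕ → ℕ → ℝ) (K : ℕ) (x : G) : ENNReal :=
  ENNReal.ofReal ((rho c (MM K).divisors x).re / (MM K).divisors.card)

end SPECx

open SPECx in
theorem SPEC : S_SPEC := by
  intro c hmul hsym hpsd
  have hpos : ∀ K, ∀ n ∈ (MM K).divisors, 0 < n := fun K n hn => Nat.pos_of_mem_divisors hn
  have hre : ∀ K x, 0 ≤ (rho c (MM K).divisors x).re / ((MM K).divisors.card : ℝ) :=
    fun K x => div_nonneg (rho_re_nonneg hpsd (hpos K) x) (Nat.cast_nonneg _)
  have hcont : ∀ K, Continuous fun x => (rho c (MM K).divisors x).re / ((MM K).divisors.card : ℝ) :=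
    fun K => (Complex.continuous_re.comp (rho_cont c _)).div_const _
  have hmeas : ∀ K, Measurable (dens c K) := fun K => (hcont K).measurable.ennreal_ofReal
  have hint : ∀ K u v, 0 < u → 0 < v →
      ∫ x, chi x u * conj (chi x v) ∂(haar.withDensity (dens c K)) =
        (c u v : ℂ) * (((cnt u v (MM K).divisors : ℝ) / (MM K).divisors.card : ℝ) : ℂ) := by
    intro K u v hu hv
    rw [integral_withDensity_eq_integral_toReal_smul (hmeas K)
      (ae_of_all _ fun x => ENNReal.ofReal_lt_top)]
    have h1 : ∀ x, (dens c K x).toReal • (chi x u * conj (chi x v)) =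
        (1 / ((MM K).divisors.card : ℂ)) *
          (rho c (MM K).divisors x * (chi x u * conj (chi x v))) := by
      intro x
      unfold dens
      rw [ENNReal.toReal_ofReal (hre K x), Complex.real_smul, Complex.ofReal_div,
        rho_real hsym, Complex.ofReal_natCast]
      ring
    simp_rw [h1]
    rw [integral_const_mul, int_rho hmul (hpos K) hu hv]
    push_cast
    ring
  have hmass : ∀ K, (haar.withDensity (dens c K)) Set.univ = ENNReal.ofReal (c 1 1) := by
    intro K
    rw [withDensity_apply _ MeasurableSet.univ, Measure.restrict_univ]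
    unfold dens
    rw [← ofReal_integral_eq_lintegral_ofReal
      ((hcont K).integrable_of_hasCompactSupport (HasCompactSupport.of_compactSpace _))
      (ae_of_all _ (hre K))]
    congr 1
    have h1 := int_rho hmul (hpos K) one_pos one_pos
    simp only [chi_conj _ one_ne_zero, mul_one, cnt_one] at h1
    have h2 : ∫ x, rho c (MM K).divisors x ∂haar =
        ((∫ x, (rho c (MM K).divisors x).re ∂haar : ℝ) : ℂ) := by
      rw [← integral_complex_ofReal]
      exact integral_congr_ae (ae_of_all _ fun x => (rho_real hsym _ x).symm)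
    rw [h2] at h1
    have h3 : ∫ x, (rho c (MM K).divisors x).re ∂haar = c 1 1 * (MM K).divisors.card := by
      exact_mod_cast h1
    rw [integral_div, h3]
    have h4 : ((MM K).divisors.card : ℝ) ≠ 0 := by exact_mod_cast (dcard_pos K).ne'
    field_simp
  have hfin : ∀ K, IsFiniteMeasure (haar.withDensity (dens c K)) := fun K =>
    ⟨by rw [hmass]; exact ENNReal.ofReal_lt_top⟩
  let ν : ℕ → FiniteMeasure G := fun K => ⟨haar.withDensity (dens c K), hfin K⟩
  have hcomp := isCompact_setOfPred_finiteMeasure_le_of_compactSpace G (Real.toNNReal (c 1 1))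
  obtain ⟨σ, _, hσ⟩ := hcomp.ultrafilter_le_nhds ((hyperfilter ℕ).map ν) (by
    rw [le_principal_iff, Ultrafilter.mem_coe, Ultrafilter.mem_map]
    refine univ_mem' fun K => ?_
    show (ν K).mass ≤ Real.toNNReal (c 1 1)
    have h : ((ν K).mass : ENNReal) = ENNReal.ofReal (c 1 1) := by
      rw [FiniteMeasure.ennreal_mass]
      exact hmass K
    have h2 : ((ν K).mass : ENNReal) ≤ ((Real.toNNReal (c 1 1) : NNReal) : ENNReal) := by
      rw [h]; rfl
    exact_mod_cast h2)
  have ht : Tendsto ν (hyperfilter ℕ : Filter ℕ) (𝓝 σ) := hσ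
  refine ⟨(σ : Measure G), inferInstance, fun u v hu hv => ?_⟩
  have hcc : Continuous fun x : G => chi x u * conj (chi x v) :=
    (chi_cont u).mul (Complex.continuous_conj.comp (chi_cont v))
  let f : BoundedContinuousFunction G ℂ :=
    BoundedContinuousFunction.mkOfCompact ⟨fun x => chi x u * conj (chi x v), hcc⟩
  have h1 := (FiniteMeasure.tendsto_iff_forall_integral_rclike_tendsto ℂ).mp ht f
  have h2 : Tendsto (fun K => ∫ x, f x ∂(ν K : Measure G)) (hyperfilter ℕ : Filter ℕ)
      (𝓝 (c u v : ℂ)) := by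
    have h3 := ((Complex.continuous_ofReal.tendsto 1).comp (tendsto_cnt hu hv)).const_mul (c u v : ℂ)
    rw [Complex.ofReal_one, mul_one] at h3
    have h4 := h3.mono_left Nat.hyperfilter_le_atTop
    refine h4.congr fun K => ?_
    exact (hint K u v hu hv).symm
  exact tendsto_nhds_unique h1 h2

end Pool.R872.QR
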