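import Pool.Agent.R872.QR.Defs

open MeasureTheory Filter Topology
open scoped ComplexConjugate

namespace Pool.R872.QR

/-- HB: numbers with `a_j - a_i ∣ a_i`. -/
def S_HB : Prop := ∀ k : ℕ, ∃ a : ℕ → ℕ, (∀ i, i < k → 0 < a i) ∧
  ∀ i j, i < j → j < k → a i < a j ∧ (a j - a i) ∣ a i ∧ (a j - a i) ∣ a j

/-- CHI: complete multiplicativity, continuity. -/
def S_CHI : Prop := (∀ x : ℕ → UnitAddCircle, UCM (chi x)) ∧ (∀ n, Continuous (fun x => chi x n)) ∧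
  ∀ n, chi 0 n = if n = 0 then 0 else 1

/-- SPEC: the spectral measure (Herglotz). -/
def S_SPEC : Prop := ∀ c : ℕ → ℕ → ℝ,
  (∀ k u v, 0 < k → 0 < u → 0 < v → c (k * u) (k * v) = c u v) →
  (∀ u v, c u v = c v u) →
  (∀ (s : Finset ℕ) (z : ℕ → ℂ), (∀ u ∈ s, 0 < u) →
    0 ≤ (∑ u ∈ s, ∑ v ∈ s, z u * conj (z v) * (c u v : ℂ)).re) →
  ∃ σ : Measure (ℕ → UnitAddCircle), IsFiniteMeasure σ ∧
    ∀ u v, 0 < u → 0 < v → ∫ x, chi x u * conj (chi x v) ∂σ = (c u v : ℂ)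

/-- PD: correlations of a multiplicative measure preserving system. -/
def S_PD : Prop := ∀ (X : Type) [MeasurableSpace X] (μ : Measure X) [IsProbabilityMeasure μ]
  (T : ℕ → X → X), (∀ n, 0 < n → MeasurePreserving (T n) μ μ) →
  (∀ m n, 0 < m → 0 < n → ∀ x, T (n * m) x = T n (T m x)) →
  ∀ A : Set X, MeasurableSet A →
  (∀ k u v, 0 < k → 0 < u → 0 < v →
    μ.real ((T (k * u)) ⁻¹' A ∩ (T (k * v)) ⁻¹' A) = μ.real ((T u) ⁻¹' A ∩ (T v) ⁻¹' A)) ∧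
  (∀ (s : Finset ℕ) (z : ℕ → ℂ), (∀ u ∈ s, 0 < u) →
    0 ≤ (∑ u ∈ s, ∑ v ∈ s, z u * conj (z v) *
      ((μ.real ((T u) ⁻¹' A ∩ (T v) ⁻¹' A) - μ.real A ^ 2 : ℝ) : ℂ)).re)

/-- CNT1: the numbers `Q t + 1`. -/
def S_CNT1 : Prop := ∀ y Q l : ℕ, Full y Q → 2 ≤ l → ∀ q : ℕ, 0 < q →
  Equi ((Finset.Ioc ((l - 1) * q) (l * q)).image (fun t => Q * t + 1)) (l * Q * q + 1) y q 2

/-- CNT2: the numbers coprime to `Q`. -/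
def S_CNT2 : Prop := ∀ y Q l : ℕ, Full y Q → 2 ≤ l → ∀ q : ℕ, 0 < q →
  Equi (S2 Q l q) (l * Q * q + 1) y (q * Nat.totient Q) (2 * Q) ∧
    (S2 Q l q).card = q * Nat.totient Q

/-- TK: the Turan-Kubilius inequality, small primes. -/
def S_TK : Prop := ∀ (S : Finset ℕ) (R y z : ℕ) (X C : ℝ), 0 ≤ X → 0 ≤ C → Equi S R y X C →
  y ≤ z → ∀ θ : ℕ → ℝ, (∀ p, |θ p| ≤ Real.pi) →
  ∑ u ∈ S, (∑ p ∈ (Finset.Ioc y z).filter (fun p => p.Prime ∧ p ∣ u), θ p -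
      ∑ p ∈ (Finset.Ioc y z).filter Nat.Prime, θ p / p) ^ 2 ≤
    X * ∑ p ∈ (Finset.Ioc y z).filter Nat.Prime, θ p ^ 2 / p + 100 * C * (z : ℝ) ^ 2 + 100 * C

/-- MER: primes between `z` and `z^4`, and the number of primes. -/
def S_MER : Prop := (∃ K : ℝ, ∀ z : ℕ, 1 ≤ z →
    ∑ p ∈ (Finset.Ioc z ((z + 1) ^ 4)).filter Nat.Prime, (1 : ℝ) / p ≤ K) ∧
  Tendsto (fun R : ℕ => (((Finset.Icc 1 R).filter Nat.Prime).card : ℝ) / R) atTop (𝓝 0)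

/-- PRE: a function pretending to be `n^{iτ}` is almost constant: one common constant `Z` for all
well distributed families. -/
def S_PRE : Prop := ∀ (F : ℕ → ℂ) (τ : ℝ), UCM F → Pret F τ → ∀ ε : ℝ, 0 < ε → ∃ y₀ : ℕ,
  ∀ y, y₀ ≤ y → ∀ (C κ : ℝ), 0 < C → 0 < κ → ∃ R₀ : ℕ, ∀ R, R₀ ≤ R → ∃ Z : ℂ, ‖Z‖ = 1 ∧
    ∀ (S : Finset ℕ) (X : ℝ), κ * R ≤ X → X ≤ R → Equi S R y X C →
      ∑ u ∈ S, ‖F u * (u : ℂ) ^ (-(τ * Complex.I)) - Z‖ ≤ ε * X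

/-- PAIR: comparison of the two families. -/
def S_PAIR : Prop := ∀ (F : ℕ → ℂ) (τ : ℝ), UCM F → Pret F τ → ∀ ε : ℝ, 0 < ε → ∃ y₀ : ℕ,
  ∀ y, y₀ ≤ y → ∀ Q l : ℕ, Full y Q → 2 ≤ l → ∀ᶠ q : ℕ in atTop,
    ∑ t ∈ Finset.Ioc ((l - 1) * q) (l * q), ∑ r ∈ S2 Q l q, ‖F (Q * t + 1) - F r‖ ≤
      (ε + 3 * |τ| / (l - 1)) * (q * (q * Nat.totient Q))

/-- NPR: a function that does not pretend has small means over `S2`. -/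
def S_NPR : Prop := ∀ (F : ℕ → ℂ), UCM F → (∀ τ : ℝ, ¬ Pret F τ) → ∀ Q l : ℕ, 0 < Q → 2 ≤ l →
  Tendsto (fun q : ℕ => (∑ r ∈ S2 Q l q, F r) / (q * Nat.totient Q : ℂ)) atTop (𝓝 0)

/-- DCT: the final choice of the parameters; `g y l q x` stands for the mean of
`‖F_x (Q t + 1) - F_x r‖`. -/
def S_DCT : Prop := ∀ (σ : Measure (ℕ → UnitAddCircle)) [IsFiniteMeasure σ]
  (g : ℕ → ℕ → ℕ → (ℕ → UnitAddCircle) → ℝ) (B : Set (ℕ → UnitAddCircle)), MeasurableSet B →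
  (∀ y l q, Measurable (g y l q)) → (∀ y l q x, 0 ≤ g y l q x ∧ g y l q x ≤ 2) →
  (∀ x ∈ B, ∃ τ : ℝ, ∀ ε : ℝ, 0 < ε → ∃ y₀ : ℕ, ∀ y, y₀ ≤ y → ∀ l, 2 ≤ l →
    ∀ᶠ q : ℕ in atTop, g y l q x ≤ ε + 3 * |τ| / (l - 1)) →
  ∀ η : ℝ, 0 < η → ∃ l, 2 ≤ l ∧ ∃ y₀ : ℕ, ∀ y, y₀ ≤ y → ∀ᶠ q : ℕ in atTop,
    ∫ x in B, g y l q x ∂σ ≤ η

end Pool.R872.QR
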