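import Pool.Agent.R872.QR.Stm

open MeasureTheory Filter Topology
open scoped ComplexConjugate

namespace Pool.R872.QR

namespace TKaux

/-- indicator of divisibility -/
noncomputable def ind (p u : ℕ) : ℝ := if p ∣ u then 1 else 0

theorem sum_ind (S : Finset ℕ) (p : ℕ) :
    ∑ u ∈ S, ind p u = ((S.filter (fun u => p ∣ u)).card : ℝ) := by
  unfold ind
  rw [Finset.card_filter]
  push_cast
  rfl

theorem ind_mul_self (p u : ℕ) : ind p u * ind p u = ind p u := by
  unfold ind; split_ifs <;> simp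

theorem ind_mul (p p' u : ℕ) (hp : p.Prime) (hp' : p'.Prime) (hne : p ≠ p') :
    ind p u * ind p' u = ind (p * p') u := by
  have hco : Nat.Coprime p p' := (Nat.coprime_primes hp hp').2 hne
  unfold ind
  by_cases h : p ∣ u
  · by_cases h' : p' ∣ u
    · rw [if_pos h, if_pos h', if_pos (hco.mul_dvd_of_dvd_of_dvd h h')]; simp
    · rw [if_pos h, if_neg h', if_neg (fun hh => h' (dvd_trans (dvd_mul_left _ _) hh))]; simp
  · rw [if_neg h, if_neg (fun hh => h (dvd_trans (dvd_mul_right _ _) hh))]; simp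

/-- the correlation of the divisibilities by `p` and `p'` -/
noncomputable def cc (S : Finset ℕ) (p p' : ℕ) : ℝ :=
  ∑ u ∈ S, (ind p u - 1 / p) * (ind p' u - 1 / p')

theorem cc_eq (S : Finset ℕ) (p p' : ℕ) :
    cc S p p' = ∑ u ∈ S, ind p u * ind p' u - (∑ u ∈ S, ind p u) * (1 / p') -
      (∑ u ∈ S, ind p' u) * (1 / p) + S.card * (1 / p * (1 / p')) := by
  unfold cc
  rw [Finset.sum_mul, Finset.sum_mul, ← Finset.sum_sub_distrib, ← Finset.sum_sub_distrib,
    ← nsmul_eq_mul, ← Finset.sum_const, ← Finset.sum_add_distrib]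
  apply Finset.sum_congr rfl
  intro u _
  ring

theorem inv_le (p : ℕ) (hp : p.Prime) : 0 ≤ (1 : ℝ) / p ∧ (1 : ℝ) / p ≤ 1 := by
  have : (1 : ℝ) ≤ p := by exact_mod_cast hp.one_lt.le
  refine ⟨by positivity, ?_⟩
  rw [div_le_one (by linarith)]
  exact this

theorem abs_mul_le {a b C : ℝ} (ha : |a| ≤ C) (hb0 : 0 ≤ b) (hb : b ≤ 1) : |a * b| ≤ C := by
  rw [abs_mul, abs_of_nonneg hb0]
  calc |a| * b ≤ |a| * 1 := mul_le_mul_of_nonneg_left hb (abs_nonneg _)
    _ ≤ C := by linarith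

theorem cc_ne (S : Finset ℕ) (R y : ℕ) (X C : ℝ) (hE : Equi S R y X C) (p p' : ℕ)
    (hp : p.Prime) (hp' : p'.Prime) (hy : y < p) (hy' : y < p') (hne : p ≠ p') :
    |cc S p p'| ≤ 4 * C := by
  obtain ⟨h1, h2, h3, h4, h5⟩ := hE
  have e0 := h2
  have e1 := h3 p hp hy
  have e2 := h3 p' hp' hy'
  have e3 := h5 p p' hp hp' hy hy' hne
  obtain ⟨i0, i1⟩ := inv_le p hp
  obtain ⟨j0, j1⟩ := inv_le p' hp'
  have hs : ∑ u ∈ S, ind p u * ind p' u = ((S.filter (fun u => p * p' ∣ u)).card : ℝ) := by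
    rw [← sum_ind]
    exact Finset.sum_congr rfl fun u _ => ind_mul p p' u hp hp' hne
  rw [cc_eq, hs, sum_ind, sum_ind]
  set N0 : ℝ := (S.card : ℝ)
  set N1 : ℝ := ((S.filter (fun u => p ∣ u)).card : ℝ)
  set N2 : ℝ := ((S.filter (fun u => p' ∣ u)).card : ℝ)
  set N3 : ℝ := ((S.filter (fun u => p * p' ∣ u)).card : ℝ)
  set i : ℝ := 1 / (p : ℝ) with hi
  set j : ℝ := 1 / (p' : ℝ) with hj
  have r1 : X / (p : ℝ) = X * i := by rw [hi]; ring
  have r2 : X / (p' : ℝ) = X * j := by rw [hj]; ring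
  have r3 : X / ((p : ℝ) * p') = X * (i * j) := by
    rw [hi, hj, div_mul_div_comm, one_mul, mul_one_div]
  rw [r1] at e1
  rw [r2] at e2
  rw [r3] at e3
  have q1 := abs_mul_le e1 j0 j1
  have q2 := abs_mul_le e2 i0 i1
  have q0 := abs_mul_le e0 (mul_nonneg i0 j0) (mul_le_one₀ i1 j0 j1)
  rw [abs_le] at q1 q2 q0 e3 ⊢
  constructor <;> nlinarith [q1.1, q1.2, q2.1, q2.2, q0.1, q0.2, e3.1, e3.2]

theorem cc_eq_le (S : Finset ℕ) (R y : ℕ) (X C : ℝ) (hX : 0 ≤ X) (hE : Equi S R y X C) (p : ℕ)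
    (hp : p.Prime) (hy : y < p) :
    cc S p p ≤ X / p + 4 * C := by
  obtain ⟨h1, h2, h3, h4, h5⟩ := hE
  have e0 := h2
  have e1 := h3 p hp hy
  obtain ⟨i0, i1⟩ := inv_le p hp
  have hs : ∑ u ∈ S, ind p u * ind p u = ((S.filter (fun u => p ∣ u)).card : ℝ) := by
    rw [← sum_ind]
    exact Finset.sum_congr rfl fun u _ => ind_mul_self p u
  rw [cc_eq, hs, sum_ind]
  set N0 : ℝ := (S.card : ℝ)
  set N1 : ℝ := ((S.filter (fun u => p ∣ u)).card : ℝ)
  set i : ℝ := 1 / (p : ℝ) with hi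
  have r1 : X / (p : ℝ) = X * i := by rw [hi]; ring
  rw [r1] at e1 ⊢
  have q1 := abs_mul_le e1 i0 i1
  have q0 := abs_mul_le e0 (mul_nonneg i0 i0) (mul_le_one₀ i1 i0 i1)
  have q3 : 0 ≤ X * (i * i) := mul_nonneg hX (mul_nonneg i0 i0)
  rw [abs_le] at q1 q0 e1
  nlinarith [q1.1, q1.2, q0.1, q0.2, e1.1, e1.2]

end TKaux

open TKaux in
theorem TK : S_TK := by
  intro S R y z X C hX hC hE hyz θ hθ
  set P := (Finset.Ioc y z).filter Nat.Prime with hP
  have hPp : ∀ p ∈ P, p.Prime ∧ y < p := by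
    intro p hp
    rw [hP, Finset.mem_filter, Finset.mem_Ioc] at hp
    exact ⟨hp.2, hp.1.1⟩
  have hPc : (P.card : ℝ) ≤ z := by
    have : P.card ≤ z := by
      calc P.card ≤ (Finset.Ioc y z).card := Finset.card_filter_le _ _
        _ = z - y := Nat.card_Ioc y z
        _ ≤ z := Nat.sub_le _ _
    exact_mod_cast this
  have key : ∀ u ∈ S, (∑ p ∈ (Finset.Ioc y z).filter (fun p => p.Prime ∧ p ∣ u), θ p -
      ∑ p ∈ P, θ p / p) ^ 2 =
      ∑ p ∈ P, ∑ p' ∈ P, θ p * θ p' * ((ind p u - 1 / p) * (ind p' u - 1 / p')) := by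
    intro u _
    have h1 : ∑ p ∈ (Finset.Ioc y z).filter (fun p => p.Prime ∧ p ∣ u), θ p =
        ∑ p ∈ P, θ p * ind p u := by
      rw [← Finset.filter_filter, ← hP, Finset.sum_filter]
      apply Finset.sum_congr rfl
      intro p _
      unfold ind
      split_ifs <;> simp
    rw [h1, ← Finset.sum_sub_distrib, sq, Finset.sum_mul_sum]
    apply Finset.sum_congr rfl
    intro p _
    apply Finset.sum_congr rfl
    intro p' _
    ring
  rw [Finset.sum_congr rfl key, Finset.sum_comm]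
  have step : ∀ p ∈ P, ∑ u ∈ S, ∑ p' ∈ P,
      θ p * θ p' * ((ind p u - 1 / p) * (ind p' u - 1 / p')) ≤
      X * (θ p ^ 2 / p) + P.card * (40 * C) := by
    intro p hp
    rw [Finset.sum_comm]
    have hpi : Real.pi ^ 2 ≤ 10 := by
      nlinarith [Real.pi_lt_d2, Real.pi_pos]
    have b : ∀ p' ∈ P, ∑ u ∈ S, θ p * θ p' * ((ind p u - 1 / p) * (ind p' u - 1 / p')) ≤
        (if p' = p then X * (θ p ^ 2 / p) else 0) + 40 * C := by
      intro p' hp'
      rw [← Finset.mul_sum]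
      change θ p * θ p' * cc S p p' ≤ _
      have ht : |θ p * θ p'| ≤ 10 := by
        rw [abs_mul]
        calc |θ p| * |θ p'| ≤ Real.pi * Real.pi :=
              mul_le_mul (hθ p) (hθ p') (abs_nonneg _) Real.pi_pos.le
          _ ≤ 10 := by rw [← sq]; exact hpi
      by_cases h : p' = p
      · subst h
        rw [if_pos rfl]
        have hc := cc_eq_le S R y X C hX hE p' (hPp p' hp').1 (hPp p' hp').2
        have h0 : 0 ≤ θ p' * θ p' := mul_self_nonneg _
        have h10 : θ p' * θ p' ≤ 10 := le_trans (le_abs_self _) ht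
        calc θ p' * θ p' * cc S p' p' ≤ θ p' * θ p' * (X / p' + 4 * C) :=
              mul_le_mul_of_nonneg_left hc h0
          _ = X * (θ p' ^ 2 / p') + (θ p' * θ p') * (4 * C) := by ring
          _ ≤ X * (θ p' ^ 2 / p') + 10 * (4 * C) := by
              have : (θ p' * θ p') * (4 * C) ≤ 10 * (4 * C) :=
                mul_le_mul_of_nonneg_right h10 (by linarith)
              linarith
          _ = _ := by ring
      · rw [if_neg h]
        have hc := cc_ne S R y X C hE p p' (hPp p hp).1 (hPp p' hp').1 (hPp p hp).2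
          (hPp p' hp').2 (fun hh => h hh.symm)
        calc θ p * θ p' * cc S p p' ≤ |θ p * θ p' * cc S p p'| := le_abs_self _
          _ = |θ p * θ p'| * |cc S p p'| := abs_mul _ _
          _ ≤ 10 * (4 * C) := mul_le_mul ht hc (abs_nonneg _) (by norm_num)
          _ = _ := by ring
    calc _ ≤ ∑ p' ∈ P, ((if p' = p then X * (θ p ^ 2 / p) else 0) + 40 * C) :=
          Finset.sum_le_sum b
      _ = X * (θ p ^ 2 / p) + P.card * (40 * C) := by
          rw [Finset.sum_add_distrib, Finset.sum_ite_eq' P p, if_pos hp, Finset.sum_const,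
            nsmul_eq_mul]
  calc _ ≤ ∑ p ∈ P, (X * (θ p ^ 2 / p) + P.card * (40 * C)) := Finset.sum_le_sum step
    _ = X * ∑ p ∈ P, θ p ^ 2 / p + P.card * P.card * (40 * C) := by
        rw [Finset.sum_add_distrib, ← Finset.mul_sum, Finset.sum_const, nsmul_eq_mul]
        ring
    _ ≤ X * ∑ p ∈ P, θ p ^ 2 / p + 100 * C * (z : ℝ) ^ 2 + 100 * C := by
        have h0 : (0 : ℝ) ≤ P.card := Nat.cast_nonneg _
        have h1 : (P.card : ℝ) * P.card ≤ (z : ℝ) ^ 2 := by
          rw [sq]; exact mul_le_mul hPc hPc h0 (Nat.cast_nonneg _)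
        have h2 : (P.card : ℝ) * P.card * (40 * C) ≤ (z : ℝ) ^ 2 * (40 * C) :=
          mul_le_mul_of_nonneg_right h1 (by linarith)
        have h3 : 0 ≤ (z : ℝ) ^ 2 * C := mul_nonneg (sq_nonneg _) hC
        nlinarith

end Pool.R872.QR
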